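import Pool.Agent.Shared.Forcing.Defs

/-! The higher Kurepa hypotheses, read inside a structure `(M, E)`. -/

namespace Pool.Agent.Lib.MP_4847d9_lc

open Pool.Agent.Shared.Forcing

universe u

variable {M : Type u} (E : M → M → Prop)

/-- `t = F ↾ x = {a ∩ x : a ∈ F}` -/
def IsTrace (t F x : M) : Prop :=
  ∀ s, E s t ↔ ∃ a, E a F ∧ ∀ z, E z s ↔ E z a ∧ E z x

/-- `KH(k, l)`: there is `F ⊆ P(k)` with `|F| ≥ k⁺` and `|F ↾ x| ≤ l` whenever `x ⊆ k`, `|x| = l`. -/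
def KH (k l : M) : Prop :=
  ∃ k' F, IsSucc E k k' ∧ (∀ a, E a F → Sub E a k) ∧ Inj E k' F ∧
    ∀ x t, Sub E x k → Inj E x l → Inj E l x → IsTrace E t F x → Inj E t l

/-- `KH(k, < l)`: there is `F ⊆ P(k)` with `|F| ≥ k⁺` and `|F ↾ x| ≤ |x| + ℵ₀` whenever `x ⊆ k`,
`|x| < l`. -/
def KHlt (k l : M) : Prop :=
  ∃ k' w F, IsSucc E k k' ∧ IsOmega E w ∧ (∀ a, E a F → Sub E a k) ∧ Inj E k' F ∧
    ∀ x t, Sub E x k → ¬ Inj E l x → IsTrace E t F x → Inj E t x ∨ Inj E t w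

end Pool.Agent.Lib.MP_4847d9_lc
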