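import Pool.Agent.Shared.Forcing.Cards
import Pool.Agent.Lib.MP_4847d9_lc.Defs

/-! Translation of the Kurepa hypotheses in the generic extension into Boolean algebra terms. -/

namespace Pool.Agent.Lib.MP_4847d9_lc

open Pool.Agent.Shared.Forcing Cardinal Set

universe u

variable {B : Type u} [CompleteBooleanAlgebra B] {l : Cardinal.{u}} [hl : Fact l.IsInaccessible]

instance Dec.isTrace (X Y Z : HName B l) :
    Dec (fun U => IsTrace (El l U) (cls U X) (cls U Y) (cls U Z)) := by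
  unfold IsTrace; infer_instance

/-- `A ξ` (`cd ξ < κ`) are names of pairwise distinct subsets of `μ` -/
def Distinct (b₀ : B) (μ κ : Cardinal.{u}) (A : OT l → OT l → B) : Prop :=
  ∀ ξ ξ', cd ξ < κ → cd ξ' < κ → ξ ≠ ξ' → ∀ b ≤ b₀, (∀ η, cd η < μ → b ⊓ A ξ η = b ⊓ A ξ' η) → b = ⊥

/-- Boolean algebra form of a Kurepa family -/
def KHData (B : Type u) [CompleteBooleanAlgebra B] (l μ κ c : Cardinal.{u}) : Prop :=
  ∃ A : OT l → OT l → B, Distinct ⊤ μ κ A ∧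
    ∀ y : Set (OT l), #y < c → (∀ η ∈ y, cd η < μ) → ∀ b : B, b ≠ ⊥ → ∃ b' ≤ b, b' ≠ ⊥ ∧
      ∃ (J : Type u) (t : J → OT l → B), #J < c ∧ ∀ ξ, cd ξ < κ → ∀ d ≤ b', d ≠ ⊥ →
        ∃ d' ≤ d, d' ≠ ⊥ ∧ ∃ j, ∀ η ∈ y, d' ⊓ A ξ η = d' ⊓ t j η

theorem mem_iff_of_inf_eq {U : Ultra B} {d x y : B} (hd : d ∈ U) (h : d ⊓ x = d ⊓ y) :
    x ∈ U ↔ y ∈ U := by
  constructor
  · intro hx
    have := Ultra.inf_mem.mpr ⟨hd, hx⟩
    rw [h] at this
    exact (Ultra.inf_mem.mp this).2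
  · intro hx
    have := Ultra.inf_mem.mpr ⟨hd, hx⟩
    rw [← h] at this
    exact (Ultra.inf_mem.mp this).2

theorem inf_eq_of_forall {d x y : B} (h : ∀ U : Ultra B, d ∈ U → (x ∈ U ↔ y ∈ U)) :
    d ⊓ x = d ⊓ y :=
  le_antisymm (Ultra.le_of_forall fun U hU => Ultra.inf_mem.mpr
      ⟨(Ultra.inf_mem.mp hU).1, (h U (Ultra.inf_mem.mp hU).1).mp (Ultra.inf_mem.mp hU).2⟩)
    (Ultra.le_of_forall fun U hU => Ultra.inf_mem.mpr
      ⟨(Ultra.inf_mem.mp hU).1, (h U (Ultra.inf_mem.mp hU).1).mpr (Ultra.inf_mem.mp hU).2⟩)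

theorem kh_of_data {μ κ c e : Cardinal.{u}} (hμ : μ < l) (hκ : κ < l) (hc : Nice B l c)
    (hcl : Cl B l c e) (hec : e < c) (hd : KHData B l μ κ c) (U : Ultra B)
    (hs : IsSucc (El l U) (ck U (oc l μ)) (ck U (oc l κ))) :
    KH (El l U) (ck U (oc l μ)) (ck U (oc l e)) := by
  obtain ⟨A, hA, hd⟩ := hd
  obtain ⟨hc0, hcl', S₀, hF, -, -⟩ := hc
  have he : e < l := hec.trans hcl'
  let a : Iio (oc l κ) → SName B l := fun ξ => valName (oc l μ) (A ξ)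
  refine ⟨_, sm U (SName.mk _ (cd_lt (oc l κ)) a fun _ => ⊤), hs, ?_, ?_, ?_⟩
  · intro x hx
    obtain ⟨X, rfl⟩ := cls_surj x
    clear hs
    refine wlog_mk X (cd_lt (oc l κ)) _ _ U hx ?_
    intro U ξ _ e
    rw [e]
    exact valName_sub U _ _
  · clear hs
    refine ⟨sm U (relName (cd_lt (oc l κ)) (fun ξ => chk B ξ.1) a fun _ => ⊤), ?_, ?_, ?_⟩
    · intro x hx
      obtain ⟨X, rfl⟩ := cls_surj x
      refine wlog_ck X _ U hx ?_
      intro U ξ hξ e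
      rw [e]
      exact ⟨_, mem_mk _ a _ ⟨ξ, hξ⟩ U.top_mem,
        maps_relName _ (fun ξ : Iio (oc l κ) => chk B ξ.1) a _ ⟨ξ, hξ⟩ U.top_mem⟩
    · intro x y y' h1 h2
      obtain ⟨X, rfl⟩ := cls_surj x
      obtain ⟨Y, rfl⟩ := cls_surj y
      obtain ⟨Y', rfl⟩ := cls_surj y'
      revert h2
      refine wlog_rel X Y (cd_lt (oc l κ)) _ _ _ U h1 ?_
      intro U ξ _ e1 e2 h2
      revert e1 e2
      refine wlog_rel X Y' (cd_lt (oc l κ)) _ _ _ U h2 ?_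
      intro U ξ' _ e1' e2' e1 e2
      obtain rfl : ξ = ξ' := Subtype.ext (ck_inj (e1.symm.trans e1'))
      exact e2.trans e2'.symm
    · intro x x' y h1 h2
      obtain ⟨X, rfl⟩ := cls_surj x
      obtain ⟨X', rfl⟩ := cls_surj x'
      obtain ⟨Y, rfl⟩ := cls_surj y
      revert h2
      refine wlog_rel X Y (cd_lt (oc l κ)) _ _ _ U h1 ?_
      intro U ξ _ e1 e2 h2
      revert e1 e2
      refine wlog_rel X' Y (cd_lt (oc l κ)) _ _ _ U h2 ?_
      intro U ξ' _ e1' e2' e1 e2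
      obtain rfl : ξ = ξ' := by
        by_contra hne
        refine Ultra.ne_bot (sm_eq.mp (e2.symm.trans e2')) (hA ξ ξ' ((lt_oc hκ).mp ξ.2)
          ((lt_oc hκ).mp ξ'.2) (fun e => hne (Subtype.ext e)) _ le_top fun η hη => ?_)
        refine inf_eq_of_forall fun U hU => ?_
        have h1 := el_valName (U := U) (k := oc l μ) (a := η) (f := A ξ)
        have h2 := el_valName (U := U) (k := oc l μ) (a := η) (f := A ξ')
        rw [and_iff_right ((lt_oc hμ).mpr hη)] at h1 h2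
        rw [← h1, ← h2, sm_eq.mpr hU]
      exact e1.trans e1'.symm
  · rintro x t hx ⟨h, hh1, -, hh2⟩ - ht
    obtain ⟨X, rfl⟩ := cls_surj x
    obtain ⟨T, rfl⟩ := cls_surj t
    obtain ⟨H, rfl⟩ := cls_surj h
    clear hs
    let Φ : Ultra B → Prop := fun U => Sub (El l U) (cls U X) (ck U (oc l μ)) ∧
      (∀ x, El l U x (cls U X) → ∃ y, El l U y (ck U (oc l e)) ∧ Maps (El l U) (cls U H) x y) ∧
      (∀ x x' y, Maps (El l U) (cls U H) x y → Maps (El l U) (cls U H) x' y → x = x') ∧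
      IsTrace (El l U) (cls U T) (sm U (SName.mk _ (cd_lt (oc l κ)) a fun _ => ⊤)) (cls U X)
    have : Dec Φ := by unfold Φ; infer_instance
    refine of_dense (Φ := fun U => Inj (El l U) (cls U T) (ck U (oc l e))) (b := bv Φ) ?_ U
      (bv_mem.mpr ⟨hx, hh1, hh2, ht⟩)
    clear hx hh1 hh2 ht U
    intro b hb hb0
    let v : Iio (oc l e) → OT l → B := fun d η =>
      bv (fun U => El l U (ck U η) (cls U X) ∧ Maps (El l U) (cls U H) (ck U η) (ck U d))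
    obtain ⟨b₁, a1, a2, Y, a3, a4⟩ := hF.cover hc0 (by rw [mk_Iio_oc he]; exact hec) v b hb0
    obtain ⟨b₂, b1, b2, J, t, b3, b4⟩ := hd (Y ∩ {η | cd η < μ})
      ((mk_le_mk_of_subset inter_subset_left).trans_lt a3) (fun η hη => hη.2) b₁ a2
    have hΦ : ∀ U, b₁ ∈ U → Φ U := fun U hU => bv_mem.mp (Ultra.mono hU (a1.trans hb))
    have hY : ∀ η U, b₁ ∈ U → El l U (ck U η) (cls U X) → η ∈ Y := by
      intro η U hU hη
      obtain ⟨y, hy1, hy2⟩ := (hΦ U hU).2.1 _ hη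
      obtain ⟨Y', rfl⟩ := cls_surj y
      revert hU hη hy2
      refine wlog_ck Y' _ U hy1 ?_
      intro U d hd e hU hη hy2
      rw [e] at hy2
      obtain ⟨η', h1, h2⟩ := a4 ⟨d, hd⟩ η
        (Ultra.ne_bot (Ultra.inf_mem.mpr ⟨hU, bv_mem.mpr ⟨hη, hy2⟩⟩))
      obtain ⟨U', hU'⟩ := Ultra.exists_mem h2
      rw [Ultra.inf_mem, Ultra.inf_mem, bv_mem, bv_mem] at hU'
      rwa [ck_inj ((hΦ U' hU'.1.1).2.2.1 _ _ _ hU'.1.2.2 hU'.2.2)]
    refine ⟨b₂, b1.trans a1, b2, fun U hU => ?_⟩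
    let y : J → SName B l := fun j =>
      valName (oc l μ) fun η => HName.mem (HName.emb (chk B η)) X ⊓ t j η
    refine inj_of_cover (b3.trans hcl') (hcl J b3) y T U fun Z hZ => ?_
    obtain ⟨s, hs1, hs2⟩ := ((hΦ U (Ultra.mono hU b1)).2.2.2 _).mp hZ
    obtain ⟨S, rfl⟩ := cls_surj s
    clear hZ
    revert hU hs2
    refine wlog_mk S (cd_lt (oc l κ)) _ _ U hs1 ?_
    intro U ξ _ e
    rw [e]
    clear e
    intro hU
    refine of_dense (Φ := fun U => (∀ z, El l U z (cls U Z) ↔ El l U z (sm U (a ξ)) ∧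
      El l U z (cls U X)) → ⨆ j, HName.eq Z (HName.emb (y j)) ∈ U) (b := b₂) ?_ U hU
    intro d hd hd0
    obtain ⟨d', c1, c2, j, c3⟩ := b4 ξ ((lt_oc hκ).mp ξ.2) d hd hd0
    refine ⟨d', c1, c2, fun U hU hZ => iSup_mem_of_mem j (cls_eq.mp ?_)⟩
    let Ψ : Ultra B → Prop := fun U => d' ∈ U ∧ ∀ z, El l U z (cls U Z) ↔ El l U z (sm U (a ξ)) ∧
      El l U z (cls U X)
    have : Dec Ψ := by unfold Ψ; infer_instance
    refine eq_of_sub_ck Z _ (oc l μ) (bv Ψ) (fun η hη U hU => ?_) U (bv_mem.mpr ⟨hU, hZ⟩)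
      (fun z hz => valName_sub U _ _ z ((hZ z).mp hz).1) (valName_sub U _ _)
    obtain ⟨hU, hZ⟩ := bv_mem.mp hU
    rw [hZ, el_valName, el_valName, Ultra.inf_mem, ← el_cls, and_iff_right hη, and_iff_right hη,
      and_comm]
    refine and_congr_right fun hX => mem_iff_of_inf_eq hU (c3 η ⟨hY η U ?_ hX, (lt_oc hμ).mp hη⟩)
    exact Ultra.mono hU (c1.trans (hd.trans b1))

/-- Boolean algebra form of the failure of `KH(μ, < μ)` -/
def NoFam (B : Type u) [CompleteBooleanAlgebra B] (l θ μ κ : Cardinal.{u}) : Prop :=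
  ∀ (b₀ : B) (A : OT l → OT l → B) (g : Set (OT l) → OT l → OT l → B), Distinct b₀ μ κ A →
    (∀ x : Set (OT l), #x ≤ θ → (∀ η ∈ x, cd η < μ) → ∀ ξ, cd ξ < κ → ∀ d ≤ b₀, d ≠ ⊥ →
      ∃ d' ≤ d, d' ≠ ⊥ ∧ ∃ j, (j ∈ x ∨ cd j < ℵ₀) ∧ ∀ η ∈ x, d' ⊓ A ξ η = d' ⊓ g x j η) → b₀ = ⊥

theorem exists_trace (hT : Tame B l) (U : Ultra B) (F X : HName B l) :
    ∃ t, IsTrace (El l U) t (cls U F) (cls U X) := by
  obtain ⟨p, hp⟩ := md_power hT U (cls U X)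
  obtain ⟨t, ht⟩ := md_sep (fun U s => ∃ a, El l U a (cls U F) ∧
    ∀ z, El l U z s ↔ El l U z a ∧ El l U z (cls U X)) U p
  refine ⟨t, fun s => (ht s).trans ⟨fun h => h.2, fun h => ⟨(hp s).mpr fun w hw => ?_, h⟩⟩⟩
  obtain ⟨a, -, ha⟩ := h
  exact ((ha w).mp hw).2

theorem not_khlt {θ μ κ : Cardinal.{u}} (hT : Tame B l) (hμ : Nice B l μ) (hκ : κ < l) (hθ : θ < μ)
    (hN : NoFam B l θ μ κ) (U : Ultra B)
    (hs : IsSucc (El l U) (ck U (oc l μ)) (ck U (oc l κ))) :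
    ¬ KHlt (El l U) (ck U (oc l μ)) (ck U (oc l μ)) := by
  rintro ⟨k', w, f, h1, h2, h3, ⟨h, h4⟩, h5⟩
  obtain rfl := IsSucc.uniq (md_ext U) hs h1
  obtain rfl := IsOmega.uniq (md_ext U) (isOmega_ck U) h2
  obtain ⟨F, rfl⟩ := cls_surj f
  obtain ⟨H, rfl⟩ := cls_surj h
  obtain ⟨hμ0, hμ, S₀, hF, -⟩ := hμ
  let Φ : Ultra B → Prop := fun U =>
    (∀ a, El l U a (cls U F) → Sub (El l U) a (ck U (oc l μ))) ∧
    (∀ x, El l U x (ck U (oc l κ)) → ∃ y, El l U y (cls U F) ∧ Maps (El l U) (cls U H) x y) ∧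
    (∀ x x' y, Maps (El l U) (cls U H) x y → Maps (El l U) (cls U H) x' y → x = x') ∧
    ∀ x t, Sub (El l U) x (ck U (oc l μ)) → ¬ Inj (El l U) (ck U (oc l μ)) x →
      IsTrace (El l U) t (cls U F) x → Inj (El l U) t x ∨ Inj (El l U) t (ck U (oc l ℵ₀))
  have : Dec Φ := by unfold Φ; infer_instance
  choose a ha using fun ξ : OT l => exists_witness (l := l) (fun U y => El l U y (cls U F) ∧
    Maps (El l U) (cls U H) (ck U ξ) y)
  have ha' : ∀ ξ U, cd ξ < κ → Φ U → El l U (cls U (a ξ)) (cls U F) ∧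
      Maps (El l U) (cls U H) (ck U ξ) (cls U (a ξ)) := fun ξ U hξ hU =>
    ha ξ U (hU.2.1 _ (el_ck_of_lt ((lt_oc hκ).mpr hξ)))
  classical
  let xn : Set (OT l) → SName B l := fun x => if h : #x < l then setName x h else emptyName
  choose t ht using fun x : Set (OT l) => exists_witness (l := l)
    (fun U t => IsTrace (El l U) t (cls U F) (sm U (xn x)))
  have ht' : ∀ x U, IsTrace (El l U) (cls U (t x)) (cls U F) (sm U (xn x)) := fun x U =>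
    ht x U (exists_trace hT U _ _)
  choose r hr using fun x : Set (OT l) => exists_witness (l := l)
    (fun U r => (∀ s, El l U s (cls U (t x)) → ∃ y, (El l U y (sm U (xn x)) ∨
      El l U y (ck U (oc l ℵ₀))) ∧ Maps (El l U) r s y) ∧
      ∀ s s' y, Maps (El l U) r s y → Maps (El l U) r s' y → s = s')
  refine Ultra.ne_bot ((bv_mem (Φ := Φ)).mpr ⟨h3, h4.1, h4.2.2, h5⟩) (hN _
    (fun ξ η => HName.mem (HName.emb (chk B η)) (a ξ))
    (fun x j η => bv fun U => ∃ s, Maps (El l U) (cls U (r x)) s (ck U j) ∧ El l U (ck U η) s)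
    ?_ ?_)
  · intro ξ ξ' hξ hξ' hne b hb h
    refine Ultra.eq_bot_of_forall fun U hU => hne ?_
    have hΦ : Φ U := bv_mem.mp (Ultra.mono hU hb)
    have e : cls U (a ξ) = cls U (a ξ') := eq_of_sub_ck _ _ (oc l μ) b
      (fun η hη U hU => by
        rw [el_cls, el_cls]; exact mem_iff_of_inf_eq hU (h η ((lt_oc hμ).mp hη))) U hU
      (hΦ.1 _ (ha' ξ U hξ hΦ).1) (hΦ.1 _ (ha' ξ' U hξ' hΦ).1)
    exact ck_inj (hΦ.2.2.1 _ _ _ (ha' ξ U hξ hΦ).2 (e ▸ (ha' ξ' U hξ' hΦ).2))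
  · intro x hx hxμ ξ hξ d hd hd0
    have hxl : #x < l := hx.trans_lt (hθ.trans hμ)
    have hxn : xn x = setName x hxl := dif_pos hxl
    have hr' : ∀ U, Φ U → (∀ s, El l U s (cls U (t x)) → ∃ y, (El l U y (sm U (xn x)) ∨
        El l U y (ck U (oc l ℵ₀))) ∧ Maps (El l U) (cls U (r x)) s y) ∧
        ∀ s s' y, Maps (El l U) (cls U (r x)) s y → Maps (El l U) (cls U (r x)) s' y → s = s' := by
      intro U hU
      refine hr x U ?_
      have h1 : Sub (El l U) (sm U (xn x)) (ck U (oc l μ)) := by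
        intro z hz
        obtain ⟨Z, rfl⟩ := cls_surj z
        rw [hxn] at hz
        clear hU
        refine wlog_set Z x hxl U hz ?_
        intro U η hη e
        rw [e]; exact el_ck_of_lt ((lt_oc hμ).mpr (hxμ η hη))
      have h2 : ¬ Inj (El l U) (ck U (oc l μ)) (sm U (xn x)) := by
        rw [hxn]
        exact not_inj_of_noInj _ (hF.noInj hμ0 (cd_oc hμ).ge (hx.trans_lt hθ)) U
      rcases hU.2.2.2 _ _ h1 h2 (ht' x U) with ⟨f, hf1, -, hf2⟩ | ⟨f, hf1, -, hf2⟩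
      · exact ⟨f, fun s hs => (hf1 s hs).imp fun y hy => ⟨Or.inl hy.1, hy.2⟩, hf2⟩
      · exact ⟨f, fun s hs => (hf1 s hs).imp fun y hy => ⟨Or.inr hy.1, hy.2⟩, hf2⟩
    let v : OT l → B := fun j => bv fun U => ∃ s, Maps (El l U) (cls U (r x)) s (ck U j) ∧
      ∀ z, El l U z s ↔ El l U z (cls U (a ξ)) ∧ El l U z (sm U (xn x))
    have hv : bv Φ ≤ ⨆ j : {j // j ∈ x ∨ cd j < ℵ₀}, v j := by
      refine bv_le fun U hU => ?_
      obtain ⟨s, hs⟩ := md_sep (fun U z => El l U z (sm U (xn x))) U (cls U (a ξ))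
      obtain ⟨y, hy1, hy2⟩ := (hr' U hU).1 s ((ht' x U s).mpr ⟨_, (ha' ξ U hξ hU).1, hs⟩)
      obtain ⟨S, rfl⟩ := cls_surj s
      obtain ⟨Y, rfl⟩ := cls_surj y
      clear hU
      rcases hy1 with hy1 | hy1
      · rw [hxn] at hy1
        revert hs hy2
        refine wlog_set Y x hxl U hy1 ?_
        intro U j hj e hs hy2
        exact iSup_mem_of_mem (⟨j, Or.inl hj⟩ : {j // j ∈ x ∨ cd j < ℵ₀})
          (bv_mem.mpr ⟨_, e ▸ hy2, hs⟩)
      · revert hs hy2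
        refine wlog_ck Y _ U hy1 ?_
        intro U j hj e hs hy2
        exact iSup_mem_of_mem (⟨j, Or.inr ((lt_oc aleph0_lt_l).mp hj)⟩ : {j // j ∈ x ∨ cd j < ℵ₀})
          (bv_mem.mpr ⟨_, e ▸ hy2, hs⟩)
    obtain ⟨j, hj⟩ := exists_inf_ne_bot (hd.trans hv) hd0
    refine ⟨_, inf_le_left, hj, j.1, j.2, fun η hη => inf_eq_of_forall fun U hU => ?_⟩
    obtain ⟨hU1, hU2⟩ := Ultra.inf_mem.mp hU
    have hΦ : Φ U := bv_mem.mp (Ultra.mono hU1 hd)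
    obtain ⟨s, hs1, hs2⟩ := bv_mem.mp hU2
    rw [bv_mem, ← el_cls]
    constructor
    · intro h
      exact ⟨s, hs1, (hs2 _).mpr ⟨h, hxn ▸ el_setName_of_mem hxl hη⟩⟩
    · rintro ⟨s', hs1', hs2'⟩
      rw [(hr' U hΦ).2 _ _ _ hs1' hs1] at hs2'
      exact ((hs2 _).mp hs2').1

theorem main_model (n : ℕ) (al : ℕ → Cardinal.{u}) (hC : CardStr B l) (h0 : al 0 = ℵ₀)
    (h : ∀ i < n + 1, Nice B l (al (i + 1)) ∧ Cl B l (al (i + 1)) (al i) ∧ al i < al (i + 1))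
    (hK : ∀ i < n, KHData B l (al n) (al (n + 1)) (al (i + 1))) {θ : Cardinal.{u}}
    (hμ : Nice B l (al n)) (hθ : θ < al n) (hN : NoFam B l θ (al n) (al (n + 1))) (U : Ultra B) :
    ModelZFC (El l U) ∧ GCH (El l U) ∧ ∃ a : ℕ → Md l U, (∀ i ≤ n, IsAleph (El l U) i (a i)) ∧
      (∀ i < n, KH (El l U) (a n) (a i)) ∧ ¬ KHlt (El l U) (a n) (a n) := by
  obtain ⟨h1, h2, h3⟩ := h n (by omega)
  have hs : IsSucc (El l U) (ck U (oc l (al n))) (ck U (oc l (al (n + 1)))) :=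
    isSucc_ck h1 h2 (cd_oc hμ.2.1).ge ((cd_oc hμ.2.1).le.trans_lt h3) U
  refine ⟨md_modelZFC hC.tame U, hC.gch U, fun i => ck U (oc l (al i)), fun i hi =>
    isAleph_ck al (n + 1) h0 h U i (by omega), fun i hi => ?_,
    not_khlt hC.tame hμ h1.2.1 hθ hN U hs⟩
  obtain ⟨g1, g2, g3⟩ := h i (by omega)
  exact kh_of_data hμ.2.1 h1.2.1 g1 g2 g3 (hK i hi) U hs

end Pool.Agent.Lib.MP_4847d9_lc
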