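import Pool.Agent.Lib.MP_4847d9_lc.Poset
import Pool.Agent.Lib.MP_4847d9_lc.Model

-- part Pool.Agent.Lib.MP_4847d9_lc.Closure
section

/-! Closure, chain conditions and sizes. -/

namespace Pool.Agent.Lib.MP_4847d9_lc

open Pool.Agent.Shared.Forcing Cardinal Set Cond

universe u

variable {l : Cardinal.{u}} [hl : Fact l.IsInaccessible] {π : Par l}

theorem card_range_Z0 : #(range (restr (Z0 π) : Cond π.Al → Cond π.Al)) ≤ π.θ :=
  (card_range_restr Par.Al.reg le_rfl π.θ0 π.θl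
    (fun _ ha h => Or.inl (h.of_le_θ ha).1.le)
    (fun _ ha h => ((lt_oc π.θl).mpr (h.of_le_θ ha).2).le)).trans (inacc_pow π.hθ π.θ0)

theorem restr_le_P0 (g : P0 π) : (show P0 π from restr (Z0 π) g) ≤ g := fun _ h => h

theorem le_restr_P0 (g : P0 π) : g ≤ (show P0 π from restr (Z0 π) g) := fun _ h => h.1.1

theorem bcc_B1 : BCC (B1 π) π.θ := by
  intro E f h1 h2
  choose g hg using fun e => RO.ne_bot_iff.mp (h1 e)
  refine le_trans (mk_le_of_injective (f := fun e =>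
    (⟨restr (Z0 π) (g e), _, rfl⟩ : range (restr (Z0 π) : Cond π.Al → Cond π.Al))) ?_) card_range_Z0
  intro e e' h
  by_contra hne
  have h : restr (Z0 π) (g e) = restr (Z0 π) (g e') := congrArg Subtype.val h
  refine RO.eq_bot_iff'.mp (h2 e e' hne) _ (RO.mem_inf.mpr
    ⟨RO.mono (hg e) (restr_le_P0 _), ?_⟩)
  rw [h]
  exact RO.mono (hg e') (restr_le_P0 _)

theorem card_B1 : #(B1 π) ≤ 2 ^ π.θ := by
  refine le_trans (mk_le_of_injective (f := fun a : B1 π =>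
    {g : range (restr (Z0 π) : Cond π.Al → Cond π.Al) | (show P0 π from g.1) ∈ a}) ?_) ?_
  · intro a b h
    refine RO.ext' fun g => ?_
    have := Set.ext_iff.mp h ⟨_, g, rfl⟩
    exact ⟨fun e => RO.mono (this.mp (RO.mono e (restr_le_P0 g))) (le_restr_P0 g),
      fun e => RO.mono (this.mpr (RO.mono e (restr_le_P0 g))) (le_restr_P0 g)⟩
  · rw [mk_set]
    exact power_le_power_left two_ne_zero card_range_Z0

theorem two_pow_B1_lt : 2 ^ (#(B1 π) ^ π.μ) < π.κ :=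
  π.hκ.isStrongPrelimit (pow_lt_of_strong π.hκ.isStrongLimit
    (card_B1.trans_lt (π.hκ.isStrongPrelimit π.θκ)) π.μκ)

theorem card_Q : #(Q (B1 π) π.qp) ≤ π.κ := by
  have h := Q.card_le (B := B1 π) (π := π.qp) (ρ := π.ρ π.m) (τ := π.κ) rfl π.μκ.le
    two_pow_B1_lt.le (X := Iio (oc l π.κ)) (mk_Iio_oc π.κl).le
  have e : {t : Q (B1 π) π.qp | t.D ⊆ Iio (oc l π.κ)} = Set.univ :=
    eq_univ_of_forall fun t ν hν => (lt_oc π.κl).mpr (t.hDκ ν hν)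
  rw [e, mk_univ] at h
  exact h.trans (inacc_pow π.hκ (π.ρκ _))

namespace PP

theorem sys_lim {d : Cardinal.{u}} (hd : d ≤ π.μ) {A : Set (OT l × OT l)} {X : Set (OT l)}
    {Z : Type u} [LinearOrder Z] [Nonempty Z] (hZ : #Z < d) {I : Type u} [Nonempty I]
    (hI : #I ≤ π.θ ∨ X = Set.univ) (f : I → Z → PP π) (h1 : ∀ i j ζ, Com A X (f i ζ) (f j ζ))
    (h2 : ∀ i ζ ζ', ζ < ζ' → UpS d (f i ζ') (f i ζ)) :
    ∃ s : I → PP π, (∀ i j, Com A X (s i) (s j)) ∧ ∀ i ζ, UpS d (s i) (f i ζ) := by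
  choose g hg using fun i => Cond.exists_lim (A := (Zl l d)ᶜ)
    (fun a ha => hZ.trans_le (not_lt.mp ha)) (fun ζ => (f i ζ).g) fun ζ ζ' h => (h2 i ζ ζ' h).1
  obtain ⟨t, ht1, ht2, ht3⟩ : ∃ t : I → Q (B1 π) π.qp, (∀ i j, Q.res X (t i) = Q.res X (t j)) ∧
      (∀ i j, (t i).D = (t j).D) ∧ ∀ i ζ, Q.Le ⊤ (t i) (f i ζ).t := by
    rcases hI with hI | rfl
    · obtain ⟨t, a1, a2, a3, a4⟩ := Q.exists_lim bcc_B1 (hZ.trans_le hd) hI (fun i ζ => (f i ζ).t)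
        (fun i j ζ => (congrArg Q.tr (h1 i j ζ).t :)) fun i ζ ζ' h => (h2 i ζ ζ' h).2
      have e : ∀ i j, (t i).D = (t j).D := fun i j => by
        rw [a3, a3]; exact iUnion_congr fun ζ => (h1 i j ζ).2
      refine ⟨t, fun i j => Q.res_ext (a1 i j) (by rw [e i j]) fun ν hν => funext fun η => ?_, e, a2⟩
      rw [a4, a4]
      exact iSup_congr fun ζ => by rw [Q.q_eq_of_res (h1 i j ζ).t hν]
    · obtain ⟨i₀⟩ := ‹Nonempty I›
      obtain ⟨t, -, a2, -⟩ := Q.exists_lim bcc_B1 (hZ.trans_le hd) (I := PUnit.{u + 1})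
        (by rw [mk_punit]; exact one_le_aleph0.trans π.θ0.le) (fun _ ζ => (f i₀ ζ).t)
        (fun _ _ _ => rfl) fun _ ζ ζ' h => (h2 i₀ ζ ζ' h).2
      refine ⟨fun _ => t ⟨⟩, fun _ _ => rfl, fun _ _ => rfl, fun i ζ => ?_⟩
      have := (h1 i i₀ ζ).t
      rw [Q.res_univ, Q.res_univ] at this
      exact this ▸ a2 _ ζ
  have key : ∀ i j e, e ∈ (restr A (g i)).s → e ∈ (restr A (g j)).s := by
    intro i j e he
    obtain ⟨a1, ζ, a2⟩ := (hg i e).mp he.1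
    have : e ∈ (restr A (f j ζ).g).s := (h1 i j ζ).g ▸ ⟨a2, he.2⟩
    exact ⟨(hg j e).mpr ⟨a1, ζ, this.1⟩, he.2⟩
  exact ⟨fun i => ⟨g i, t i⟩, fun i j => Com.mk' (Cond.ext' (Set.ext fun e => ⟨key i j e, key j i e⟩))
    (ht1 i j) (ht2 i j), fun i ζ => ⟨fun e he => (hg i e).mpr ⟨he.2, ζ, he.1⟩, ht3 i ζ⟩⟩

theorem closed_upS {d : Cardinal.{u}} (hd : d ≤ π.μ) : Closed d (UpS (π := π) d) := by
  intro Z _ _ hZ f hf
  obtain ⟨s, -, hs⟩ := sys_lim hd (A := univ) (X := univ) hZ (I := PUnit.{u + 1}) (Or.inr rfl)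
    (fun _ => f) (fun _ _ _ => Com.refl _) fun _ => hf
  exact ⟨s ⟨⟩, hs ⟨⟩⟩

theorem closed_upB (d : Cardinal.{u}) (hd : π.θ < d) : Closed d (cutB π d hd).Up := by
  intro Z _ _ hZ f hf
  obtain ⟨g, hg⟩ := Cond.exists_lim (A := (Zl l d)ᶜ)
    (fun a ha => hZ.trans_le (not_lt.mp ha)) (fun ζ => (f ζ).g) hf
  exact ⟨⟨g, Q.top _ _⟩, fun ζ e he => (hg e).mpr ⟨he.2, ζ, he.1⟩⟩

end PP

/-- coordinates of the zones below `d`, restricted to `X` in the zone `z` -/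
def AZ (d : Cardinal.{u}) (z : OT l) (X : Set (OT l)) : Set (OT l × OT l) :=
  {a | cd a.1 < d ∧ (a.1 = z → a.2 ∈ X)}

def zsupp (z : OT l) (g : Cond π.Al) : Set (OT l) := {γ | ∃ e ∈ g.s, e.1.1 = (z, γ)}

theorem card_zsupp {z : OT l} (hz : (cd z).IsRegular) (g : Cond π.Al) : #(zsupp z g) < cd z := by
  refine lt_of_le_of_lt ?_ (mk_image_le.trans_lt (g.sm z hz) :
    #((fun e : Ent l => e.1.1.2) '' {e ∈ g.s | e.1.1.1 = z}) < _)
  refine mk_le_mk_of_subset ?_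
  rintro γ ⟨e, h1, h2⟩
  exact ⟨e, ⟨h1, congrArg Prod.fst h2⟩, congrArg Prod.snd h2⟩

theorem mem_AZ {d : Cardinal.{u}} {z : OT l} {X : Set (OT l)} {g : Cond π.Al} (h : zsupp z g ⊆ X)
    {e : Ent l} (he : e ∈ (restr (Zl l d) g).s) : e ∈ (restr (AZ d z X) g).s :=
  ⟨he.1, he.2, fun e' => h ⟨e, he.1, Prod.ext e' rfl⟩⟩

theorem restr_AZ_congr {d : Cardinal.{u}} {z : OT l} {X Y : Set (OT l)} {g : Cond π.Al}
    (h : zsupp z g ∩ X = zsupp z g ∩ Y) : restr (AZ d z X) g = restr (AZ d z Y) g := by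
  have key : ∀ {X Y : Set (OT l)}, zsupp z g ∩ X = zsupp z g ∩ Y →
      (restr (AZ d z X) g).s ⊆ (restr (AZ d z Y) g).s := fun h e he =>
    ⟨he.1, he.2.1, fun e' => (h.subset ⟨⟨e, he.1, Prod.ext e' rfl⟩, he.2.2 e'⟩).2⟩
  exact Cond.ext' (Subset.antisymm (key h) (key h.symm))

theorem cc_θ : CC π.θ (PP.LowS (π := π) (Order.succ π.θ)) := by
  refine cc_of_res PP.LowS.refl (fun _ _ _ => PP.LowS.trans) π.hθ.isRegular π.θl.le isRegular_aleph0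
    π.θ0 (fun p => zsupp (oc l ℵ₀) p.g)
    (fun X p => ⟨restr (AZ (Order.succ π.θ) (oc l ℵ₀) X) p.g, Q.top _ _⟩) (fun p => ?_) ?_
    (fun _ _ _ h => h.1.1) (fun _ _ h _ he => mem_AZ h he) (fun _ _ _ h _ he => ⟨h ⟨he.1.1, he.2⟩, he.1.2⟩)
    ?_ (fun X Y p h => by simp only [restr_AZ_congr h]) ?_
    (fun X p => by simp only [restr_restr subset_rfl])
  · have := card_zsupp (z := oc l ℵ₀) (by rw [cd_oc aleph0_lt_l]; exact isRegular_aleph0) p.g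
    rwa [cd_oc aleph0_lt_l] at this
  · rintro p γ ⟨e, h1, h2⟩
    have := (p.g.ok e h1).1
    rw [h2] at this
    exact (this.of_le_θ (by
      rw [cd_oc aleph0_lt_l]; exact π.θ0.trans (Order.lt_succ _))).2
  · intro X s p h
    refine ⟨⟨glue (AZ (Order.succ π.θ) (oc l ℵ₀) X) s.g p.g, Q.top _ _⟩, fun _ he => Or.inl he.1,
      fun e he => ?_⟩
    by_cases h' : e.1.1 ∈ AZ (Order.succ π.θ) (oc l ℵ₀) X
    · exact Or.inl (h ⟨⟨he.1, h'⟩, he.2⟩)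
    · exact Or.inr ⟨he.1, h'⟩
  · intro α hα
    have h1 : Order.succ (max (cd α) ℵ₀) < π.θ :=
      succ_lt_of_strong π.hθ.isStrongLimit (max_lt hα π.θ0)
    have h2 := card_range_restr (Al := π.Al) Par.Al.reg le_rfl
      ((le_max_right (cd α) ℵ₀).trans_lt (Order.lt_succ _)) (h1.trans π.θl)
      (A := AZ (Order.succ π.θ) (oc l ℵ₀) (Iio α))
      (fun _ ha h => Or.inl (h.of_le_θ ha.1).1.le)
      (fun _ ha h => ((lt_oc (h1.trans π.θl)).mpr ((cd_mono (ha.2 (h.of_le_θ ha.1).1).le).trans_lt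
        ((le_max_left _ _).trans_lt (Order.lt_succ _)))).le)
    refine lt_of_le_of_lt (le_trans ?_ h2) (pow_lt_of_strong π.hθ.isStrongLimit h1 π.θ0)
    refine mk_le_of_surjective (f := fun g => ⟨⟨g.1, Q.top _ _⟩, ?_⟩) ?_
    · obtain ⟨_, g, rfl⟩ := g
      exact ⟨⟨g, Q.top _ _⟩, rfl⟩
    · rintro ⟨_, p, rfl⟩
      exact ⟨⟨_, p.g, rfl⟩, rfl⟩

variable (π) in
/-- the coordinates of the part below `X` -/
abbrev Aκ (X : Set (OT l)) : Set (OT l × OT l) := AZ (Order.succ π.κ) (oc l π.μ) X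

theorem Z0_subset_Aκ (X : Set (OT l)) : Z0 π ⊆ Aκ π X := fun a ha =>
  ⟨lt_trans ha (Order.succ_lt_succ π.θκ), fun e => absurd (lt_of_lt_of_le ha π.succθ_le) (by
    rw [e, cd_oc π.μl]; exact lt_irrefl _)⟩

theorem card_range_res {α : OT l} (hα : cd α < π.κ) :
    #(range (PP.res (π := π) (Aκ π (Iio α)) (Iio α))) < π.κ := by
  have hs := π.hκ.isStrongLimit
  obtain ⟨τ, h1, h2, h3, h4, h5⟩ : ∃ τ < π.κ, cd α < τ ∧ 2 ^ π.ρ π.m < τ ∧ π.μ ≤ τ ∧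
      2 ^ (#(B1 π) ^ π.μ) ≤ τ := by
    refine ⟨Order.succ (max (max (cd α) (2 ^ π.ρ π.m)) (max π.μ (2 ^ (#(B1 π) ^ π.μ)))),
      succ_lt_of_strong hs (max_lt (max_lt hα (π.ρκ (π.m + 1))) (max_lt π.μκ two_pow_B1_lt)),
      ?_, ?_, ?_, ?_⟩
    · exact Order.lt_succ_of_le ((le_max_left _ _).trans (le_max_left _ _))
    · exact Order.lt_succ_of_le ((le_max_right _ _).trans (le_max_left _ _))
    · exact ((le_max_left _ _).trans (le_max_right _ _)).trans (Order.le_succ _)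
    · exact ((le_max_right _ _).trans (le_max_right _ _)).trans (Order.le_succ _)
  have hτl := h1.trans π.κl
  have a1 := card_range_restr (Al := π.Al) Par.Al.reg (π.ρ0 π.m) ((cantor _).trans h3) hτl
    (A := Aκ π (Iio α))
    (fun _ ha h => h.zone ((π.ρκ _).trans π.κl) (h.of_le_κ ha.1).1)
    (fun a ha h => ((lt_oc hτl).mpr (by
      by_cases e : a.1 = oc l π.μ
      · exact (cd_mono (ha.2 e).le).trans_lt h2
      · exact ((h.of_le_κ ha.1).2.2 e).trans_lt h3)).le)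
  have a2 := Q.card_le (B := B1 π) (π := π.qp) (ρ := π.ρ π.m) (τ := τ) rfl h4 h5 (X := Iio α) h2.le
  have a3 : τ ^ π.ρ π.m < π.κ := pow_lt_of_strong hs h1 (π.ρκ _)
  refine lt_of_le_of_lt (mk_le_of_injective
    (f := fun p : range (PP.res (π := π) (Aκ π (Iio α)) (Iio α)) => ((⟨p.1.g, ?_⟩, ⟨p.1.t, ?_⟩) :
      range (restr (Aκ π (Iio α)) : Cond π.Al → Cond π.Al) × {t : Q (B1 π) π.qp | t.D ⊆ Iio α}))
    ?_) ?_
  · obtain ⟨_, p, rfl⟩ := p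
    exact ⟨p.g, rfl⟩
  · obtain ⟨_, p, rfl⟩ := p
    exact inter_subset_right
  · rintro ⟨⟨g, t⟩, _⟩ ⟨⟨g', t'⟩, _⟩ e
    simp only [Prod.mk.injEq, Subtype.mk.injEq] at e
    obtain ⟨rfl, rfl⟩ := e
    rfl
  · rw [mk_prod, lift_id, lift_id]
    exact mul_lt_of_lt hs.aleph0_le (a1.trans_lt a3) (a2.trans_lt a3)

/-- the support below `κ` -/
def PP.supp (p : PP π) : Set (OT l) := zsupp (oc l π.μ) p.g ∪ p.t.D

theorem PP.card_supp (p : PP π) : #p.supp < π.μ := by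
  have := card_zsupp (z := oc l π.μ) (by rw [cd_oc π.μl]; exact π.μreg) p.g
  rw [cd_oc π.μl] at this
  exact (mk_union_le _ _).trans_lt (add_lt_of_lt π.μreg.aleph0_le this p.t.hD)

theorem PP.supp_lt (p : PP π) : ∀ γ ∈ p.supp, cd γ < π.κ := by
  rintro γ (⟨e, h1, h2⟩ | h)
  · have := (p.g.ok e h1).1
    rw [h2] at this
    exact (this.of_le_κ (by rw [cd_oc π.μl]; exact π.μκ.trans (Order.lt_succ _))).2.1
  · exact p.t.hDκ γ h

theorem PP.res_lowB {X : Set (OT l)} {p : PP π} (h : p.supp ⊆ X) :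
    PP.LowB (Order.succ π.κ) (PP.res (Aκ π X) X p) p :=
  ⟨fun _ he => mem_AZ (subset_union_left.trans h) he, Q.res_le _ (subset_union_right.trans h)⟩

theorem cc_κ : CC π.κ (PP.LowB (π := π) (Order.succ π.κ)) := by
  have hd : π.θ < Order.succ π.κ := π.θκ.trans (Order.lt_succ _)
  refine cc_of_res PP.LowB.refl (fun _ _ _ => PP.LowB.trans hd) π.hκ.isRegular π.κl.le π.μreg
    π.μκ PP.supp (fun X => PP.res (Aκ π X) X) PP.card_supp PP.supp_lt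
    (fun _ p => PP.lowB_of_le p.le_res) (fun _ _ => PP.res_lowB) ?_ ?_ ?_
    (fun _ => card_range_res) (fun X p => PP.res_res subset_rfl subset_rfl p)
  · intro X s p h
    refine ⟨fun _ he => ⟨h.1 ⟨he.1.1, he.2⟩, he.1.2⟩, ?_⟩
    show Q.Le (pi (restr _ s.g)) _ _
    rw [pi_restr (Z0_subset_Aκ X)]
    exact h.2.res X
  · intro X s p h
    obtain ⟨r', a1, p', a2, a3⟩ := PP.exists_amal (Z0_subset_Aκ X)
      (r := PP.res (Aκ π X) X s) (p := p) ⟨fun _ he => h.1 ⟨he, he.2.1⟩, h.2⟩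
    exact ⟨p', PP.lowB_of_le (a3.symm.le (Z0_subset_Aκ X) a1), PP.lowB_of_le a2⟩
  · intro X Y p h
    have key : ∀ S ⊆ p.supp, S ∩ X = S ∩ Y := fun S hS => by
      rw [← inter_eq_left.mpr hS, inter_assoc, h, inter_assoc]
    simp only [PP.res, restr_AZ_congr (key _ subset_union_left),
      Q.res_congr (key _ subset_union_right)]

end Pool.Agent.Lib.MP_4847d9_lc
end

-- part Pool.Agent.Lib.MP_4847d9_lc.CardStr
section

/-! The cardinal structure of the extension. -/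

namespace Pool.Agent.Lib.MP_4847d9_lc

open Pool.Agent.Shared.Forcing Cardinal Set Cond

universe u

variable {l : Cardinal.{u}} [hl : Fact l.IsInaccessible] {π : Par l}

variable (π) in
abbrev BB : Type u := RO (PP π)

/-- the Boolean value of an entry of the generic collapsing maps -/
def ent (e : Ent l) : BB π := RO.hull {p | e ∈ p.g.s}

theorem mem_ent {e : Ent l} {p : PP π} (h : e ∈ p.g.s) : p ∈ ent (π := π) e :=
  RO.mem_hull_of_mem h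

theorem exists_of_mem_ent {e : Ent l} {p : PP π} (h : p ∈ ent (π := π) e) :
    ∃ r ≤ p, e ∈ r.g.s := by
  obtain ⟨r, h1, t, h2, h3⟩ := h p le_rfl
  exact ⟨r, h1, h3.1 h2⟩

theorem mem_ent_compl {k : (OT l × OT l) × OT l} {v v' : OT l} {p : PP π} (h : (k, v) ∈ p.g.s)
    (hv : v ≠ v') : p ∈ (ent (π := π) (k, v'))ᶜ := fun q hq hq' => by
  obtain ⟨r, h1, h2⟩ := exists_of_mem_ent hq'
  exact hv (r.g.fn k v v' ((h1.trans hq).1 h) h2)

theorem coll_al {z γ : OT l} (h : π.Al (z, γ)) : Coll (BB π) (Iic γ) z := by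
  refine ⟨fun j d => ent (((z, γ), d), j.1), fun j j' d hne => RO.eq_bot_iff'.mpr fun p hp => ?_,
    fun j => top_le_iff.mp fun p _ => RO.mem_iSup.mpr fun q _ => ?_⟩
  · rw [RO.mem_inf] at hp
    obtain ⟨r, h1, h2⟩ := exists_of_mem_ent hp.1
    exact mem_ent_compl h2 (fun e => hne (Subtype.ext e)) r le_rfl (RO.mono hp.2 h1)
  · obtain ⟨ξ, h1, h2⟩ := q.g.exists_free (a := (z, γ)) (h.reg _)
    obtain ⟨g, hg⟩ := q.g.exists_add (((z, γ), ξ), j.1) ⟨h, h1, j.2⟩ h2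
    exact ⟨_, q.le_of_g (g := g) (hg ▸ subset_insert _ _), ⟨ξ, h1⟩,
      mem_ent (show _ ∈ g.s from hg ▸ mem_insert _ _)⟩

theorem coll_of_al {z γ : OT l} (h : π.Al (z, γ)) {J : Type u} (hJ : #J ≤ cd γ) :
    Coll (BB π) J z :=
  (coll_al h).of_le (hJ.trans (mk_le_mk_of_subset Iio_subset_Iic_self))

theorem card_lowS (d : Cardinal.{u}) : #(range fun p => RO.io ((PP.cutS π d).low p)) ≤
    #(range (restr (Zl l d) : Cond π.Al → Cond π.Al)) := by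
  refine mk_le_of_surjective (f := fun g => ⟨RO.io ⟨g.1, Q.top _ _⟩, ?_⟩) ?_
  · obtain ⟨_, g, rfl⟩ := g
    exact ⟨⟨g, Q.top _ _⟩, rfl⟩
  · rintro ⟨_, p, rfl⟩
    exact ⟨⟨_, p.g, rfl⟩, rfl⟩

theorem card_lowS' (d : Cardinal.{u}) : #(range (PP.cutS π d).low) ≤
    #(range (restr (Zl l d) : Cond π.Al → Cond π.Al)) := by
  refine mk_le_of_surjective (f := fun g => ⟨⟨g.1, Q.top _ _⟩, ?_⟩) ?_
  · obtain ⟨_, g, rfl⟩ := g
    exact ⟨⟨g, Q.top _ _⟩, rfl⟩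
  · rintro ⟨_, p, rfl⟩
    exact ⟨⟨_, p.g, rfl⟩, rfl⟩

theorem card_lowB' (d : Cardinal.{u}) (hd : π.θ < d) : #(range (PP.cutB π d hd).low) ≤
    #(range (restr (Zl l d) : Cond π.Al → Cond π.Al)) * π.κ := by
  refine le_trans (mk_le_of_surjective (f := fun g : range (restr (Zl l d) : Cond π.Al → Cond π.Al)
    × Q (B1 π) π.qp => ⟨⟨g.1.1, Q.res Set.univ g.2⟩, ?_⟩) ?_) ?_
  · obtain ⟨⟨_, g, rfl⟩, t⟩ := g
    exact ⟨⟨g, t⟩, rfl⟩
  · rintro ⟨_, p, rfl⟩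
    exact ⟨(⟨_, p.g, rfl⟩, p.t), rfl⟩
  · rw [mk_prod, lift_id, lift_id]
    exact mul_le_mul_right card_Q _

theorem card_range_io {P : Type u} [Preorder P] (f : P → P) :
    #(range fun p => RO.io (f p)) ≤ #(range f) := by
  rw [show (fun p => RO.io (f p)) = RO.io ∘ f from rfl, range_comp]
  exact mk_image_le

variable (π) in
def Good (ρ : Cardinal.{u}) : Prop := ∃ S₀ : Set (BB π), #S₀ ≤ ρ ∧ Fac (Order.succ ρ) S₀

theorem good_S {ρ : Cardinal.{u}} (h0 : ℵ₀ ≤ ρ) (h1 : ρ ≤ π.ρ π.m)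
    (h2 : #(range (restr (Zl l (Order.succ ρ)) : Cond π.Al → Cond π.Al)) ≤ ρ) : Good π ρ :=
  ⟨_, (card_lowS _).trans h2, (PP.cutS π (Order.succ ρ)).fac (isRegular_succ h0)
    (PP.closed_upS (Order.succ_le_succ h1)) (cc_of_card (PP.cutS π (Order.succ ρ)).low
      (fun _ _ h => h) (Order.lt_succ_of_le ((card_lowS' _).trans h2)))⟩

theorem card_lowB {ρ : Cardinal.{u}} (h1 : π.κ ≤ ρ) (hd : π.θ < Order.succ ρ)
    (h2 : #(range (restr (Zl l (Order.succ ρ)) : Cond π.Al → Cond π.Al)) ≤ ρ) :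
    #(range (PP.cutB π _ hd).low) ≤ ρ :=
  (card_lowB' _ hd).trans ((mul_le_mul' h2 h1).trans
    (mul_eq_self (π.hκ.aleph0_lt.le.trans h1)).le)

theorem good_B {ρ : Cardinal.{u}} (h1 : π.κ ≤ ρ)
    (h2 : #(range (restr (Zl l (Order.succ ρ)) : Cond π.Al → Cond π.Al)) ≤ ρ) : Good π ρ := by
  have hd : π.θ < Order.succ ρ := π.θκ.trans_le (h1.trans (Order.le_succ _))
  exact ⟨_, (card_range_io _).trans (card_lowB h1 hd h2), (PP.cutB π _ hd).fac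
    (isRegular_succ (π.hκ.aleph0_lt.le.trans h1)) (PP.closed_upB _ hd)
    (cc_of_card (PP.cutB π _ hd).low (fun _ => ⟨fun _ h => h, Q.res_le _ (subset_univ _)⟩)
      (Order.lt_succ_of_le (card_lowB h1 hd h2)))⟩

theorem card_range_κ :
    #(range (restr (Zl l (Order.succ π.κ)) : Cond π.Al → Cond π.Al)) ≤ π.κ :=
  (card_range_restr Par.Al.reg (π.ρ0 π.m) (π.ρκ _) π.κl
    (fun _ ha h => h.zone ((π.ρκ _).trans π.κl) (h.of_le_κ ha).1)
    (fun _ ha h => ((lt_oc π.κl).mpr (h.of_le_κ ha).2.1).le)).trans (inacc_pow π.hκ (π.ρκ _))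

theorem good_pow {ρ : Cardinal.{u}} (h1 : π.R ρ) (h2 : π.R (2 ^ ρ)) : Good π (2 ^ ρ) := by
  have h0 : ℵ₀ ≤ ρ := π.θ0.le.trans h1.2.2.1
  have h3 : #(range (restr (Zl l (Order.succ (2 ^ ρ))) : Cond π.Al → Cond π.Al)) ≤ 2 ^ ρ := by
    refine (card_range_restr Par.Al.reg h0 (cantor ρ) h2.2.1
      (fun _ ha h => h.zone h1.2.1 (h.of_le_pow h1 h2 ha).1)
      (fun _ ha h => (h.of_le_pow h1 h2 ha).2)).trans ?_
    rw [← power_mul, mul_eq_self h0]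
  rcases h2.2.2.2 with h | h
  · exact good_S (h0.trans (cantor ρ).le) h h3
  · exact good_B h h3

theorem exists_good {δ x : Cardinal.{u}} (hδ : IsStrongLimit δ) (h1 : π.κ < δ) (h2 : δ < l)
    (hx : x < δ) : ∃ ρ, x < ρ ∧ ρ < δ ∧ Good π ρ := by
  obtain ⟨ρ, a1, a2, a3⟩ := exists_bt (π.hκ.aleph0_lt.le.trans (le_max_right x π.κ))
  have a4 : π.κ ≤ ρ := (inacc_bt π.hκ).le_of_lt a1 ((le_max_right _ _).trans_lt a3)
  have a5 : ρ < δ := a2.trans_lt (max_lt hx h1)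
  have a6 := hδ.isStrongPrelimit a5
  exact ⟨_, (le_max_left _ _).trans_lt a3, a6, good_pow
    ⟨a1, a5.trans h2, π.θκ.le.trans a4, Or.inr a4⟩
    ⟨a1.two_pow, a6.trans h2, π.θκ.le.trans (a4.trans (cantor _).le),
      Or.inr (a4.trans (cantor _).le)⟩⟩

theorem good_sing {δ : Cardinal.{u}} (hδ : IsStrongLimit δ) (h1 : π.κ < δ) (h2 : δ < l) :
    Good π δ := by
  have h0 := hδ.aleph0_le
  have hs : δ.ord.cof < δ := lt_of_not_ge fun e =>
    π.noin δ h1 h2 ⟨π.hκ.aleph0_lt.trans h1, e, hδ.isStrongPrelimit⟩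
  obtain ⟨s, hs1, hs2⟩ := Order.exists_cof_eq (OT δ)
  rw [Ordinal.cof_toType] at hs2
  obtain ⟨ρ₀, a1, a2, S₀, a3, a4⟩ := exists_good hδ h1 h2 hs
  choose ρ b1 b2 S b3 b4 using fun a : s => exists_good hδ h1 h2 (x := cd a.1 + 1)
    (add_lt_of_lt h0 (cd_lt _) (one_lt_aleph0.trans_le h0))
  have hS : #(S₀ ∪ ⋃ a, S a : Set (BB π)) ≤ δ := by
    refine (mk_union_le _ _).trans ((add_le_add (a3.trans a2.le) ((mk_iUnion_le _).trans
      ((mul_le_mul' (hs2.le.trans hs.le) (ciSup_le' fun a => (b3 a).trans (b2 a).le)).trans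
      (mul_eq_self h0).le))).trans (add_eq_self h0).le)
  refine ⟨_, mk_image2_le.trans ((mul_le_mul' hS hS).trans (mul_eq_self h0).le),
    Fac.singular h0 (τ := s) (hs2.le.trans_lt (a1.trans (Order.lt_succ _)))
      (Order.succ_le_of_lt a2) (a4.mono subset_union_left) (fun a => Order.succ (ρ a))
      (fun a => Order.succ_le_of_lt (b2 a))
      (fun a => (b4 a).mono ((subset_iUnion S a).trans subset_union_right)) fun ι hι => ?_⟩
  obtain ⟨e⟩ : Nonempty (ι ↪ OT δ) := by rw [← le_def]; simpa using hι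
  choose f hf1 hf2 using fun k => hs1 (e k)
  refine ⟨fun k => ⟨f k, hf1 k⟩, fun a => lt_of_le_of_lt ?_ ((b1 a).trans (Order.lt_succ _))⟩
  rw [← mk_Iic]
  refine mk_le_of_injective (f := fun k => ⟨e k.1, ?_⟩) fun k k' h =>
    Subtype.ext (e.injective (congrArg Subtype.val h))
  have : f k.1 = a.1 := congrArg Subtype.val k.2
  exact this ▸ hf2 k.1

theorem good_of_R {ρ : Cardinal.{u}} (h : π.R ρ) : Good π ρ := by
  rcases h.1.cases with hs | ⟨ρ', h1, rfl⟩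
  · rcases h.2.2.2 with h' | h'
    · obtain rfl : ρ = π.θ := le_antisymm (π.le_θ_of_strong hs _ h') h.2.2.1
      exact good_S π.θ0.le h' card_range_Z0
    · rcases h'.lt_or_eq with h' | rfl
      · exact good_sing hs h' h.2.1
      · exact good_B le_rfl card_range_κ
  · refine good_pow ⟨h1, (cantor _).trans h.2.1,
      le_of_not_gt fun e => (π.hθ.isStrongPrelimit e).not_ge h.2.2.1,
      h.2.2.2.imp (cantor _).le.trans fun h' =>
        le_of_not_gt fun e => (π.hκ.isStrongPrelimit e).not_ge h'⟩ h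

theorem nice_succ {ρ : Cardinal.{u}} (h : π.R ρ) : Nice (BB π) l (Order.succ ρ) := by
  obtain ⟨S₀, h1, h2⟩ := good_of_R h
  have h0 : ℵ₀ ≤ ρ := π.θ0.le.trans h.2.2.1
  refine ⟨h0.trans (Order.le_succ _), Par.succ_lt_l h.2.1, S₀, h2, h1.trans_lt h.2.1,
    fun ι hι => coll_of_al (γ := oc l (2 ^ ρ)) (Or.inr (Or.inr ⟨ρ, h, rfl, rfl⟩)) ?_⟩
  rw [cd_oc (Par.two_pow_lt_l h.2.1)]
  refine (mk_subtype_le _).trans ?_
  rw [mk_set, mk_prod, lift_id, lift_id]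
  exact power_le_power_left two_ne_zero
    ((mul_le_mul' (Order.lt_succ_iff.mp hι) h1).trans (mul_eq_self h0).le)

theorem nice_inacc {c : Cardinal.{u}} (h : c.IsInaccessible) (hc : c < l) {S₀ : Set (BB π)}
    (h1 : #S₀ ≤ c) (h2 : Fac c S₀) : Nice (BB π) l c := by
  refine ⟨h.aleph0_lt.le, hc, S₀, h2, h1.trans_lt hc, fun ι hι => coll_of_le ?_⟩
  rw [cd_oc hc]
  refine mk_small_subsets_le h ?_
  rw [mk_prod, lift_id, lift_id]
  exact (mul_le_mul' hι.le h1).trans (mul_eq_self h.aleph0_lt.le).le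

theorem nice_θ : Nice (BB π) l π.θ :=
  nice_inacc π.hθ π.θl ((card_lowS _).trans card_range_Z0)
    ((PP.cutS π (Order.succ π.θ)).fac π.hθ.isRegular
      ((PP.closed_upS π.succθ_le).mono (Order.le_succ _)) cc_θ)

theorem θ_lt_succκ : π.θ < Order.succ π.κ := π.θκ.trans (Order.lt_succ _)

theorem fac_κ : Fac π.κ (range fun p => RO.io ((PP.cutB π _ θ_lt_succκ).low p)) :=
  (PP.cutB π _ θ_lt_succκ).fac π.hκ.isRegular ((PP.closed_upB _ _).mono (Order.le_succ _)) cc_κ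

theorem nice_κ : Nice (BB π) l π.κ :=
  nice_inacc π.hκ π.κl ((card_range_io _).trans (card_lowB le_rfl θ_lt_succκ card_range_κ)) fac_κ

theorem cl_θ : Cl (BB π) l π.θ ℵ₀ := fun J hJ =>
  coll_of_al (γ := oc l #J) (Or.inl ⟨rfl, by rwa [cd_oc (hJ.trans π.θl)]⟩)
    (cd_oc (hJ.trans π.θl)).ge

theorem cl_κ : Cl (BB π) l π.κ π.μ := fun J hJ =>
  coll_of_al (γ := oc l #J) (Or.inr (Or.inl ⟨rfl, by rwa [cd_oc (hJ.trans π.κl)]⟩))
    (cd_oc (hJ.trans π.κl)).ge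

theorem cl_succ {ρ : Cardinal.{u}} (h : ρ < l) : Cl (BB π) l (Order.succ ρ) ρ := fun _ hJ =>
  coll_of_le ((Order.lt_succ_iff.mp hJ).trans (cd_oc h).ge)

theorem cl_pow {ρ : Cardinal.{u}} (h : π.R ρ) :
    Cl (BB π) l (Order.succ (2 ^ ρ)) (Order.succ ρ) := fun _ hJ =>
  coll_of_al (γ := oc l (2 ^ ρ)) (Or.inr (Or.inr ⟨ρ, h, rfl, rfl⟩))
    ((Order.lt_succ_iff.mp hJ).trans (cd_oc (Par.two_pow_lt_l h.2.1)).ge)

theorem cardStr : CardStr (BB π) l := by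
  intro σ hσ h0
  rcases lt_or_ge σ π.θ with h1 | h1
  · exact ⟨_, _, nice_θ, cl_θ, h0, h1⟩
  by_cases h2 : π.μ ≤ σ ∧ σ < π.κ
  · exact ⟨_, _, nice_κ, cl_κ, h2⟩
  have h3 : σ ≤ π.ρ π.m ∨ π.κ ≤ σ := by
    by_contra hn
    push Not at hn
    exact h2 ⟨Order.succ_le_of_lt hn.1, hn.2⟩
  obtain ⟨ρ, a1, a2, a3⟩ := exists_bt h0
  have hρ : π.R ρ := ⟨a1, a2.trans_lt hσ, (inacc_bt π.hθ).le_of_lt a1 (h1.trans_lt a3),
    h3.imp a2.trans fun h => (inacc_bt π.hκ).le_of_lt a1 (h.trans_lt a3)⟩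
  rcases a2.lt_or_eq with a2 | rfl
  · refine ⟨_, _, nice_succ (ρ := 2 ^ ρ) ⟨a1.two_pow, Par.two_pow_lt_l hρ.2.1,
      hρ.2.2.1.trans (cantor _).le, h3.imp (fun h => a1.two_pow_le (π.bt_ρ _) (a2.trans_le h))
        fun h => h.trans a3.le⟩, cl_pow hρ, Order.succ_le_of_lt a2, a3.trans (Order.lt_succ _)⟩
  · exact ⟨_, _, nice_succ hρ, cl_succ hσ, le_rfl, Order.lt_succ _⟩

variable (π) in
/-- the first alephs of the extension -/
noncomputable def al : ℕ → Cardinal.{u}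
  | 0 => ℵ₀
  | 1 => π.θ
  | j + 2 => if j ≤ π.m then Order.succ (π.ρ j) else π.κ

omit hl in
theorem al_mid {j : ℕ} (h : j ≤ π.m) : al π (j + 2) = Order.succ (π.ρ j) := if_pos h

omit hl in
theorem al_μ : al π (π.m + 2) = π.μ := al_mid le_rfl

omit hl in
theorem al_κ : al π (π.m + 2 + 1) = π.κ := if_neg (Nat.not_succ_le_self _)

theorem al_spec : ∀ i < π.m + 2 + 1, Nice (BB π) l (al π (i + 1)) ∧
    Cl (BB π) l (al π (i + 1)) (al π i) ∧ al π i < al π (i + 1)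
  | 0, _ => ⟨nice_θ, cl_θ, π.θ0⟩
  | 1, _ => by
    rw [al_mid (Nat.zero_le _)]
    exact ⟨nice_succ π.R_θ, cl_succ π.θl, Order.lt_succ _⟩
  | j + 2, h => by
    rcases (show j ≤ π.m by omega).lt_or_eq with h' | rfl
    · rw [al_mid h'.le, al_mid (j := j + 1) h']
      exact ⟨nice_succ (π.R_ρ h'), cl_pow (π.R_ρ h'.le), Order.succ_lt_succ (cantor _)⟩
    · rw [al_μ, al_κ]
      exact ⟨nice_κ, cl_κ, π.μκ⟩

end Pool.Agent.Lib.MP_4847d9_lc
end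

-- part Pool.Agent.Lib.MP_4847d9_lc.Families
section

/-! The two generic Kurepa families. -/

namespace Pool.Agent.Lib.MP_4847d9_lc

open Pool.Agent.Shared.Forcing Cardinal Set Cond

universe u

variable {l : Cardinal.{u}} [hl : Fact l.IsInaccessible] {π : Par l}

theorem io_inf_eq {P : Type u} [Preorder P] {p : P} {x y : RO P} (h : ∀ s ≤ p, s ∈ x ↔ s ∈ y) :
    RO.io p ⊓ x = RO.io p ⊓ y := by
  have key : ∀ {x y : RO P}, (∀ s ≤ p, s ∈ x → s ∈ y) → RO.io p ⊓ x ≤ RO.io p ⊓ y := by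
    intro x y h s hs
    rw [RO.mem_inf] at hs ⊢
    refine ⟨hs.1, RO.of_dense fun s' hs' => ?_⟩
    obtain ⟨r, h1, h2⟩ := RO.mem_io.mp hs.1 s' hs'
    exact ⟨r, h1, h r h2 (RO.mono hs.2 (h1.trans hs'))⟩
  exact le_antisymm (key fun s hs => (h s hs).mp) (key fun s hs => (h s hs).mpr)

theorem mem_iff_of_io {P : Type u} [Preorder P] {p : P} {b x y : RO P} (hp : p ∈ b)
    (h : b ⊓ x = b ⊓ y) : p ∈ x ↔ p ∈ y := by
  have h1 : p ∈ b ⊓ x ↔ p ∈ b ⊓ y := by rw [h]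
  rwa [RO.mem_inf, RO.mem_inf, and_iff_right hp, and_iff_right hp] at h1

theorem oc_zero_le (η : OT l) : oc l 0 ≤ η := (oc_le hl.out.pos).mpr zero_le

theorem Cond.exists_fill {Al : OT l × OT l → Prop} (g : Cond Al) {a : OT l × OT l} (ha : Al a)
    {y : Set (OT l)} (h1 : #y < cd a.1) (h2 : ∀ η ∈ y, η < a.1) :
    ∃ g' : Cond Al, g.s ⊆ g'.s ∧ ∀ η ∈ y, ¬ g'.Free (a, η) := by
  let b : Cond Al := ⟨(fun η => ((a, η), oc l 0)) '' {η ∈ y | g.Free (a, η)}, by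
      rintro k v v' ⟨η, -, e⟩ ⟨η', -, e'⟩
      exact (Prod.ext_iff.mp e).2.symm.trans (Prod.ext_iff.mp e').2, by
      rintro _ ⟨η, h, rfl⟩
      exact ⟨ha, h2 η h.1, oc_zero_le _⟩, fun z hz => by
      by_cases e : a.1 = z
      · exact (mk_le_mk_of_subset (sep_subset _ _)).trans_lt (mk_image_le.trans_lt
          ((mk_le_mk_of_subset (sep_subset _ _)).trans_lt (e ▸ h1)))
      · refine lt_of_le_of_lt (le_of_eq (mk_eq_zero_iff.mpr ⟨?_⟩)) hz.pos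
        rintro ⟨_, ⟨η, -, rfl⟩, h⟩
        exact e h⟩
  refine ⟨union g b ?_, subset_union_left, fun η hη hf => ?_⟩
  · rintro k v v' h ⟨η, h', e⟩
    obtain ⟨rfl, -⟩ := Prod.ext_iff.mp e
    exact absurd h (h'.2 v)
  · exact hf _ (Or.inr ⟨η, ⟨hη, fun v hv => hf v (Or.inl hv)⟩, rfl⟩)

theorem khData_zero : KHData (BB π) l π.μ π.κ π.θ := by
  classical
  have hz : cd (oc l π.μ) = π.μ := cd_oc π.μl
  refine ⟨fun ν η => ent (((oc l π.μ, ν), η), oc l 0), ?_, ?_⟩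
  · have key : ∀ ξ ξ', cd ξ < π.κ → cd ξ' < π.κ → ξ ≠ ξ' → ξ' ≠ oc l 0 → ∀ b : BB π,
        (∀ η, cd η < π.μ → b ⊓ ent (((oc l π.μ, ξ), η), oc l 0) =
          b ⊓ ent (((oc l π.μ, ξ'), η), oc l 0)) → b = ⊥ := by
      intro ξ ξ' hξ hξ' hne h0 b h
      refine RO.eq_bot_iff'.mpr fun p hp => ?_
      obtain ⟨η, a1, a2, a3⟩ : ∃ η < oc l π.μ, p.g.Free ((oc l π.μ, ξ), η) ∧
          p.g.Free ((oc l π.μ, ξ'), η) := by
        by_contra hn
        have hsub : Iio (oc l π.μ) ⊆ {η | ¬ p.g.Free ((oc l π.μ, ξ), η)} ∪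
            {η | ¬ p.g.Free ((oc l π.μ, ξ'), η)} := fun η hη => by
          by_contra e
          simp only [mem_union, mem_setOf_eq, not_or, not_not] at e
          exact hn ⟨η, hη, e⟩
        have hr : (cd (oc l π.μ)).IsRegular := by rw [hz]; exact π.μreg
        exact (add_lt_of_lt hr.aleph0_le (p.g.card_dom (a := (oc l π.μ, ξ)) hr)
          (p.g.card_dom (a := (oc l π.μ, ξ')) hr)).not_ge
          ((mk_le_mk_of_subset hsub).trans (mk_union_le _ _))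
      obtain ⟨g, hg⟩ := p.g.exists_add (((oc l π.μ, ξ), η), oc l 0)
        ⟨Or.inr (Or.inl ⟨rfl, hξ⟩), a1, oc_zero_le _⟩ a2
      obtain ⟨g', hg'⟩ := g.exists_add (((oc l π.μ, ξ'), η), ξ')
        ⟨Or.inr (Or.inl ⟨rfl, hξ'⟩), a1, le_rfl⟩ (fun v hv => by
          rw [hg] at hv
          rcases hv with hv | hv
          · exact hne (congrArg (fun e : Ent l => e.1.1.2) hv).symm
          · exact a3 v hv)
      have h1 : g.s ⊆ g'.s := hg' ▸ subset_insert _ _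
      have hp' : (⟨g', p.t⟩ : PP π) ∈ b :=
        RO.mono hp (p.le_of_g ((show p.g.s ⊆ g.s from hg ▸ subset_insert _ _).trans h1))
      exact mem_ent_compl (p := ⟨g', p.t⟩) (show _ ∈ g'.s from hg' ▸ mem_insert _ _) h0 _ le_rfl
        ((mem_iff_of_io hp' (h η ((lt_oc π.μl).mp a1))).mp
          (mem_ent (h1 (hg ▸ mem_insert _ _))))
    intro ξ ξ' hξ hξ' hne b _ h
    by_cases h0 : ξ' = oc l 0
    · exact key ξ' ξ hξ' hξ hne.symm (h0 ▸ hne) b fun η hη => (h η hη).symm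
    · exact key ξ ξ' hξ hξ' hne h0 b h
  · intro y hy hyμ b hb
    refine ⟨b, le_rfl, hb, Set y, fun j η => if ∃ h : η ∈ y, ⟨η, h⟩ ∈ j then ⊤ else ⊥, ?_, ?_⟩
    · rw [mk_set]; exact π.hθ.isStrongPrelimit hy
    · intro ξ hξ d _ hd
      obtain ⟨p, hp⟩ := RO.ne_bot_iff.mp hd
      obtain ⟨g, h1, h2⟩ := p.g.exists_fill (a := (oc l π.μ, ξ)) (Or.inr (Or.inl ⟨rfl, hξ⟩))
        (y := y) ((hy.trans π.θμ).trans_eq hz.symm) fun η hη => (lt_oc π.μl).mpr (hyμ η hη)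
      refine ⟨RO.io ⟨g, p.t⟩, RO.io_le.mpr (RO.mono hp (p.le_of_g h1)), RO.io_ne_bot _,
        {η | (((oc l π.μ, ξ), η.1), oc l 0) ∈ g.s}, fun η hη => ?_⟩
      beta_reduce
      by_cases e : (((oc l π.μ, ξ), η), oc l 0) ∈ g.s
      · rw [if_pos (by exact ⟨hη, e⟩), inf_top_eq, inf_eq_left]
        exact RO.io_le.mpr (mem_ent e)
      · rw [if_neg (by exact fun ⟨_, h⟩ => e h), inf_bot_eq]
        have := h2 η hη
        simp only [Free, not_forall, not_not] at this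
        obtain ⟨v, hv⟩ := this
        exact disjoint_iff.mp (le_compl_iff_disjoint_right.mp (RO.io_le.mpr
          (mem_ent_compl (p := ⟨g, p.t⟩) hv fun e' => e (e' ▸ hv))))

theorem pi_le_of_dense {p : PP π} {b : B1 π} (h : ∀ q ≤ p, ∃ r ≤ q, pi r.g ≤ b) : pi p.g ≤ b := by
  refine le_of_dense fun c hc hc0 e => ?_
  obtain ⟨g, h1, h2⟩ := exists_pi_le (g := p.g) (b := c) (by rwa [inf_eq_left.mpr hc])
  obtain ⟨r, h3, h4⟩ := h _ (p.le_of_g h1)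
  exact pi_ne_bot r.g (le_bot_iff.mp ((le_inf ((pi_mono' h3.1).trans h2) h4).trans e.le))

/-- the embedding of the algebra of the first step -/
def emb1 (b : B1 π) : BB π := RO.hull {p | pi p.g ≤ b}

theorem mem_emb1 {b : B1 π} {p : PP π} : p ∈ emb1 b ↔ pi p.g ≤ b :=
  ⟨fun h => pi_le_of_dense fun q hq => by
    obtain ⟨r, h1, t, h2, h3⟩ := h q hq
    exact ⟨r, h1, (pi_mono' h3.1).trans h2⟩, fun h => RO.mem_hull_of_mem h⟩

/-- the generic branches -/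
def br (ν η : OT l) : BB π := RO.hull {p | ν ∈ p.t.D ∧ η < p.t.tr.β ∧ pi p.g ≤ p.t.q ν η}

theorem mem_br {ν η : OT l} {p s : PP π} (hs : s ≤ p) (h1 : ν ∈ p.t.D) (h2 : η < p.t.tr.β) :
    s ∈ br ν η ↔ pi s.g ≤ p.t.q ν η := by
  constructor
  · intro h
    refine pi_le_of_dense fun q hq => ?_
    obtain ⟨r, a1, t, ⟨a2, a3, a4⟩, a5⟩ := h q hq
    refine ⟨r, a1, ?_⟩
    have e1 := a5.2.agree ν a2 η a3
    have e2 := (a1.trans (hq.trans hs)).2.agree ν h1 η h2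
    rw [inf_eq_left.mpr ((pi_mono' a5.1).trans a4)] at e1
    rw [← e1, e2]
    exact inf_le_right
  · intro h
    refine RO.mem_hull_of_mem ⟨hs.2.D h1, h2.trans_le hs.2.tr.β, ?_⟩
    have e := hs.2.agree ν h1 η h2
    rw [inf_eq_left.mpr h] at e
    exact e ▸ inf_le_right

theorem khData_succ {σ : Cardinal.{u}} (h1 : π.θ ≤ σ) (h2 : σ < π.μ) :
    KHData (BB π) l π.μ π.κ (Order.succ σ) := by
  classical
  refine ⟨br, ?_, ?_⟩
  · intro ν ν' hν hν' hne b _ h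
    refine RO.eq_bot_iff'.mpr fun p hp => ?_
    have c1 : #({ν, ν'} : Set (OT l)) < π.qp.μ :=
      (toFinite _).lt_aleph0.trans_le π.μreg.aleph0_le
    have c2 : ∀ x ∈ ({ν, ν'} : Set (OT l)), cd x < π.qp.κ := by
      rintro _ (rfl | rfl); exacts [hν, hν']
    let t := Q.addDom {ν, ν'} c1 c2 p.t
    obtain ⟨β, b1, b2⟩ := exists_gt_cd_lt π.μreg π.μl.le t.tr.hβ
    obtain ⟨s, s1, s2, s3, s4⟩ := t.exists_ext b1 b2.le ν
      (fun η => if η = t.tr.β then ⊤ else t.q ν η)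
      (fun η hη => by rw [if_neg (b2.trans_le hη).ne', t.q_supp ν (b2.le.trans hη)])
      (fun η hη => if_neg hη.ne) (Or.inr (Or.inl rfl))
    have hp' : (⟨p.g, s⟩ : PP π) ∈ b :=
      RO.mono hp (p.le_of_t (s1.trans (Q.addDom_le _ _ c1 c2 _)))
    have e := mem_iff_of_io hp' (h t.tr.β t.tr.hβ)
    rw [mem_br le_rfl (s1.D (Or.inr (Or.inl rfl))) (s2 ▸ b2),
      mem_br le_rfl (s1.D (Or.inr (Or.inr rfl))) (s2 ▸ b2)] at e
    simp only [s3, s4 ν' hne.symm, t.q_supp ν' le_rfl, if_true, le_top, true_iff,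
      le_bot_iff] at e
    exact pi_ne_bot _ e
  · intro y hy hyμ b hb
    obtain ⟨p, hp⟩ := RO.ne_bot_iff.mp hb
    obtain ⟨β, b1, b2⟩ := exists_bound_set π.μreg π.μl.le
      (hy.trans_le (Order.succ_le_of_lt h2)) hyμ
    obtain ⟨t, t1, t2⟩ := p.t.exists_raise b1
    obtain ⟨A, a1, a2⟩ := t.tr.thin σ h1 y (Order.lt_succ_iff.mp hy)
    refine ⟨RO.io ⟨p.g, t⟩, RO.io_le.mpr (RO.mono hp (p.le_of_t t1)), RO.io_ne_bot _, A,
      fun a η => emb1 (a.1 η), Order.lt_succ_of_le a1, fun ξ hξ d hd hd0 => ?_⟩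
    obtain ⟨q, hq⟩ := RO.ne_bot_iff.mp hd0
    obtain ⟨r, r1, r2⟩ := RO.mem_io.mp (hd q hq) q le_rfl
    have c1 : #({ξ} : Set (OT l)) < π.qp.μ := (toFinite _).lt_aleph0.trans_le π.μreg.aleph0_le
    have c2 : ∀ x ∈ ({ξ} : Set (OT l)), cd x < π.qp.κ := by rintro _ rfl; exact hξ
    let s := Q.addDom {ξ} c1 c2 r.t
    have hy' : y ⊆ Iio t.tr.β := fun η hη => (b2 η hη).trans_le t2
    obtain ⟨c, d1, d2, a, d3, d4⟩ := (r2.2.tr.res _ (s.hq ξ)).trans hy' a2 _ (pi_ne_bot r.g)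
    obtain ⟨g, g1, g2⟩ := exists_pi_le (g := r.g) (b := c) (by rwa [inf_eq_left.mpr d1])
    refine ⟨RO.io ⟨g, s⟩, RO.io_le.mpr (RO.mono hq (le_trans ⟨g1, Q.addDom_le _ _ c1 c2 _⟩ r1)),
      RO.io_ne_bot _, ⟨a, d3⟩, fun η hη => io_inf_eq fun w hw => ?_⟩
    rw [mem_br hw (Or.inr rfl) ((hy' hη).trans_le r2.2.tr.β), mem_emb1]
    have hc : pi w.g ≤ c := (pi_mono' hw.1).trans g2
    have e := inf_eq_of_le hc (d4 η hη)
    exact ⟨fun h => by rw [inf_eq_left.mpr h] at e; exact e ▸ inf_le_right,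
      fun h => by rw [inf_eq_left.mpr h] at e; exact e ▸ inf_le_right⟩

theorem khData : ∀ i < π.m + 2, KHData (BB π) l π.μ π.κ (al π (i + 1))
  | 0, _ => khData_zero
  | j + 1, h => by
    rw [al_mid (show j ≤ π.m by omega)]
    exact khData_succ (π.θ_le_ρ j)
      (Order.lt_succ_of_le (π.ρ_strictMono.monotone (show j ≤ π.m by omega)))

end Pool.Agent.Lib.MP_4847d9_lc
end

-- part Pool.Agent.Lib.MP_4847d9_lc.Split
section

/-! Strong splitting, and the first claim: the collapsing tail adds no new branch. -/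

namespace Pool.Agent.Lib.MP_4847d9_lc

open Pool.Agent.Shared.Forcing Cardinal Set Cond PP

universe u

variable {l : Cardinal.{u}} [hl : Fact l.IsInaccessible] {π : Par l}

abbrev Low0 : PP π → PP π → Prop := LowS (Order.succ π.θ)
abbrev Up0 : PP π → PP π → Prop := UpS (Order.succ π.θ)
noncomputable abbrev comb0 : PP π → PP π → PP π := combS (Order.succ π.θ)

theorem comb0_le {p₁ a w : PP π} (h1 : Low0 a p₁) (h2 : Up0 w p₁) : comb0 a w ≤ p₁ :=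
  (combS_mono h1 h2).trans (combS_self p₁).le

theorem low0_comb0 (a w : PP π) : Low0 (comb0 a w) a := lowS_of_le_comb le_rfl

theorem PP.Com.low0 {A : Set (OT l × OT l)} {X : Set (OT l)} (hA : Z0 π ⊆ A) {p p' : PP π}
    (h : Com A X p p') : Low0 p p' := fun e he =>
  (show e ∈ (restr A p.g).s from h.g ▸ ⟨he.1, hA he.2⟩).1

/-- predense below `p₁` in the first step -/
def Pre (p₁ : PP π) (S : Set (PP π)) : Prop := ∀ a, Low0 a p₁ → ∃ s ∈ S, ∃ r, Low0 r a ∧ Low0 r s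

section

variable (a : OT l → BB π)

def Opp (p p' : PP π) (η : OT l) : Prop :=
  (p ∈ a η ∧ p' ∈ (a η)ᶜ) ∨ (p ∈ (a η)ᶜ ∧ p' ∈ a η)

def HasSplit (A : Set (OT l × OT l)) (X : Set (OT l)) (p : PP π) : Prop :=
  ∃ r ≤ p, ∃ r' ≤ p, Com A X r r' ∧ ∃ η, cd η < π.μ ∧ r ∈ a η ∧ r' ∈ (a η)ᶜ

variable {a}

theorem Opp.mono {p p' q q' : PP π} {η : OT l} (h : Opp a p p' η) (h1 : q ≤ p) (h2 : q' ≤ p') :
    Opp a q q' η :=
  h.imp (fun h => ⟨RO.mono h.1 h1, RO.mono h.2 h2⟩) fun h => ⟨RO.mono h.1 h1, RO.mono h.2 h2⟩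

/-- systems of conditions with the same common part -/
def Sys (A : Set (OT l × OT l)) (X : Set (OT l)) (p₁ : PP π) (I : Type u) : Type u :=
  {f : I → PP π // (∀ i j, Com A X (f i) (f j)) ∧ ∀ i, Up0 (f i) p₁}

theorem strong_split {A : Set (OT l × OT l)} {X : Set (OT l)} (hA : Z0 π ⊆ A) {p₁ : PP π}
    (hds : ∀ p ≤ p₁, HasSplit a A X p) {I : Type u} [Nonempty I] (hI : #I ≤ π.θ ∨ X = Set.univ)
    {ι : Type u} (hι : #ι ≤ π.θ) (i₀ i₁ : ι → I) (hne : ∀ k, i₀ k ≠ i₁ k) (f : Sys A X p₁ I) :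
    ∃ f' : Sys A X p₁ I, (∀ i, Up0 (f'.1 i) (f.1 i)) ∧ ∀ k, ∃ S : Set (PP π), #S < π.θ ∧
      (∀ s ∈ S, ∃ η, cd η < π.μ ∧ Opp a (comb0 s (f'.1 (i₀ k))) (comb0 s (f'.1 (i₁ k))) η) ∧
      Pre p₁ S := by
  refine easton (Le := Low0) (R := fun f' f : Sys A X p₁ I => ∀ i, Up0 (f'.1 i) (f.1 i))
    (fun _ _ _ => LowS.trans) (fun _ _ => UpS.refl _) (fun _ _ _ h h' i => (h i).trans (h' i))
    ?_ (Order.le_succ _) cc_θ p₁ (Order.lt_succ_of_le hι)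
    (fun k s f => ∃ η, cd η < π.μ ∧ Opp a (comb0 s (f.1 (i₀ k))) (comb0 s (f.1 (i₁ k))) η) ?_
    (fun k s f f' h ⟨η, h1, h2⟩ => ⟨η, h1, h2.mono (combS_mono (LowS.refl _) (h _))
      (combS_mono (LowS.refl _) (h _))⟩) f
  · intro Z _ _ hZ F hF
    obtain ⟨s, h1, h2⟩ := sys_lim π.succθ_le hZ hI (fun i ζ => (F ζ).1 i)
      (fun i j ζ => (F ζ).2.1 i j) fun i ζ ζ' h => hF ζ ζ' h i
    exact ⟨⟨s, h1, fun i => (h2 i (Classical.arbitrary Z)).trans ((F _).2.2 i)⟩,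
      fun ζ i => h2 i ζ⟩
  · intro k ℓ f hℓ
    have hc : ∀ i j, Com A X (comb0 ℓ (f.1 i)) (comb0 ℓ (f.1 j)) := fun i j => (f.2.1 i j).combS ℓ
    obtain ⟨r₀, a0, r₁, a1, a2, η, a3, a4, a5⟩ := hds _ (comb0_le hℓ (f.2.2 (i₀ k)))
    have b1 := amal_le_of_com hA (hc (i₁ k) (i₀ k)) a0
    obtain ⟨s, c1, c2⟩ := RO.decide_dense (a η) (amal A X r₀ (comb0 ℓ (f.1 (i₁ k))))
    obtain ⟨r, d1, d2, d3⟩ : ∃ r ≤ comb0 ℓ (f.1 (i₀ k)), Com A X r r₀ ∧ Opp a r s η := by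
      rcases c2 with c2 | c2
      exacts [⟨r₁, a1, a2.symm, Or.inr ⟨a5, c2⟩⟩, ⟨r₀, a0, Com.refl _, Or.inl ⟨a4, c2⟩⟩]
    have e1 := amal_le_of_com hA (d2.trans (com_amal _ _).symm) c1
    have : ∀ i, ∃ q ≤ comb0 ℓ (f.1 i), Com A X q s ∧ (i = i₀ k → q ≤ r) ∧ (i = i₁ k → q ≤ s) := by
      intro i
      by_cases h0 : i = i₀ k
      · exact ⟨_, h0 ▸ e1.trans d1, com_amal _ _, fun _ => e1, fun h1 => absurd (h0 ▸ h1) (hne k)⟩
      by_cases h1 : i = i₁ k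
      · exact ⟨s, h1 ▸ c1.trans b1, Com.refl _, fun h => absurd h h0, fun _ => le_rfl⟩
      · exact ⟨_, amal_le_of_com hA (hc i (i₁ k)) (c1.trans b1), com_amal _ _,
          fun h => absurd h h0, fun h => absurd h h1⟩
    choose q q1 q2 q3 q4 using this
    have q5 : ∀ i, comb0 s (mix (q i) (f.1 i)) ≤ q i := fun i =>
      (combS_mono ((q2 i).symm.low0 hA) (UpS.refl _)).trans (combS_mix _ _)
    exact ⟨s, ⟨fun i => mix (q i) (f.1 i), fun i j => ((q2 i).trans (q2 j).symm).mix hA (f.2.1 i j),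
      fun i => (upS_mix (q1 i)).trans (f.2.2 i)⟩, lowS_of_le_comb (c1.trans b1),
      fun i => upS_mix (q1 i), η, a3, d3.mono ((q5 _).trans (q3 _ rfl)) ((q5 _).trans (q4 _ rfl))⟩

theorem decide_vals (p₁ w : PP π) {ι : Type u} (hι : #ι ≤ π.θ) (v : ι → BB π) :
    ∃ w', Up0 w' w ∧ ∀ k, ∃ S : Set (PP π), #S < π.θ ∧
      (∀ s ∈ S, comb0 s w' ∈ v k ∨ comb0 s w' ∈ (v k)ᶜ) ∧ Pre p₁ S := by
  refine easton (Le := Low0) (R := Up0) (fun _ _ _ => LowS.trans) UpS.refl (fun _ _ _ => UpS.trans)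
    (closed_upS π.succθ_le) (Order.le_succ _) cc_θ p₁ (Order.lt_succ_of_le hι)
    (fun k s w => comb0 s w ∈ v k ∨ comb0 s w ∈ (v k)ᶜ) (fun k ℓ w _ => ?_)
    (fun k s w w' h h' => h'.imp (RO.mono · (combS_mono (LowS.refl _) h))
      (RO.mono · (combS_mono (LowS.refl _) h))) w
  obtain ⟨q, h1, h2⟩ := RO.decide_dense (v k) (comb0 ℓ w)
  exact ⟨q, mix q w, lowS_of_le_comb h1, upS_mix h1,
    h2.imp (RO.mono · (combS_mix _ _)) (RO.mono · (combS_mix _ _))⟩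

end

/-- below `b` the value `v` only depends on the part below `α` -/
def Det (α : OT l) (b v : BB π) : Prop :=
  ∀ p p', p ∈ b → p' ∈ b → Com (Aκ π (Iio α)) (Iio α) p p' → p ∈ v → p' ∈ v

theorem Det.compl {α : OT l} {b v : BB π} (h : Det α b v) : Det α b vᶜ := by
  intro p p' hp hp' hc hv r hr hr'
  have h1 := amal_le_of_com (Z0_subset_Aκ _) hc hr
  exact hv _ h1 (h _ _ (RO.mono hp' hr) (RO.mono hp h1) (com_amal _ _).symm hr')

/-- the hypotheses on a name `a` of a member of the family and on the names `G` of the traces -/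
structure Hyp (α : OT l) (b : BB π) (a : OT l → BB π) (G : Set (OT l) → OT l → OT l → BB π) :
    Prop where
  det : ∀ x j η, (∀ η ∈ x, cd η < π.μ) → cd j < π.μ → cd η < π.μ → Det α b (G x j η)
  tr : ∀ x : Set (OT l), #x ≤ π.θ → (∀ η ∈ x, cd η < π.μ) → ∀ p ∈ b, ∃ r ≤ p, ∃ j,
    (j ∈ x ∨ cd j < ℵ₀) ∧ ∀ η ∈ x, ∀ s ≤ r, s ∈ a η ↔ s ∈ G x j η

theorem card_J {x : Set (OT l)} : #{j // j ∈ x ∨ cd j < ℵ₀} ≤ #x + ℵ₀ := by
  have := mk_union_le x {j : OT l | cd j < ℵ₀}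
  rwa [mk_cd_lt aleph0_lt_l] at this

/-- the final step common to both claims -/
theorem Hyp.final {α : OT l} {b : BB π} {a : OT l → BB π} {G : Set (OT l) → OT l → OT l → BB π}
    (H : Hyp α b a G) {A : Set (OT l × OT l)} {X : Set (OT l)} (hA : Aκ π (Iio α) ⊆ A)
    (hX : Iio α ⊆ X) {p₁ w h r c : PP π} (hp₁ : p₁ ∈ b) (hw : Up0 w p₁)
    (hh : Up0 (amal A X w h) p₁) (hr : r ≤ comb0 p₁ (amal A X w h)) (hc : Low0 c r)
    {x : Set (OT l)} (hx : ∀ η ∈ x, cd η < π.μ) {j η : OT l} (hj : j ∈ x ∨ cd j < ℵ₀) (hη : η ∈ x)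
    (hG : ∀ s ≤ r, s ∈ a η ↔ s ∈ G x j η) :
    (comb0 c w ∈ G x j η → comb0 c r ∈ a η) ∧ (comb0 c w ∈ (G x j η)ᶜ → comb0 c r ∉ a η) := by
  have h1 : comb0 c r ≤ r := comb0_le hc (UpS.refl _)
  have h2 : comb0 c r ≤ comb0 c (amal A X w h) := le_combS_of_le (low0_comb0 _ _) (h1.trans hr)
  have h3 : Low0 c p₁ := hc.trans (lowS_of_le_comb hr)
  have hd := H.det x j η hx (hj.elim (hx j) fun h => h.trans_le π.μreg.aleph0_le) (hx η hη)
  have hcom : Com (Aκ π (Iio α)) (Iio α) (comb0 c w) (comb0 c (amal A X w h)) :=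
    (((com_amal w h).symm).combS c).mono hA hX
  have b1 := RO.mono hp₁ (comb0_le h3 hw)
  have b2 := RO.mono hp₁ (comb0_le h3 hh)
  exact ⟨fun e => (hG _ h1).mpr (RO.mono (hd _ _ b1 b2 hcom e) h2),
    fun e e' => hd.compl _ _ b1 b2 hcom e _ h2 ((hG _ h1).mp e')⟩

theorem tree_lim {A : Set (OT l × OT l)} {p₁ : PP π} {T Z : Type u} [LinearOrder T] [LinearOrder Z]
    (hZ : #Z ≤ π.θ) (e : Z → T) (he : StrictMono e) (f : Z → Sys A Set.univ p₁ (Set T))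
    (hf : ∀ i j, i < j → ∀ s, Up0 ((f j).1 s) ((f i).1 (s ∩ Iic (e i)))) :
    ∃ H : Sys A Set.univ p₁ (Set T), ∀ i s, Up0 (H.1 s) ((f i).1 (s ∩ Iic (e i))) := by
  rcases isEmpty_or_nonempty Z with hZ' | hZ'
  · exact ⟨⟨fun _ => p₁, fun _ _ => Com.refl _, fun _ => UpS.refl _⟩, isEmptyElim⟩
  obtain ⟨s, h1, h2⟩ := sys_lim π.succθ_le (A := A) (Order.lt_succ_of_le hZ) (I := Set T)
    (Or.inr rfl) (fun s i => (f i).1 (s ∩ Iic (e i))) (fun s s' i => (f i).2.1 _ _)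
    fun s i j h => by
      have := hf i j h (s ∩ Iic (e j))
      rwa [inter_assoc, Iic_inter_Iic, min_eq_right (he h).le] at this
  exact ⟨⟨s, h1, fun i => (h2 i (Classical.arbitrary Z)).trans ((f _).2.2 _)⟩, fun i s => h2 s i⟩

theorem Hyp.claim1 {α : OT l} {b : BB π} {a : OT l → BB π} {G : Set (OT l) → OT l → OT l → BB π}
    (H : Hyp α b a G) {p₁ : PP π} (hp₁ : p₁ ∈ b) :
    ¬ ∀ p ≤ p₁, HasSplit a (Aκ π (Iio α)) Set.univ p := by
  intro hds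
  have hA := Z0_subset_Aκ (π := π) (Iio α)
  have hθ := π.θ0.le
  have hn : ∀ ζ : OT π.θ, #(𝒫 Iio ζ) ≤ π.θ := fun ζ => by
    rw [mk_powerset]; exact (π.hθ.isStrongPrelimit (cd_lt ζ)).le
  obtain ⟨F, hF1, hF2⟩ := exists_seq (I := OT π.θ) (X := Sys (Aκ π (Iio α)) Set.univ p₁ (Set (OT π.θ)))
    (fun ζ F => ∀ s : 𝒫 Iio ζ, ∃ S : Set (PP π), #S < π.θ ∧ (∀ c ∈ S, ∃ η, cd η < π.μ ∧
      Opp a (comb0 c (F.1 s.1)) (comb0 c (F.1 (insert ζ s.1))) η) ∧ Pre p₁ S)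
    (fun ζ F _ F' => ∀ s, Up0 (F'.1 s) (F.1 (s ∩ Iic ζ))) (by
      intro ζ f _ h2
      obtain ⟨K, hK⟩ := tree_lim (cd_lt ζ).le (fun i : Iio ζ => i.1) (fun _ _ h => h) f h2
      obtain ⟨F, a1, a2⟩ := strong_split hA hds (Or.inr rfl) (hn ζ) (fun s => s.1)
        (fun s => insert ζ s.1) (fun s e => lt_irrefl ζ (s.2 (e ▸ mem_insert _ _))) K
      exact ⟨F, a2, fun i s => (a1 s).trans (hK i s)⟩)
  obtain ⟨K, hK⟩ := tree_lim (Z := OT π.θ) (by simp) id strictMono_id F hF2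
  choose S S1 S2 S3 using hF1
  choose η η1 η2 using S2
  let x : Set (OT l) := range fun q : Σ ζ, Σ s, S ζ s => η q.1 q.2.1 q.2.2.1 q.2.2.2
  have hx : #x ≤ π.θ := by
    refine mk_range_le.trans ?_
    rw [mk_sigma]
    refine (sum_le_mk_mul_iSup _).trans ((mul_le_mul' (by simp) (ciSup_le' fun ζ => ?_)).trans
      (mul_eq_self hθ).le)
    rw [mk_sigma]
    exact (sum_le_mk_mul_iSup _).trans ((mul_le_mul' (hn ζ) (ciSup_le' fun s => (S1 ζ s).le)).trans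
      (mul_eq_self hθ).le)
  have hxμ : ∀ η ∈ x, cd η < π.μ := by
    rintro _ ⟨q, rfl⟩
    exact η1 _ _ _ _
  have hJ : #{j // j ∈ x ∨ cd j < ℵ₀} ≤ π.θ :=
    card_J.trans ((add_le_add hx hθ).trans (add_eq_self hθ).le)
  obtain ⟨w, w1, w2⟩ := decide_vals p₁ (K.1 ∅) (ι := {j // j ∈ x ∨ cd j < ℵ₀} × x) (by
    rw [mk_prod, lift_id, lift_id]
    exact (mul_le_mul' hJ hx).trans (mul_eq_self hθ).le) fun q => G x q.1 q.2
  have hu : ∀ s, Up0 (amal (Aκ π (Iio α)) Set.univ w (K.1 s)) (K.1 s) := fun s =>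
    amal_up (K.2.1 s ∅) w1
  choose r r1 j r2 r3 using fun s => H.tr x hx hxμ _
    (RO.mono hp₁ (comb0_le (LowS.refl p₁) ((hu s).trans (K.2.2 s))))
  have key : ∀ s s', restr (Z0 π) (r s).g = restr (Z0 π) (r s').g → j s = j s' →
      ∀ ζ, ζ ∉ s → ζ ∈ s' → (∀ ξ < ζ, ξ ∈ s ↔ ξ ∈ s') → False := by
    intro s s' e1 e2 ζ h1 h2 h3
    have f1 : s ∩ Iic ζ = s ∩ Iio ζ := by
      ext ξ
      exact and_congr_right fun h => ⟨fun h' => lt_of_le_of_ne h' fun e : ξ = ζ => h1 (e ▸ h),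
        fun h' => mem_Iic.mpr (le_of_lt h')⟩
    have f2 : s' ∩ Iic ζ = insert ζ (s ∩ Iio ζ) := by
      ext ξ
      constructor
      · exact fun h => (le_iff_eq_or_lt.mp h.2).imp id fun h' => ⟨(h3 ξ h').mpr h.1, h'⟩
      · rintro (rfl | h)
        exacts [⟨h2, mem_Iic.mpr le_rfl⟩, ⟨(h3 ξ h.2).mp h.1, mem_Iic.mpr (le_of_lt h.2)⟩]
    obtain ⟨c, c1, c', c2, c3⟩ := S3 ζ ⟨s ∩ Iio ζ, inter_subset_right⟩ (r s) (lowS_of_le_comb (r1 s))
    have hη : η ζ _ c c1 ∈ x := ⟨⟨ζ, _, c, c1⟩, rfl⟩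
    obtain ⟨S', -, d1, d2⟩ := w2 (⟨j s, r2 s⟩, ⟨_, hη⟩)
    obtain ⟨d, d3, d', d4, d5⟩ := d2 c' (c2.trans (lowS_of_le_comb (r1 s)))
    have g1 : Low0 d' (r s) := d4.trans c2
    have g2 : Low0 d' (r s') := fun e he => g1 (show e ∈ (restr (Z0 π) (r s).g).s from e1 ▸ he)
    have m : ∀ s, Low0 d' (r s) → comb0 d' (r s) ≤ comb0 c ((F ζ).1 (s ∩ Iic ζ)) := fun s h =>
      le_combS_of_le ((low0_comb0 _ _).trans (d4.trans c3)) ((comb0_le h (UpS.refl _)).trans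
        ((r1 s).trans (combS_mono (LowS.refl _) ((hu s).trans (hK ζ s)))))
    have o := (η2 ζ _ c c1).mono (f1 ▸ m s g1) (f2 ▸ m s' g2)
    have n1 := H.final subset_rfl (subset_univ _) hp₁ (w1.trans (K.2.2 _)) ((hu s).trans (K.2.2 s))
      (r1 s) g1 hxμ (r2 s) hη (r3 s _ hη)
    have n2 := H.final subset_rfl (subset_univ _) hp₁ (w1.trans (K.2.2 _))
      ((hu s').trans (K.2.2 s')) (r1 s') g2 hxμ (r2 s') hη (r3 s' _ hη)
    rw [← e2] at n2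
    rcases d1 d d3 with v | v
    · have v' := RO.mono v (combS_mono d5 (UpS.refl w))
      exact o.elim (fun o => o.2 _ le_rfl (n2.1 v')) fun o => o.1 _ le_rfl (n1.1 v')
    · have v' := RO.mono v (combS_mono d5 (UpS.refl w))
      exact o.elim (fun o => n1.2 v' o.1) fun o => n2.2 v' o.2
  have hinj : Function.Injective fun s => ((⟨restr (Z0 π) (r s).g, _, rfl⟩, ⟨j s, r2 s⟩) :
      range (restr (Z0 π) : Cond π.Al → Cond π.Al) × {j // j ∈ x ∨ cd j < ℵ₀}) := by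
    intro s s' e
    simp only [Prod.mk.injEq, Subtype.mk.injEq] at e
    by_contra hne
    obtain ⟨ζ, h1, h2⟩ := (wellFounded_lt (α := OT π.θ)).has_min {ζ | ¬ (ζ ∈ s ↔ ζ ∈ s')}
      (by
        by_contra hn
        exact hne (Set.ext fun ζ => by_contra fun h => hn ⟨ζ, h⟩))
    have h3 : ∀ ξ < ζ, ξ ∈ s ↔ ξ ∈ s' := fun ξ h => by_contra fun h' => h2 ξ h' h
    by_cases h4 : ζ ∈ s
    · exact key s' s e.1.symm e.2.symm ζ (fun h => h1 (iff_of_true h4 h)) h4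
        fun ξ h => (h3 ξ h).symm
    · exact key s s' e.1 e.2 ζ h4 (by_contra fun h => h1 (iff_of_false h4 h)) h3
  have := mk_le_of_injective hinj
  rw [mk_set, mk_prod, lift_id, lift_id, mk_toType, card_ord] at this
  exact (cantor π.θ).not_ge (this.trans ((mul_le_mul' card_range_Z0 hJ).trans (mul_eq_self hθ).le))

end Pool.Agent.Lib.MP_4847d9_lc
end

-- part Pool.Agent.Lib.MP_4847d9_lc.Core
section

/-! The second claim: the tail of the Kurepa forcing adds no new branch; the conclusion. -/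

namespace Pool.Agent.Lib.MP_4847d9_lc

open Pool.Agent.Shared.Forcing Cardinal Set Cond PP

universe u

variable {l : Cardinal.{u}} [hl : Fact l.IsInaccessible] {π : Par l}

theorem exists_nat_emb : ∃ n : ℕ → OT l, Function.Injective n ∧ ∀ k, n k < oc l ℵ₀ := by
  have : Infinite (Iio (oc l ℵ₀)) := infinite_iff.mpr (mk_Iio_oc aleph0_lt_l).ge
  exact ⟨fun k => (Infinite.natEmbedding (Iio (oc l ℵ₀)) k).1,
    Subtype.val_injective.comp (Infinite.natEmbedding _).injective,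
    fun k => (Infinite.natEmbedding (Iio (oc l ℵ₀)) k).2⟩

/-- the bits of the generic real at the coordinate `γ` -/
def bit (γ ξ : OT l) (i : Bool) : B1 π :=
  if i then RO.hull {g | (((oc l ℵ₀, γ), ξ), oc l 0) ∈ Cond.s g}
  else (RO.hull {g | (((oc l ℵ₀, γ), ξ), oc l 0) ∈ Cond.s g})ᶜ

theorem mem_Z0 (γ : OT l) : (oc l ℵ₀, γ) ∈ Z0 π := by
  show cd (oc l ℵ₀) < _
  rw [cd_oc aleph0_lt_l]
  exact π.θ0.trans (Order.lt_succ _)

theorem pi_le_bit {g : Cond π.Al} {γ ξ v : OT l} (h : (((oc l ℵ₀, γ), ξ), v) ∈ g.s) (i : Bool)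
    (hi : i = true ↔ v = oc l 0) : pi g ≤ bit γ ξ i := by
  refine RO.io_le.mpr ?_
  cases i
  · intro q hq hq'
    obtain ⟨r, h1, t, h2, h3⟩ := hq' q le_rfl
    exact absurd (hi.mpr (Cond.fn r _ _ _ ((h1.trans hq) ⟨h, mem_Z0 γ⟩) (h3 ⟨h2, mem_Z0 γ⟩)))
      Bool.false_ne_true
  · exact RO.mem_hull_of_mem (show _ ∈ g.s from hi.mp rfl ▸ h)

/-- the Boolean value of: `s` is an initial segment of the generic real -/
def bb (n : ℕ → OT l) (γ : OT l) : List Bool → B1 π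
  | [] => ⊤
  | i :: s => bb n γ s ⊓ bit γ (n s.length) i

theorem bb_predense (n : ℕ → OT l) (γ : OT l) : ∀ (k : ℕ) (b : B1 π), b ≠ ⊥ →
    ∃ s : {s : List Bool // s.length = k}, b ⊓ bb n γ s.1 ≠ ⊥
  | 0, b, hb => ⟨⟨[], rfl⟩, by rwa [bb, inf_top_eq]⟩
  | k + 1, b, hb => by
    obtain ⟨⟨s, rfl⟩, hs⟩ := bb_predense n γ k b hb
    by_contra hn
    push Not at hn
    have h1 := hn ⟨true :: s, rfl⟩
    have h2 := hn ⟨false :: s, rfl⟩
    simp only [bb, bit, if_true, Bool.false_eq_true, if_false, ← inf_assoc] at h1 h2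
    exact hs (by rw [← inf_top_eq (b ⊓ _), ← sup_compl_eq_top, inf_sup_left, h1, h2, bot_sup_eq])

theorem bb_disj (n : ℕ → OT l) (γ : OT l) : ∀ s s' : List Bool, s.length = s'.length → s ≠ s' →
    bb (π := π) n γ s ⊓ bb n γ s' = ⊥
  | [], [], _, h => absurd rfl h
  | [], _ :: _, h, _ => by simp at h
  | _ :: _, [], h, _ => by simp at h
  | i :: s, i' :: s', h, h' => by
    have e : s.length = s'.length := by simpa using h
    by_cases e' : s = s'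
    · subst e'
      refine le_bot_iff.mp ((inf_le_inf inf_le_right inf_le_right).trans ?_)
      cases i <;> cases i' <;> simp [bit] at h' ⊢
    · exact le_bot_iff.mp ((inf_le_inf inf_le_left inf_le_left).trans (bb_disj n γ s s' e e').le)

theorem decide_bits {n : ℕ → OT l} (hn : Function.Injective n) (hn' : ∀ k, n k < oc l ℵ₀)
    {γ : OT l} (hγ : cd γ < π.θ) {k : ℕ} : ∀ m ≤ k, ∀ g : Cond π.Al, g.Free ((oc l ℵ₀, γ), n k) →
    ∃ g' : Cond π.Al, g.s ⊆ g'.s ∧ g'.Free ((oc l ℵ₀, γ), n k) ∧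
      ∃ s : List Bool, s.length = m ∧ pi g' ≤ bb n γ s
  | 0, _, g, hg => ⟨g, subset_rfl, hg, [], rfl, le_top⟩
  | m + 1, hm, g, hg => by
    classical
    obtain ⟨g', h1, h2, s, rfl, h3⟩ := decide_bits hn hn' hγ m (by omega) g hg
    by_cases e : g'.Free ((oc l ℵ₀, γ), n s.length)
    · obtain ⟨g'', h4⟩ := g'.exists_add (((oc l ℵ₀, γ), n s.length), oc l 0)
        ⟨Or.inl ⟨rfl, hγ⟩, hn' _, oc_zero_le _⟩ e
      have h5 : g'.s ⊆ g''.s := h4 ▸ subset_insert _ _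
      refine ⟨g'', h1.trans h5, fun v hv => ?_, true :: s, rfl, le_inf ((pi_mono' h5).trans h3)
        (pi_le_bit (h4 ▸ mem_insert _ _) true (by simp))⟩
      rw [h4] at hv
      rcases hv with hv | hv
      · have := hn (congrArg (fun e : Ent l => e.1.2) hv)
        omega
      · exact h2 v hv
    · simp only [Free, not_forall, not_not] at e
      obtain ⟨v, hv⟩ := e
      exact ⟨g', h1, h2, decide (v = oc l 0) :: s, rfl, le_inf h3 (pi_le_bit hv _ (by simp))⟩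

theorem low_union {r c c' : PP π} (h : Low0 r c) (h' : Low0 r c') : ∃ d, Low0 d c ∧ Low0 d c' ∧
    ∀ k, c.g.Free k → c'.g.Free k → d.g.Free k :=
  ⟨⟨union (restr (Z0 π) c.g) (restr (Z0 π) c'.g) fun k v v' e e' => r.g.fn k v v' (h e) (h' e'),
    c.t⟩, fun _ e => Or.inl e, fun _ e => Or.inr e,
    fun _ e e' v hv => hv.elim (fun hv => e v hv.1) fun hv => e' v hv.1⟩

theorem Hyp.claim2 {α : OT l} {b : BB π} {a : OT l → BB π} {G : Set (OT l) → OT l → OT l → BB π}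
    (H : Hyp α b a G) {p₁ : PP π} (hp₁ : p₁ ∈ b) :
    ¬ ∀ p ≤ p₁, HasSplit a Set.univ (Iio α) p := by
  intro hds
  have hA : Z0 π ⊆ Set.univ := subset_univ _
  have hθ := π.θ0.le
  have hL : #(ULift.{u} (List Bool)) < π.θ := mk_le_aleph0.trans_lt π.θ0
  obtain ⟨n, hn, hn'⟩ := exists_nat_emb (l := l)
  have step : ∀ F : Sys Set.univ (Iio α) p₁ (ULift.{u} (List Bool)),
      ∃ F' : Sys Set.univ (Iio α) p₁ (ULift.{u} (List Bool)),
      (∀ s, Up0 (F'.1 ⟨s⟩) (F.1 ⟨s.tail⟩)) ∧ ∀ s : ULift.{u} (List Bool), ∃ S : Set (PP π),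
        #S < π.θ ∧ (∀ c ∈ S, ∃ η, cd η < π.μ ∧
          Opp a (comb0 c (F'.1 ⟨true :: s.down⟩)) (comb0 c (F'.1 ⟨false :: s.down⟩)) η) ∧
        Pre p₁ S := by
    intro F
    obtain ⟨F', h1, h2⟩ := strong_split hA hds (Or.inl hL.le) hL.le
      (fun s : ULift.{u} (List Bool) => (⟨true :: s.down⟩ : ULift.{u} (List Bool)))
      (fun s => ⟨false :: s.down⟩) (fun s => by simp)
      ⟨fun s => F.1 ⟨s.down.tail⟩, fun _ _ => F.2.1 _ _, fun _ => F.2.2 _⟩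
    exact ⟨F', fun s => h1 ⟨s⟩, h2⟩
  choose nx nx1 S S1 S2 S3 using step
  choose η η1 η2 using S2
  let F : ℕ → Sys Set.univ (Iio α) p₁ (ULift.{u} (List Bool)) := fun k =>
    nx^[k] ⟨fun _ => p₁, fun _ _ => Com.refl _, fun _ => UpS.refl _⟩
  have hF : ∀ k, F (k + 1) = nx (F k) := fun k => Function.iterate_succ_apply' _ _ _
  have hg : ∀ k s s', ((F k).1 s).g = ((F k).1 s').g := fun k s s' => by
    simpa only [restr_univ] using ((F k).2.1 s s').g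
  choose t t1 t2 t3 using fun (γ : OT l) (k : ℕ) => Q.exists_mix (bb_predense n γ k)
    (fun s s' h => bb_disj n γ s.1 s'.1 (s.2.trans s'.2.symm) fun e => h (Subtype.ext e))
    ((F k).1 ⟨[]⟩).t (fun s => ((F k).1 ⟨s.1⟩).t)
    (fun s => (congrArg Q.tr ((F k).2.1 ⟨s.1⟩ ⟨[]⟩).t :)) fun s => ((F k).2.1 ⟨s.1⟩ ⟨[]⟩).2
  have t4 : ∀ γ (s : List Bool), Q.Le (bb n γ s) (t γ s.length) ((F s.length).1 ⟨s⟩).t ∧
      Q.Le (bb n γ s) ((F s.length).1 ⟨s⟩).t (t γ s.length) := fun γ s => by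
    have e1 : ((F s.length).1 ⟨s⟩).t.tr = (t γ s.length).tr :=
      (congrArg Q.tr ((F s.length).2.1 ⟨s⟩ ⟨[]⟩).t :).trans (t1 γ _).symm
    have e2 : ((F s.length).1 ⟨s⟩).t.D = (t γ s.length).D :=
      ((F s.length).2.1 ⟨s⟩ ⟨[]⟩).2.trans (t2 γ _).symm
    exact ⟨Q.Le.of_agree e1.symm e2.le fun ν _ η => t3 γ _ ⟨s, rfl⟩ ν η,
      Q.Le.of_agree e1 e2.ge fun ν _ η => (t3 γ _ ⟨s, rfl⟩ ν η).symm⟩
  let f : OT l → ℕ → PP π := fun γ k => ⟨((F k).1 ⟨[]⟩).g, t γ k⟩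
  have f1 : ∀ γ k, Com Set.univ (Iio α) (f γ k) ((F k).1 ⟨[]⟩) := fun γ k =>
    Com.mk' rfl (Q.res_ext (t1 γ k) (by rw [show (f γ k).t.D = _ from t2 γ k]) fun ν hν =>
      funext fun ξ => eq_of_predense (bb_predense n γ k) fun s => by
        rw [show (f γ k).t = t γ k from rfl, t3, Q.q_eq_of_res ((F k).2.1 ⟨s.1⟩ ⟨[]⟩).t hν])
      (t2 γ k)
  have f2 : ∀ γ k, Up0 (f γ (k + 1)) (f γ k) := by
    intro γ k
    have u : ∀ s, Up0 ((F (k + 1)).1 ⟨s⟩) ((F k).1 ⟨s.tail⟩) := fun s => hF k ▸ nx1 (F k) s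
    refine ⟨(u []).1, Q.Le.of_predense (bb_predense n γ (k + 1)) ?_ ?_ ?_⟩
    · show (t γ (k + 1)).tr.Le (t γ k).tr
      rw [t1, t1]; exact (u []).2.tr
    · show (t γ k).D ⊆ (t γ (k + 1)).D
      rw [t2, t2]; exact (u []).2.D
    · rintro ⟨_ | ⟨i, s⟩, hs⟩
      · simp at hs
      · obtain rfl : s.length = k := by simpa using hs
        exact ((t4 γ (i :: s)).1.trans ((u (i :: s)).2.mono le_top)).trans
          ((t4 γ s).2.mono inf_le_left)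
  have f3 : ∀ γ k k', k < k' → Up0 (f γ k') (f γ k) := by
    intro γ k k' h
    induction h with
    | refl => exact f2 γ k
    | step _ ih => exact (f2 γ _).trans ih
  have : Nonempty (Iio (oc l π.θ)) := ⟨⟨oc l 0, (oc_lt_oc hl.out.pos π.θl).mpr π.hθ.pos⟩⟩
  obtain ⟨P, P1, P2⟩ := sys_lim π.succθ_le (A := Set.univ) (X := Iio α) (Z := ULift.{u} ℕ)
    (mk_le_aleph0.trans_lt (π.θ0.trans (Order.lt_succ _))) (I := Iio (oc l π.θ))
    (Or.inl (mk_Iio_oc π.θl).le) (fun γ k => f γ k.down)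
    (fun γ γ' k => (f1 γ _).trans (f1 γ' _).symm) fun γ k k' h => f3 γ _ _ h
  have P3 : ∀ γ, Up0 (P γ) p₁ := fun γ => (P2 γ ⟨0⟩).trans
    ⟨((F 0).2.2 ⟨[]⟩).1, (t4 γ []).1.trans ((F 0).2.2 ⟨[]⟩).2⟩
  let N := Σ q : ULift.{u} ℕ × ULift.{u} (List Bool), S (F q.1.down) q.2
  have hN : #N < π.θ := by
    rw [mk_sigma]
    exact sum_lt_of_isRegular π.hθ.isRegular (mk_le_aleph0.trans_lt π.θ0) fun q => S1 _ _
  let x : Set (OT l) := range fun q : N => η _ _ q.2.1 q.2.2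
  have hx : #x < π.θ := mk_range_le.trans_lt hN
  have hxμ : ∀ η ∈ x, cd η < π.μ := by
    rintro _ ⟨q, rfl⟩
    exact η1 _ _ _ _
  have hι : #({j // j ∈ x ∨ cd j < ℵ₀} × x) < π.θ := by
    rw [mk_prod, lift_id, lift_id]
    exact mul_lt_of_lt hθ (card_J.trans_lt (add_lt_of_lt hθ hx π.θ0)) hx
  obtain ⟨γ₀⟩ := this
  obtain ⟨w, w1, w2⟩ := decide_vals p₁ (P γ₀) hι.le fun q => G x q.1 q.2
  choose S' S1' S2' S3' using w2
  have hz : (cd (oc l ℵ₀)).IsRegular := by rw [cd_oc aleph0_lt_l]; exact isRegular_aleph0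
  have hsupp : ∀ c : PP π, #(zsupp (oc l ℵ₀) c.g) < π.θ := fun c =>
    ((card_zsupp hz c.g).trans_eq (cd_oc aleph0_lt_l)).trans π.θ0
  obtain ⟨γ, γ1, γ2⟩ := exists_bound_set π.hθ.isRegular π.θl.le
    (s := insert (oc l 0) ((⋃ q : N, zsupp (oc l ℵ₀) q.2.1.g) ∪
      ⋃ q, ⋃ c : S' q, zsupp (oc l ℵ₀) c.1.g)) (by
      refine mk_insert_le.trans_lt (add_lt_of_lt hθ ((mk_union_le _ _).trans_lt
        (add_lt_of_lt hθ ?_ ?_)) (one_lt_aleph0.trans π.θ0))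
      · exact mk_iUnion_le_sum_mk.trans_lt (sum_lt_of_isRegular π.hθ.isRegular hN fun _ => hsupp _)
      · exact mk_iUnion_le_sum_mk.trans_lt (sum_lt_of_isRegular π.hθ.isRegular hι fun q =>
          mk_iUnion_le_sum_mk.trans_lt (sum_lt_of_isRegular π.hθ.isRegular (S1' q)
            fun _ => hsupp _))) (by
      have key : ∀ c : PP π, ∀ ξ ∈ zsupp (oc l ℵ₀) c.g, cd ξ < π.θ := by
        rintro c ξ ⟨e, h1, h2⟩
        have := (c.g.ok e h1).1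
        rw [h2] at this
        exact (this.of_le_θ (mem_Z0 ξ)).2
      rintro ξ (rfl | h | h)
      · rw [cd_oc hl.out.pos]; exact π.hθ.pos
      · obtain ⟨q, h⟩ := mem_iUnion.mp h
        exact key _ _ h
      · obtain ⟨q, h⟩ := mem_iUnion.mp h
        obtain ⟨c, h⟩ := mem_iUnion.mp h
        exact key _ _ h)
  let γ' : Iio (oc l π.θ) := ⟨γ, (lt_oc π.θl).mpr γ1⟩
  have hu : Up0 (amal Set.univ (Iio α) w (P γ')) (P γ') := amal_up (P1 γ' γ₀) w1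
  obtain ⟨r, r1, j, r2, r3⟩ := H.tr x hx.le hxμ _
    (RO.mono hp₁ (comb0_le (LowS.refl p₁) (hu.trans (P3 γ'))))
  obtain ⟨k, hk⟩ : ∃ k, r.g.Free ((oc l ℵ₀, γ), n k) := by
    by_contra hn''
    push Not at hn''
    have h1 := (r.g.card_dom (a := (oc l ℵ₀, γ)) hz).trans_eq (cd_oc aleph0_lt_l)
    exact (infinite_of_injective_forall_mem hn hn'') (lt_aleph0_iff_set_finite.mp h1)
  obtain ⟨g, g1, g2, s, rfl, g3⟩ := decide_bits hn hn' γ1 k le_rfl r.g hk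
  have g4 : Low0 ⟨g, r.t⟩ r := fun _ e => g1 e.1
  have g5 : Low0 r p₁ := lowS_of_le_comb r1
  obtain ⟨c, c1, c', c2, c3⟩ := S3 (F s.length) ⟨s⟩ _ (g4.trans g5)
  obtain ⟨d, d1, d2, d3⟩ := low_union c2 c3
  have hη : η _ _ c c1 ∈ x := ⟨⟨(⟨s.length⟩, ⟨s⟩), c, c1⟩, rfl⟩
  obtain ⟨c'', e1, e', e2, e3⟩ := S3' (⟨j, r2⟩, ⟨_, hη⟩) d (d1.trans (g4.trans g5))
  obtain ⟨d', d1', d2', d3'⟩ := low_union e2 e3
  have hfree : d'.g.Free ((oc l ℵ₀, γ), n s.length) :=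
    d3' _ (d3 _ g2 fun v hv => lt_irrefl γ (γ2 γ (Or.inr (Or.inl (mem_iUnion.mpr
      ⟨⟨(⟨s.length⟩, ⟨s⟩), c, c1⟩, _, hv, rfl⟩))))) fun v hv => lt_irrefl γ (γ2 γ (Or.inr (Or.inr
        (mem_iUnion.mpr ⟨_, mem_iUnion.mpr ⟨⟨c'', e1⟩, _, hv, rfl⟩⟩))))
  have key : ∀ i : Bool, ∃ y, Low0 y d' ∧
      comb0 y r ≤ comb0 c ((nx (F s.length)).1 ⟨i :: s⟩) := by
    intro i
    obtain ⟨g', hg'⟩ := d'.g.exists_add (((oc l ℵ₀, γ), n s.length), if i then oc l 0 else γ)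
      ⟨Or.inl ⟨rfl, γ1⟩, hn' _, by split_ifs; exacts [oc_zero_le _, le_rfl]⟩ hfree
    have y1 : Low0 ⟨g', r.t⟩ d' := fun _ e => (hg' ▸ subset_insert _ _ : d'.g.s ⊆ g'.s) e.1
    have y2 : Low0 ⟨g', r.t⟩ r := y1.trans (d1'.trans (d1.trans g4))
    have y3 : pi g' ≤ bb n γ (i :: s) := le_inf ((pi_mono (y1.trans (d1'.trans d1))).trans g3)
      (pi_le_bit (hg' ▸ mem_insert _ _) i (by
        cases i
        · simpa using (γ2 _ (mem_insert _ _)).ne'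
        · simp))
    refine ⟨_, y1, ?_⟩
    have y4 : comb0 ⟨g', r.t⟩ r ≤ comb0 ⟨g', r.t⟩ (f γ (s.length + 1)) :=
      le_combS_of_le (low0_comb0 _ _) ((comb0_le y2 (UpS.refl _)).trans
        (r1.trans (combS_mono (LowS.refl _) (hu.trans (P2 γ' ⟨s.length + 1⟩)))))
    refine y4.trans (le_combS ((low0_comb0 _ _).trans (y1.trans (d1'.trans d2))) ?_ ?_)
    · rw [← hF, hg _ ⟨i :: s⟩ ⟨[]⟩]
      exact fun _ e => Or.inr e
    · rw [← hF]
      exact (t4 γ (i :: s)).1.mono ((pi_glue subset_rfl _ _).le.trans y3)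
  choose y y1 y2 using key
  have o := (η2 _ _ c c1).mono (y2 true) (y2 false)
  have n1 := fun i => H.final (subset_univ _) subset_rfl hp₁ (w1.trans (P3 _)) (hu.trans (P3 γ')) r1
    ((y1 i).trans (d1'.trans (d1.trans g4))) hxμ r2 hη (r3 _ hη)
  rcases S2' _ _ e1 with v | v
  · have v' := fun i => RO.mono v (combS_mono ((y1 i).trans d2') (UpS.refl w))
    exact o.elim (fun o => o.2 _ le_rfl ((n1 false).1 (v' false)))
      fun o => o.1 _ le_rfl ((n1 true).1 (v' true))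
  · have v' := fun i => RO.mono v (combS_mono ((y1 i).trans d2') (UpS.refl w))
    exact o.elim (fun o => (n1 true).2 (v' true) o.1) fun o => (n1 false).2 (v' false) o.2

theorem Hyp.claim3 {α : OT l} {b : BB π} {a : OT l → BB π} {G : Set (OT l) → OT l → OT l → BB π}
    (H : Hyp α b a G) {p : PP π} (hp : p ∈ b) :
    ∃ r ≤ p, ¬ HasSplit a (Aκ π (Iio α)) (Iio α) r := by
  have hA := Z0_subset_Aκ (π := π) (Iio α)
  have h1 := H.claim1 hp
  push Not at h1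
  obtain ⟨p₁, a1, a2⟩ := h1
  have h2 := H.claim2 (RO.mono hp a1)
  push Not at h2
  obtain ⟨p₂, b1, b2⟩ := h2
  refine ⟨p₂, b1.trans a1, ?_⟩
  rintro ⟨r₀, c0, r₁, c1, c2, η, c3, c4, c5⟩
  have d1 : Com (Aκ π (Iio α)) Set.univ r₁ ⟨r₀.g, r₁.t⟩ := Com.mk' c2.g.symm rfl rfl
  have d2 : Com Set.univ (Iio α) r₀ ⟨r₀.g, r₁.t⟩ := Com.mk' rfl c2.t c2.2
  have d3 : (⟨r₀.g, r₁.t⟩ : PP π) ≤ p₂ := ⟨c0.1, by
    show Q.Le (pi r₀.g) _ _
    rw [c2.pi hA]; exact c1.2⟩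
  obtain ⟨s, e1, e2 | e2⟩ := RO.decide_dense (a η) ⟨r₀.g, r₁.t⟩
  · have := amal_le_of_com hA d1 e1
    exact a2 ⟨s, (e1.trans d3).trans b1, _, (this.trans c1).trans b1, (com_amal _ _).symm, η, c3, e2,
      RO.mono c5 this⟩
  · have := amal_le_of_com (subset_univ _) d2 e1
    exact b2 ⟨_, this.trans c0, s, e1.trans d3, com_amal _ _, η, c3, RO.mono c4 this, e2⟩

theorem noFam : NoFam (BB π) l π.θ π.μ π.κ := by
  intro b₀ A G hD hG
  by_contra hb₀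
  have hκ0 := π.hκ.aleph0_lt.le
  have hI : #(Iio (oc l π.μ)) < π.κ := (mk_Iio_oc π.μl).trans_lt π.μκ
  obtain ⟨b, b1, b2, S, b3, b4, b5⟩ := (fac_κ (π := π)).values
    (ι := 𝒫 Iio (oc l π.μ) × Iio (oc l π.μ) × Iio (oc l π.μ)) (by
      simp only [mk_prod, lift_id, mk_powerset]
      exact mul_lt_of_lt hκ0 (π.hκ.isStrongPrelimit hI) (mul_lt_of_lt hκ0 hI hI))
    (fun q => G q.1 q.2.1 q.2.2) b₀ hb₀
  choose c hc using fun s : S => b3 s.2
  obtain ⟨α, α1, α2⟩ := exists_bound_set π.hκ.isRegular π.κl.le (s := ⋃ s, (c s).supp)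
    (mk_iUnion_le_sum_mk.trans_lt (sum_lt_of_isRegular π.hκ.isRegular b4 fun s =>
      (c s).card_supp.trans π.μκ)) (fun γ h => by
        obtain ⟨s, h⟩ := mem_iUnion.mp h
        exact (c s).supp_lt γ h)
  have hA := Z0_subset_Aκ (π := π) (Iio α)
  have H : ∀ ξ, cd ξ < π.κ → Hyp α b (A ξ) G := by
    refine fun ξ hξ => ⟨fun x j η hx hj hη p p' hp hp' hcom hv => ?_, fun x hx hxμ p hp => ?_⟩
    · refine RO.of_dense fun r' hr' => ?_
      have h1 := amal_le_of_com hA hcom hr'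
      have h2 := (mem_iff_of_io (RO.mono hp h1) (b5 (⟨x, fun η h => (lt_oc π.μl).mpr (hx η h)⟩,
        ⟨j, (lt_oc π.μl).mpr hj⟩, ⟨η, (lt_oc π.μl).mpr hη⟩))).mp (RO.mono hv h1)
      obtain ⟨r₂, h3, s, ⟨h4, h5⟩, h6⟩ := RO.mem_sSup.mp h2 _ le_rfl
      rw [← show _ = s from hc ⟨s, h4⟩] at h6
      obtain ⟨r₃, h7, h8⟩ := RO.mem_io.mp h6 _ le_rfl
      have h9 := amal_le_of_com hA (com_amal r' p).symm (h7.trans h3)
      refine ⟨_, h9, h5 _ (RO.mem_inf.mpr ⟨?_, RO.mono hp' (h9.trans hr')⟩)⟩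
      rw [← show _ = s from hc ⟨s, h4⟩]
      refine RO.mem_io_of_le (le_trans ((com_amal r₃ r').symm.le hA (s := c ⟨s, h4⟩) ?_) ?_)
      · have := h8.trans (le_res (A := Aκ π (Iio α)) (X := Iio α) _)
        exact (res_res (A := Zl l (Order.succ π.κ)) (A' := Aκ π (Iio α)) (fun _ h => h.1)
          (subset_univ (Iio α)) (c ⟨s, h4⟩)) ▸ this
      · have := PP.res_lowB (X := Iio α) (p := c ⟨s, h4⟩) fun γ h =>
          α2 γ (mem_iUnion.mpr ⟨_, h⟩)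
        exact ⟨this.1, this.2.trans (Q.le_res _ _ _)⟩
    · obtain ⟨d, d1, d2, j, d3, d4⟩ := hG x hx hxμ ξ hξ (RO.io p)
        (RO.io_le.mpr (b1 p hp)) (RO.io_ne_bot p)
      obtain ⟨q, hq⟩ := RO.ne_bot_iff.mp d2
      obtain ⟨r, r1, r2⟩ := RO.mem_io.mp (d1 q hq) q le_rfl
      exact ⟨r, r2, j, d3, fun η hη s hs => mem_iff_of_io (RO.mono hq (hs.trans r1)) (d4 η hη)⟩
  let R := range (PP.res (π := π) (Aκ π (Iio α)) (Iio α))
  let nm : Set (Iio (oc l π.μ) × R) → OT l → BB π := fun Y η =>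
    RO.hull {s | ∃ h1 h2, (⟨η, h1⟩, ⟨s, h2⟩) ∈ Y}
  let v : Set (Iio (oc l π.μ) × R) → Iio (oc l π.κ) → BB π := fun Y ξ =>
    sSup {d | ∀ η, cd η < π.μ → d ⊓ A ξ η = d ⊓ nm Y η}
  have hv : ∀ Y ξ η, cd η < π.μ → v Y ξ ⊓ A ξ η = v Y ξ ⊓ nm Y η := fun Y ξ η hη => by
    simp only [v, sSup_inf_eq]
    exact iSup_congr fun d => iSup_congr fun hd => hd η hη
  obtain ⟨b', e1, e2, Y, e3, e4⟩ := (fac_κ (π := π)).cover hκ0 (by
    rw [mk_set, mk_prod, lift_id, lift_id]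
    exact π.hκ.isStrongPrelimit (mul_lt_of_lt hκ0 hI (card_range_res α1))) v b b2
  obtain ⟨ξ, hξ⟩ : ∃ ξ, ξ ∉ Y := by
    by_contra hn
    push Not at hn
    rw [eq_univ_of_forall hn, mk_univ, mk_Iio_oc π.κl] at e3
    exact lt_irrefl _ e3
  have hξκ : cd ξ.1 < π.κ := (lt_oc π.κl).mp ξ.2
  obtain ⟨p, hp⟩ := RO.ne_bot_iff.mp e2
  obtain ⟨r, r1, r2⟩ := (H ξ hξκ).claim3 (e1 p hp)
  let Z : Set (Iio (oc l π.μ) × R) :=
    {q | ∃ p' ≤ r, p' ∈ A ξ q.1 ∧ q.2.1 = PP.res (Aκ π (Iio α)) (Iio α) p'}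
  have r3 : r ∈ v Z ξ := by
    refine RO.io_le.mp (le_sSup fun η hη => io_inf_eq fun s hs => ⟨fun h => ?_, fun h => ?_⟩)
    · exact RO.mono (RO.mem_hull_of_mem ⟨(lt_oc π.μl).mpr hη, ⟨s, rfl⟩, s, hs, h, rfl⟩) (le_res s)
    · refine RO.of_dense fun s' hs' => ?_
      obtain ⟨s₁, f1, _, ⟨_, _, p', f2, f3, rfl⟩, f4⟩ := h s' hs'
      obtain ⟨s₂, f5, f6 | f6⟩ := RO.decide_dense (A ξ η) s₁
      · exact ⟨s₂, f5.trans f1, f6⟩
      · obtain ⟨s₃, f7, p'', f8, f9⟩ := exists_amal hA (f5.trans f4)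
        exact absurd ⟨p'', f8.trans f2, s₃, f7.trans (f5.trans (f1.trans (hs'.trans hs))), f9, η, hη,
          RO.mono f3 f8, RO.mono f6 f7⟩ r2
  obtain ⟨ξ', g1, g2⟩ := e4 Z ξ (RO.ne_bot_iff.mpr ⟨r, RO.mem_inf.mpr ⟨RO.mono hp r1, r3⟩⟩)
  refine g2 (hD ξ ξ' hξκ ((lt_oc π.κl).mp ξ'.2) (fun e => hξ (Subtype.ext e ▸ g1)) _
    (inf_le_left.trans (inf_le_left.trans (e1.trans b1))) fun η hη => ?_)
  rw [inf_eq_of_le (inf_le_left.trans inf_le_right) (hv Z ξ η hη),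
    inf_eq_of_le inf_le_right (hv Z ξ' η hη)]

end Pool.Agent.Lib.MP_4847d9_lc
end

-- part Pool.Agent.Lib.MP_4847d9_lc.Final
section

/-! The model. -/

namespace Pool.Agent.Lib.MP_4847d9_lc

open Pool.Agent.Shared.Forcing Cardinal Set

universe u

theorem model_of_inacc {θ κ c : Cardinal.{u}} (hθ : θ.IsInaccessible) (hκ : κ.IsInaccessible)
    (hc : c.IsInaccessible) (h1 : θ < κ) (h2 : κ < c) (n : ℕ) (hn : 2 ≤ n) :
    ∃ (M : Type (u + 1)) (E : M → M → Prop), ModelZFC E ∧ GCH E ∧ ∃ a : ℕ → M,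
      (∀ i ≤ n, IsAleph E i (a i)) ∧ (∀ i < n, KH E (a n) (a i)) ∧ ¬ KHlt E (a n) (a n) := by
  obtain ⟨l, ⟨l1, l2⟩, l3⟩ := (wellFounded_lt (α := Cardinal.{u})).has_min
    {l | κ < l ∧ l.IsInaccessible} ⟨c, h2, hc⟩
  have : Fact l.IsInaccessible := ⟨l2⟩
  obtain ⟨m, rfl⟩ := Nat.exists_eq_add_of_le' hn
  let π : Par l := ⟨θ, κ, m, hθ, hκ, h1, l1, fun c a b h => l3 c ⟨a, h⟩ b⟩
  obtain ⟨U, -⟩ := Ultra.exists_mem (RO.io_ne_bot (⟨Cond.empty, Q.top _ _⟩ : PP π))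
  refine ⟨Md l U, El l U, main_model (π.m + 2) (al π) cardStr rfl al_spec ?_ (θ := π.θ) ?_ ?_ ?_ U⟩
  · rw [al_μ, al_κ]; exact khData
  · rw [al_μ]; exact nice_succ (π.R_ρ le_rfl)
  · rw [al_μ]; exact π.θμ
  · rw [al_μ, al_κ]; exact noFam

theorem univ_lt_one : Cardinal.univ.{0, 3} < Cardinal.univ.{1, 3} := by
  have := lift_lt_univ'.{1, 3} Cardinal.univ.{0, 1}
  rwa [lift_univ] at this

theorem univ_lt_two : Cardinal.univ.{1, 3} < Cardinal.univ.{2, 3} := by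
  have := lift_lt_univ'.{2, 3} Cardinal.univ.{1, 2}
  rwa [lift_univ] at this

theorem model (n : ℕ) (hn : 2 ≤ n) :
    ∃ (M : Type 4) (E : M → M → Prop), ModelZFC E ∧ GCH E ∧ ∃ a : ℕ → M,
      (∀ i ≤ n, IsAleph E i (a i)) ∧ (∀ i < n, KH E (a n) (a i)) ∧ ¬ KHlt E (a n) (a n) :=
  model_of_inacc IsInaccessible.univ IsInaccessible.univ IsInaccessible.univ univ_lt_one
    univ_lt_two n hn

end Pool.Agent.Lib.MP_4847d9_lc
end
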