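import Pool.Agent.Shared.Forcing.Cut

-- part Pool.Agent.Lib.MP_4847d9_lc.Tree
section

/-! Boolean-valued thin families: the side conditions of the Kurepa forcing. -/

namespace Pool.Agent.Lib.MP_4847d9_lc

open Pool.Agent.Shared.Forcing Cardinal Set

universe u v

structure QP (l : Cardinal.{u}) where
  θ : Cardinal.{u}
  μ : Cardinal.{u}
  κ : Cardinal.{u}
  Λ : Set Cardinal.{u}
  θ0 : ℵ₀ ≤ θ
  μreg : μ.IsRegular
  μl : μ < l
  θμ : θ < μ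
  Λθ : ∀ σ ∈ Λ, θ ≤ σ

variable {l : Cardinal.{u}} {B : Type u} [CompleteBooleanAlgebra B]

theorem eq_bot_of_dense {x : B} (h : ∀ b ≤ x, b ≠ ⊥ → False) : x = ⊥ := by
  by_contra hn
  exact h x le_rfl hn

theorem inf_eq_of_le {b b' x y : B} (hb : b' ≤ b) (h : b ⊓ x = b ⊓ y) : b' ⊓ x = b' ⊓ y := by
  rw [← inf_eq_left.mpr hb, inf_assoc, h, ← inf_assoc]

theorem le_of_predense {ι : Type v} {c : ι → B} (hc : ∀ b, b ≠ ⊥ → ∃ i, b ⊓ c i ≠ ⊥) {x y : B}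
    (h : ∀ i, c i ⊓ x ≤ y) : x ≤ y :=
  le_of_dense fun b hb hb0 => by
    obtain ⟨i, hi⟩ := hc b hb0
    exact fun e => hi (le_bot_iff.mp ((le_inf inf_le_left
      ((le_inf inf_le_right (inf_le_left.trans hb)).trans (h i))).trans e.le))

theorem eq_of_predense {ι : Type v} {c : ι → B} (hc : ∀ b, b ≠ ⊥ → ∃ i, b ⊓ c i ≠ ⊥) {x y : B}
    (h : ∀ i, c i ⊓ x = c i ⊓ y) : x = y :=
  le_antisymm (le_of_predense hc fun i => (h i).le.trans inf_le_right)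
    (le_of_predense hc fun i => (h i).ge.trans inf_le_right)

/-- `f ↾ y` is forced to be among the `a ↾ y`, `a ∈ A` -/
def GenOn (y : Set (OT l)) (A : Set (OT l → B)) (f : OT l → B) : Prop :=
  ∀ b, b ≠ ⊥ → ∃ b' ≤ b, b' ≠ ⊥ ∧ ∃ a ∈ A, ∀ η ∈ y, b' ⊓ f η = b' ⊓ a η

theorem GenOn.of_eq {y : Set (OT l)} {A : Set (OT l → B)} {f a : OT l → B} (ha : a ∈ A)
    (h : ∀ η ∈ y, f η = a η) : GenOn y A f :=
  fun b hb => ⟨b, le_rfl, hb, a, ha, fun η hη => by rw [h η hη]⟩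

theorem GenOn.of_mem {y : Set (OT l)} {A : Set (OT l → B)} {f : OT l → B} (h : f ∈ A) :
    GenOn y A f := GenOn.of_eq h fun _ _ => rfl

theorem GenOn.trans {y y' : Set (OT l)} {A A' : Set (OT l → B)} {f : OT l → B} (h : GenOn y A f)
    (hy : y' ⊆ y) (h' : ∀ a ∈ A, GenOn y' A' a) : GenOn y' A' f := by
  intro b hb
  obtain ⟨b', a1, a2, a, a3, a4⟩ := h b hb
  obtain ⟨b'', b1, b2, a', b3, b4⟩ := h' a a3 b' a2
  exact ⟨b'', b1.trans a1, b2, a', b3, fun η hη =>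
    (inf_eq_of_le b1 (a4 η (hy hη))).trans (b4 η hη)⟩

theorem GenOn.mono {y y' : Set (OT l)} {A A' : Set (OT l → B)} {f : OT l → B} (h : GenOn y A f)
    (hy : y' ⊆ y) (hA : A ⊆ A') : GenOn y' A' f :=
  h.trans hy fun _ ha => GenOn.of_mem (hA ha)

theorem GenOn.congr {y : Set (OT l)} {A : Set (OT l → B)} {f f' : OT l → B} (h : GenOn y A f)
    (e : ∀ η ∈ y, f' η = f η) : GenOn y A f' :=
  (GenOn.of_eq (mem_singleton f) e).trans subset_rfl (by rintro _ rfl; exact h)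

/-- enlarging the set of coordinates by coordinates where everything vanishes -/
theorem GenOn.extend {y y' : Set (OT l)} {A : Set (OT l → B)} {f : OT l → B} (h : GenOn y A f)
    (h1 : ∀ η ∈ y', η ∉ y → f η = ⊥) (h2 : ∀ a ∈ A, ∀ η ∈ y', η ∉ y → a η = ⊥) : GenOn y' A f := by
  intro b hb
  obtain ⟨b', a1, a2, a, a3, a4⟩ := h b hb
  refine ⟨b', a1, a2, a, a3, fun η hη => ?_⟩
  by_cases e : η ∈ y
  · exact a4 η e
  · rw [h1 η hη e, h2 a a3 η hη e]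

theorem GenOn.eq_bot {y : Set (OT l)} {A : Set (OT l → B)} {f : OT l → B} (h : GenOn y A f)
    {η : OT l} (hη : η ∈ y) (h' : ∀ a ∈ A, a η = ⊥) : f η = ⊥ := by
  refine eq_bot_of_dense fun b hb hb0 => ?_
  obtain ⟨b', a1, a2, a, a3, a4⟩ := h b hb0
  have := a4 η hη
  rw [h' a a3, inf_bot_eq, inf_eq_left.mpr (a1.trans hb)] at this
  exact a2 this

theorem GenOn.of_predense {y : Set (OT l)} {A : Set (OT l → B)} {f : OT l → B} {ι : Type v}
    {c : ι → B} (hc : ∀ b, b ≠ ⊥ → ∃ i, b ⊓ c i ≠ ⊥)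
    (h : ∀ i, ∃ a ∈ A, ∀ η ∈ y, c i ⊓ f η = c i ⊓ a η) : GenOn y A f := by
  intro b hb
  obtain ⟨i, hi⟩ := hc b hb
  obtain ⟨a, a1, a2⟩ := h i
  exact ⟨_, inf_le_left, hi, a, a1, fun η hη => inf_eq_of_le inf_le_right (a2 η hη)⟩

variable (π : QP l) (B)

/-- thin families of names of subsets of `β` -/
structure Tr : Type u where
  β : OT l
  T : Set (OT l → B)
  hβ : cd β < π.μ
  supp : ∀ f ∈ T, ∀ η, β ≤ η → f η = ⊥
  gen : ∀ f, GenOn univ T f → f ∈ T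
  zero : (fun _ => ⊥) ∈ T
  thin : ∀ σ ∈ π.Λ, ∀ y : Set (OT l), #y ≤ σ → ∃ A : Set (OT l → B), #A ≤ σ ∧ ∀ f ∈ T, GenOn y A f

variable {π B}

namespace Tr

theorem ext' {s t : Tr B π} (h1 : s.β = t.β) (h2 : s.T = t.T) : s = t := by
  cases s; cases t; congr

/-- end extension -/
structure Le (s t : Tr B π) : Prop where
  β : t.β ≤ s.β
  sub : t.T ⊆ s.T
  res : ∀ f ∈ s.T, GenOn (Iio t.β) t.T f

theorem Le.refl (t : Tr B π) : Le t t := ⟨le_rfl, subset_rfl, fun _ h => GenOn.of_mem h⟩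

theorem Le.trans {r s t : Tr B π} (h : Le r s) (h' : Le s t) : Le r t :=
  ⟨h'.β.trans h.β, h'.sub.trans h.sub, fun f hf => (h.res f hf).trans (Iio_subset_Iio h'.β) h'.res⟩

def ofGen (β : OT l) (S : Set (OT l → B)) (hβ : cd β < π.μ) (supp : ∀ f ∈ S, ∀ η, β ≤ η → f η = ⊥)
    (zero : (fun _ => ⊥) ∈ S) (thin : ∀ σ ∈ π.Λ, ∀ y : Set (OT l), #y ≤ σ →
      ∃ A : Set (OT l → B), #A ≤ σ ∧ ∀ f ∈ S, GenOn y A f) : Tr B π where
  β := β
  T := {f | GenOn univ S f}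
  hβ := hβ
  supp := fun _ hf η hη => hf.eq_bot (mem_univ η) fun a ha => supp a ha η hη
  gen := fun _ hf => hf.trans subset_rfl fun _ ha => ha
  zero := GenOn.of_mem zero
  thin := fun σ hσ y hy => by
    obtain ⟨A, h1, h2⟩ := thin σ hσ y hy
    exact ⟨A, h1, fun f hf => hf.trans (subset_univ _) h2⟩

theorem ofGen_le {β : OT l} {S : Set (OT l → B)} {hβ supp zero thin} {t : Tr B π} (h1 : t.β ≤ β)
    (h2 : t.T ⊆ S) (h3 : ∀ f ∈ S, GenOn (Iio t.β) t.T f) :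
    Le (ofGen β S hβ supp zero thin) t :=
  ⟨h1, fun _ hf => GenOn.of_mem (h2 hf), fun _ hf => hf.trans (subset_univ _) h3⟩

theorem exists_ext (t : Tr B π) {β : OT l} (hβ : cd β < π.μ) (h : t.β ≤ β) (f : OT l → B)
    (h1 : ∀ η, β ≤ η → f η = ⊥) (h2 : GenOn (Iio t.β) t.T f) :
    ∃ s : Tr B π, Le s t ∧ s.β = β ∧ f ∈ s.T := by
  refine ⟨ofGen β (insert f t.T) hβ ?_ (mem_insert_of_mem _ t.zero) ?_,
    ofGen_le h (subset_insert _ _) ?_, rfl, GenOn.of_mem (mem_insert _ _)⟩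
  · rintro g (rfl | hg) η hη
    exacts [h1 η hη, t.supp g hg η (h.trans hη)]
  · intro σ hσ y hy
    obtain ⟨A, a1, a2⟩ := t.thin σ hσ y hy
    have hσ0 : ℵ₀ ≤ σ := π.θ0.trans (π.Λθ σ hσ)
    refine ⟨insert f A, mk_insert_le.trans ((add_le_add_left a1 1).trans (add_one_eq hσ0).le), ?_⟩
    rintro g (rfl | hg)
    exacts [GenOn.of_mem (mem_insert _ _), (a2 g hg).mono subset_rfl (subset_insert _ _)]
  · rintro g (rfl | hg)
    exacts [h2, GenOn.of_mem hg]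

end Tr

variable (B π) in
/-- conditions of the Kurepa forcing -/
structure Q : Type u where
  tr : Tr B π
  D : Set (OT l)
  q : OT l → OT l → B
  hD : #D < π.μ
  hDκ : ∀ ν ∈ D, cd ν < π.κ
  hq : ∀ ν, q ν ∈ tr.T
  hq0 : ∀ ν, ν ∉ D → ∀ η, q ν η = ⊥

namespace Q

theorem ext' {s t : Q B π} (h1 : s.tr = t.tr) (h2 : s.D = t.D) (h3 : s.q = t.q) : s = t := by
  cases s; cases t; congr

theorem q_supp (t : Q B π) (ν : OT l) {η : OT l} (h : t.tr.β ≤ η) : t.q ν η = ⊥ :=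
  t.tr.supp _ (t.hq ν) η h

/-- `s` extends `t` below the Boolean value `b` -/
structure Le (b : B) (s t : Q B π) : Prop where
  tr : s.tr.Le t.tr
  D : t.D ⊆ s.D
  agree : ∀ ν ∈ t.D, ∀ η < t.tr.β, b ⊓ s.q ν η = b ⊓ t.q ν η
  disj : ∀ ν ∈ t.D, ∀ ν' ∈ t.D, ν ≠ ν' → ∀ η, t.tr.β ≤ η → b ⊓ s.q ν η ⊓ s.q ν' η = ⊥

theorem Le.of_agree {b : B} {s t : Q B π} (h1 : s.tr = t.tr) (h2 : t.D ⊆ s.D)
    (h3 : ∀ ν ∈ t.D, ∀ η, b ⊓ s.q ν η = b ⊓ t.q ν η) : Le b s t :=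
  ⟨h1 ▸ Tr.Le.refl _, h2, fun ν hν η _ => h3 ν hν η, fun ν _ ν' _ _ η hη => by
    rw [s.q_supp ν' (h1 ▸ hη), inf_bot_eq]⟩

theorem Le.refl (b : B) (t : Q B π) : Le b t t := Le.of_agree rfl subset_rfl fun _ _ _ => rfl

theorem Le.mono {b b' : B} {s t : Q B π} (h : Le b s t) (hb : b' ≤ b) : Le b' s t :=
  ⟨h.tr, h.D, fun ν hν η hη => inf_eq_of_le hb (h.agree ν hν η hη), fun ν hν ν' hν' e η hη =>
    le_bot_iff.mp ((inf_le_inf_right _ (inf_le_inf_right _ hb)).trans (h.disj ν hν ν' hν' e η hη).le)⟩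

theorem Le.trans {b : B} {r s t : Q B π} (h : Le b r s) (h' : Le b s t) : Le b r t := by
  refine ⟨h.tr.trans h'.tr, h'.D.trans h.D, fun ν hν η hη =>
    (h.agree ν (h'.D hν) η (hη.trans_le h'.tr.β)).trans (h'.agree ν hν η hη),
    fun ν hν ν' hν' e η hη => ?_⟩
  rcases lt_or_ge η s.tr.β with h1 | h1
  · have e1 := h.agree ν (h'.D hν) η h1
    have e2 := h.agree ν' (h'.D hν') η h1
    rw [inf_inf_distrib_left' , e1, e2, ← inf_inf_distrib_left']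
    exact h'.disj ν hν ν' hν' e η hη
  · exact h.disj ν (h'.D hν) ν' (h'.D hν') e η h1
where
  inf_inf_distrib_left' {a b c : B} : a ⊓ b ⊓ c = (a ⊓ b) ⊓ (a ⊓ c) := by
    rw [← inf_inf_distrib_left, inf_assoc]

theorem Le.of_predense {ι : Type v} {c : ι → B} (hc : ∀ b, b ≠ ⊥ → ∃ i, b ⊓ c i ≠ ⊥)
    {s t : Q B π} (h1 : s.tr.Le t.tr) (h2 : t.D ⊆ s.D) (h : ∀ i, Le (c i) s t) : Le ⊤ s t :=
  ⟨h1, h2, fun ν hν η hη => by
    rw [eq_of_predense hc fun i => (h i).agree ν hν η hη], fun ν hν ν' hν' e η hη => by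
    rw [top_inf_eq]
    exact le_bot_iff.mp (le_of_predense hc fun i => by
      rw [← inf_assoc]; exact ((h i).disj ν hν ν' hν' e η hη).le)⟩

def addDom (D : Set (OT l)) (h1 : #D < π.μ) (h2 : ∀ ν ∈ D, cd ν < π.κ) (t : Q B π) : Q B π where
  tr := t.tr
  D := t.D ∪ D
  q := t.q
  hD := (mk_union_le _ _).trans_lt (add_lt_of_lt π.μreg.aleph0_le t.hD h1)
  hDκ := fun ν h => h.elim (t.hDκ ν) (h2 ν)
  hq := t.hq
  hq0 := fun ν h => t.hq0 ν fun h' => h (Or.inl h')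

theorem addDom_le (b : B) (D : Set (OT l)) (h1 h2) (t : Q B π) : Le b (addDom D h1 h2 t) t :=
  Le.of_agree rfl subset_union_left fun _ _ _ => rfl

open Classical in
noncomputable def res (X : Set (OT l)) (t : Q B π) : Q B π where
  tr := t.tr
  D := t.D ∩ X
  q := fun ν => if ν ∈ X then t.q ν else fun _ => ⊥
  hD := (mk_le_mk_of_subset inter_subset_left).trans_lt t.hD
  hDκ := fun ν h => t.hDκ ν h.1
  hq := fun ν => by split_ifs; exacts [t.hq ν, t.tr.zero]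
  hq0 := fun ν h η => by
    split_ifs with h'
    exacts [t.hq0 ν (fun e => h ⟨e, h'⟩) η, rfl]

theorem res_q {X : Set (OT l)} (t : Q B π) {ν : OT l} (h : ν ∈ X) : (res X t).q ν = t.q ν :=
  if_pos h

theorem res_q' {X : Set (OT l)} (t : Q B π) {ν : OT l} (h : ν ∉ X) :
    (res X t).q ν = fun _ => ⊥ := if_neg h

theorem res_ext {X : Set (OT l)} {s t : Q B π} (h1 : s.tr = t.tr) (h2 : s.D ∩ X = t.D ∩ X)
    (h3 : ∀ ν ∈ X, s.q ν = t.q ν) : res X s = res X t :=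
  ext' h1 h2 (funext fun ν => by
    by_cases h : ν ∈ X
    · rw [res_q _ h, res_q _ h, h3 ν h]
    · rw [res_q' _ h, res_q' _ h])

theorem q_eq_of_res {X : Set (OT l)} {s t : Q B π} (h : res X s = res X t) {ν : OT l}
    (hν : ν ∈ X) : s.q ν = t.q ν := by
  rw [← res_q s hν, h, res_q t hν]

theorem le_res (b : B) (X : Set (OT l)) (t : Q B π) : Le b t (res X t) :=
  Le.of_agree rfl inter_subset_left fun _ hν _ => by rw [res_q _ hν.2]

theorem res_le (b : B) {X : Set (OT l)} {t : Q B π} (h : t.D ⊆ X) : Le b (res X t) t :=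
  Le.of_agree rfl (subset_inter subset_rfl h) fun _ hν _ => by rw [res_q _ (h hν)]

theorem Le.res {b : B} {s t : Q B π} (h : Le b s t) (X : Set (OT l)) :
    Le b (res X s) (res X t) :=
  ⟨h.tr, inter_subset_inter_left _ h.D, fun ν hν η hη => by
    rw [res_q _ hν.2, res_q _ hν.2]; exact h.agree ν hν.1 η hη, fun ν hν ν' hν' e η hη => by
    rw [res_q _ hν.2, res_q _ hν'.2]; exact h.disj ν hν.1 ν' hν'.1 e η hη⟩

theorem res_res {X Y : Set (OT l)} (h : Y ⊆ X) (t : Q B π) : res Y (res X t) = res Y t :=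
  res_ext rfl (by show t.D ∩ X ∩ Y = _; rw [inter_assoc, inter_eq_right.mpr h])
    fun _ hν => res_q _ (h hν)

theorem res_univ (t : Q B π) : res univ t = t :=
  ext' rfl (inter_univ _) (funext fun _ => res_q _ (mem_univ _))

theorem res_congr {X Y : Set (OT l)} {t : Q B π} (h : t.D ∩ X = t.D ∩ Y) : res X t = res Y t := by
  refine ext' rfl h (funext fun ν => ?_)
  by_cases hν : ν ∈ t.D
  · have : ν ∈ X ↔ ν ∈ Y := by simpa [hν] using Set.ext_iff.mp h ν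
    by_cases hX : ν ∈ X
    · rw [res_q _ hX, res_q _ (this.mp hX)]
    · rw [res_q' _ hX, res_q' _ (fun e => hX (this.mpr e))]
  · exact funext fun η => ((res X t).hq0 ν (fun e => hν e.1) η).trans
      ((res Y t).hq0 ν (fun e => hν e.1) η).symm

open Classical in
/-- the `X`-part of `r` together with the remaining part of `p` -/
noncomputable def amal (X : Set (OT l)) (r p : Q B π) : Q B π where
  tr := r.tr
  D := r.D
  q := fun ν => if ν ∉ X ∧ ν ∈ r.D ∧ p.q ν ∈ r.tr.T then p.q ν else r.q ν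
  hD := r.hD
  hDκ := r.hDκ
  hq := fun ν => by
    split_ifs with h
    exacts [h.2.2, r.hq ν]
  hq0 := fun ν h η => by
    rw [if_neg fun h' => h h'.2.1]
    exact r.hq0 ν h η

theorem amal_q {X : Set (OT l)} (r p : Q B π) {ν : OT l} (h : ν ∈ X) : (amal X r p).q ν = r.q ν :=
  if_neg fun h' => h'.1 h

theorem res_amal (X : Set (OT l)) (r p : Q B π) : res X (amal X r p) = res X r :=
  res_ext rfl rfl fun _ h => amal_q _ _ h

theorem amal_le {b : B} {X : Set (OT l)} {r p : Q B π} (h : Le b r (res X p)) (hD : p.D ⊆ r.D) :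
    Le b (amal X r p) p := by
  have key : ∀ ν ∈ p.D, ν ∉ X → (amal X r p).q ν = p.q ν := fun ν hν hX =>
    if_pos ⟨hX, hD hν, h.tr.sub (p.hq ν)⟩
  refine ⟨h.tr, hD, fun ν hν η hη => ?_, fun ν hν ν' hν' e η hη => ?_⟩
  · by_cases hX : ν ∈ X
    · rw [amal_q _ _ hX, h.agree ν ⟨hν, hX⟩ η hη, res_q _ hX]
    · rw [key ν hν hX]
  · by_cases hX : ν ∈ X
    · by_cases hX' : ν' ∈ X
      · rw [amal_q _ _ hX, amal_q _ _ hX']
        exact h.disj ν ⟨hν, hX⟩ ν' ⟨hν', hX'⟩ e η hη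
      · rw [key ν' hν' hX', p.q_supp ν' hη, inf_bot_eq]
    · rw [key ν hν hX, p.q_supp ν hη, inf_bot_eq, bot_inf_eq]

open Classical in
/-- `s` below `b`, and `t` below the complement of `b` -/
noncomputable def mix (b : B) (s t : Q B π) : Q B π where
  tr := s.tr
  D := s.D
  q := fun ν => if ν ∈ s.D ∧ t.q ν ∈ s.tr.T then fun η => b ⊓ s.q ν η ⊔ bᶜ ⊓ t.q ν η else s.q ν
  hD := s.hD
  hDκ := s.hDκ
  hq := fun ν => by
    split_ifs with h
    · refine s.tr.gen _ (GenOn.of_predense (c := fun i : Bool => if i then b else bᶜ) ?_ ?_)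
      · intro d hd
        by_cases e : d ⊓ b = ⊥
        · refine ⟨false, fun e' => hd ?_⟩
          rw [← inf_top_eq d, ← sup_compl_eq_top (x := b), inf_sup_left, e, bot_sup_eq]
          exact e'
        · exact ⟨true, e⟩
      · rintro (_ | _)
        · exact ⟨_, h.2, fun η _ => by simp [inf_sup_left, ← inf_assoc]⟩
        · exact ⟨_, s.hq ν, fun η _ => by simp [inf_sup_left, ← inf_assoc]⟩
    · exact s.hq ν
  hq0 := fun ν h η => by
    rw [if_neg fun h' => h h'.1]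
    exact s.hq0 ν h η

theorem mix_q (b : B) (s t : Q B π) (ν η : OT l) : b ⊓ (mix b s t).q ν η = b ⊓ s.q ν η := by
  simp only [mix]
  split_ifs
  · simp [inf_sup_left, ← inf_assoc]
  · rfl

theorem mix_le (b : B) (s t : Q B π) : Le b (mix b s t) s :=
  Le.of_agree rfl subset_rfl fun ν _ η => mix_q b s t ν η

theorem mix_le_top {b : B} {s t : Q B π} (h : Le b s t) : Le ⊤ (mix b s t) t := by
  have key : ∀ ν ∈ t.D, ∀ η, (mix b s t).q ν η = b ⊓ s.q ν η ⊔ bᶜ ⊓ t.q ν η := fun ν hν η =>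
    congrFun (if_pos ⟨h.D hν, h.tr.sub (t.hq ν)⟩) η
  refine ⟨h.tr, h.D, fun ν hν η hη => ?_, fun ν hν ν' hν' e η hη => ?_⟩
  · rw [key ν hν, h.agree ν hν η hη, ← inf_sup_right, sup_compl_eq_top, top_inf_eq]
  · rw [key ν hν, key ν' hν', t.q_supp ν hη, t.q_supp ν' hη, inf_bot_eq, sup_bot_eq, sup_bot_eq,
      top_inf_eq]
    exact le_bot_iff.mp ((inf_le_inf_left _ inf_le_right).trans (h.disj ν hν ν' hν' e η hη).le)

theorem res_mix {X : Set (OT l)} (b : B) {s s' t t' : Q B π} (h1 : res X s = res X s')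
    (h2 : s.D = s'.D) (h3 : res X t = res X t') : res X (mix b s t) = res X (mix b s' t') := by
  have e : s.tr = s'.tr := (congrArg Q.tr h1 : (res X s).tr = (res X s').tr)
  refine res_ext e (congrArg (· ∩ X) h2) fun ν hν => ?_
  simp only [mix]
  rw [e, h2, q_eq_of_res h1 hν, q_eq_of_res h3 hν]

theorem exists_mix {ι : Type v} {c : ι → B} (hc : ∀ b, b ≠ ⊥ → ∃ i, b ⊓ c i ≠ ⊥)
    (hd : ∀ i j, i ≠ j → c i ⊓ c j = ⊥) (t₀ : Q B π) (t : ι → Q B π) (h1 : ∀ i, (t i).tr = t₀.tr)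
    (h2 : ∀ i, (t i).D = t₀.D) : ∃ s : Q B π, s.tr = t₀.tr ∧ s.D = t₀.D ∧
      ∀ i ν η, c i ⊓ s.q ν η = c i ⊓ (t i).q ν η := by
  have key : ∀ i ν η, c i ⊓ (⨆ j, c j ⊓ (t j).q ν η) = c i ⊓ (t i).q ν η := by
    intro i ν η
    refine le_antisymm ?_ (le_inf inf_le_left (le_iSup (fun j => c j ⊓ (t j).q ν η) i))
    rw [inf_iSup_eq]
    refine iSup_le fun j => ?_
    by_cases e : i = j
    · subst e; exact inf_le_right
    · rw [← inf_assoc, hd i j e, bot_inf_eq]; exact bot_le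
  refine ⟨⟨t₀.tr, t₀.D, fun ν η => ⨆ j, c j ⊓ (t j).q ν η, t₀.hD, t₀.hDκ, fun ν => ?_,
    fun ν hν η => ?_⟩, rfl, rfl, key⟩
  · exact t₀.tr.gen _ (GenOn.of_predense hc fun i =>
      ⟨_, h1 i ▸ (t i).hq ν, fun η _ => key i ν η⟩)
  · exact iSup_eq_bot.mpr fun j => by rw [(t j).hq0 ν (h2 j ▸ hν), inf_bot_eq]

/-- one branch is prolonged -/
theorem exists_ext (t : Q B π) {β : OT l} (hβ : cd β < π.μ) (h : t.tr.β ≤ β) (ν₀ : OT l)
    (f : OT l → B) (h1 : ∀ η, β ≤ η → f η = ⊥) (h2 : ∀ η < t.tr.β, f η = t.q ν₀ η)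
    (hν₀ : ν₀ ∈ t.D) : ∃ s : Q B π, Le ⊤ s t ∧ s.tr.β = β ∧ s.q ν₀ = f ∧
      ∀ ν, ν ≠ ν₀ → s.q ν = t.q ν := by
  classical
  obtain ⟨τ, a1, a2, a3⟩ := t.tr.exists_ext hβ h f h1 (GenOn.of_eq (t.hq ν₀) h2)
  refine ⟨⟨τ, t.D, Function.update t.q ν₀ f, t.hD, t.hDκ, fun ν => ?_, fun ν hν η => ?_⟩,
    ⟨a1, subset_rfl, fun ν _ η hη => ?_, fun ν _ ν' _ e η hη => ?_⟩, a2,
    Function.update_self _ _ _, fun ν hν => Function.update_of_ne hν _ _⟩
  · by_cases e : ν = ν₀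
    · rw [e, Function.update_self]; exact a3
    · rw [Function.update_of_ne e]; exact a1.sub (t.hq ν)
  · rw [Function.update_of_ne (fun e : ν = ν₀ => hν (e ▸ hν₀))]; exact t.hq0 ν hν η
  · show ⊤ ⊓ Function.update t.q ν₀ f ν η = _
    by_cases e : ν = ν₀
    · rw [e, Function.update_self, h2 η hη]
    · rw [Function.update_of_ne e]
  · show ⊤ ⊓ Function.update t.q ν₀ f ν η ⊓ Function.update t.q ν₀ f ν' η = _
    by_cases e' : ν = ν₀
    · rw [Function.update_of_ne (fun e'' => e (e'.trans e''.symm)), t.q_supp ν' hη, inf_bot_eq]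
    · rw [Function.update_of_ne e', t.q_supp ν hη, inf_bot_eq, bot_inf_eq]

theorem exists_raise (t : Q B π) {β : OT l} (hβ : cd β < π.μ) :
    ∃ s : Q B π, Le ⊤ s t ∧ β ≤ s.tr.β := by
  rcases le_total β t.tr.β with h | h
  · exact ⟨t, Le.refl _ _, h⟩
  obtain ⟨τ, a1, a2, -⟩ := t.tr.exists_ext hβ h _ (fun _ _ => rfl) (GenOn.of_mem t.tr.zero)
  exact ⟨⟨τ, t.D, t.q, t.hD, t.hDκ, fun ν => a1.sub (t.hq ν), t.hq0⟩,
    ⟨a1, subset_rfl, fun _ _ _ _ => rfl, fun ν _ ν' _ _ η hη => by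
      show ⊤ ⊓ t.q ν η ⊓ t.q ν' η = ⊥
      rw [t.q_supp ν' hη, inf_bot_eq]⟩, a2.ge⟩

end Q

end Pool.Agent.Lib.MP_4847d9_lc
end

-- part Pool.Agent.Lib.MP_4847d9_lc.Limit
section

/-! Limits of chains of conditions of the Kurepa forcing, and counting. -/

namespace Pool.Agent.Lib.MP_4847d9_lc

open Pool.Agent.Shared.Forcing Cardinal Set

universe u v

variable {l : Cardinal.{u}} {B : Type u} [CompleteBooleanAlgebra B] {π : QP l}

/-- antichains have size at most `θ` -/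
def BCC (B : Type u) [CompleteBooleanAlgebra B] (θ : Cardinal.{u}) : Prop :=
  ∀ (E : Type u) (f : E → B), (∀ e, f e ≠ ⊥) → (∀ e e', e ≠ e' → f e ⊓ f e' = ⊥) → #E ≤ θ

namespace Q

theorem exists_lim (hB : BCC B π.θ) {Z : Type u} [LinearOrder Z] [Nonempty Z] (hZ : #Z < π.μ)
    {I : Type u} [Nonempty I] (hI : #I ≤ π.θ) (t : I → Z → Q B π)
    (hτ : ∀ i j ζ, (t i ζ).tr = (t j ζ).tr) (h : ∀ i ζ ζ', ζ < ζ' → Le ⊤ (t i ζ') (t i ζ)) :
    ∃ s : I → Q B π, (∀ i j, (s i).tr = (s j).tr) ∧ (∀ i ζ, Le ⊤ (s i) (t i ζ)) ∧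
      (∀ i, (s i).D = ⋃ ζ, (t i ζ).D) ∧ ∀ i ν η, (s i).q ν η = ⨆ ζ, (t i ζ).q ν η := by
  obtain ⟨i₀⟩ := ‹Nonempty I›
  obtain ⟨ζ₀⟩ := ‹Nonempty Z›
  have h' : ∀ i ζ ζ', ζ ≤ ζ' → Le ⊤ (t i ζ') (t i ζ) := fun i ζ ζ' e =>
    e.lt_or_eq.elim (h i ζ ζ') fun e => e ▸ Le.refl _ _
  let τ : Z → Tr B π := fun ζ => (t i₀ ζ).tr
  have hτ' : ∀ i ζ, (t i ζ).tr = τ ζ := fun i ζ => hτ i i₀ ζ
  have hle : ∀ ζ ζ', ζ ≤ ζ' → (τ ζ').Le (τ ζ) := fun ζ ζ' e => (h' i₀ ζ ζ' e).tr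
  obtain ⟨β, hβ1, hβ2⟩ := exists_bound π.μreg π.μl.le hZ (fun ζ => (τ ζ).β) fun ζ => (τ ζ).hβ
  let F : I → OT l → OT l → B := fun i ν η => ⨆ ζ, (t i ζ).q ν η
  have key0 : ∀ i ν η, (∀ ζ, (τ ζ).β ≤ η) → F i ν η = ⊥ := fun i ν η e =>
    iSup_eq_bot.mpr fun ζ => (t i ζ).q_supp ν (hτ' i ζ ▸ e ζ)
  have key0' : ∀ i ν η, (∀ ζ, ν ∉ (t i ζ).D) → F i ν η = ⊥ := fun i ν η e =>
    iSup_eq_bot.mpr fun ζ => (t i ζ).hq0 ν (e ζ) η
  have key1 : ∀ i ζ, ∀ ν ∈ (t i ζ).D, ∀ η < (τ ζ).β, F i ν η = (t i ζ).q ν η := by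
    intro i ζ ν hν η hη
    refine le_antisymm (iSup_le fun ζ' => ?_) (le_iSup (fun ζ => (t i ζ).q ν η) ζ)
    rcases le_total ζ ζ' with e | e
    · simpa using ((h' i ζ ζ' e).agree ν hν η (hτ' i ζ ▸ hη)).le
    · by_cases e1 : ν ∈ (t i ζ').D
      · rcases lt_or_ge η (t i ζ').tr.β with e2 | e2
        · simpa using ((h' i ζ' ζ e).agree ν e1 η e2).ge
        · rw [(t i ζ').q_supp ν e2]; exact bot_le
      · rw [(t i ζ').hq0 ν e1]; exact bot_le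
  have key2 : ∀ i ζ, ∀ ν ∈ (t i ζ).D, ∀ ν' ∈ (t i ζ).D, ν ≠ ν' → ∀ η, (τ ζ).β ≤ η →
      F i ν η ⊓ F i ν' η = ⊥ := by
    intro i ζ ν hν ν' hν' e η hη
    by_cases e1 : ∀ ζ', (τ ζ').β ≤ η
    · rw [key0 i ν η e1, bot_inf_eq]
    · push Not at e1
      obtain ⟨ζ', e1⟩ := e1
      have e2 : ζ ≤ ζ' := le_of_not_gt fun e2 => (hη.trans_lt e1).not_ge (hle ζ' ζ e2.le).β
      rw [key1 i ζ' ν ((h' i ζ ζ' e2).D hν) η e1, key1 i ζ' ν' ((h' i ζ ζ' e2).D hν') η e1]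
      simpa using (h' i ζ ζ' e2).disj ν hν ν' hν' e η (hτ' i ζ ▸ hη)
  let S : Set (OT l → B) := {f | (∃ ζ, f ∈ (τ ζ).T) ∨ ∃ i ν, f = F i ν}
  have hS0 : ∀ f ∈ S, ∀ η, (∀ ζ, (τ ζ).β ≤ η) → f η = ⊥ := by
    rintro f (⟨ζ, hf⟩ | ⟨i, ν, rfl⟩) η hη
    exacts [(τ ζ).supp f hf η (hη ζ), key0 i ν η hη]
  have hres : ∀ ζ, ∀ f ∈ S, GenOn (Iio (τ ζ).β) (τ ζ).T f := by
    have h1 : ∀ ζ ζ', ∀ f ∈ (τ ζ').T, GenOn (Iio (τ ζ).β) (τ ζ).T f := fun ζ ζ' f hf =>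
      (le_total ζ ζ').elim (fun e => (hle ζ ζ' e).res f hf)
        fun e => GenOn.of_mem ((hle ζ' ζ e).sub hf)
    rintro ζ f (⟨ζ', hf⟩ | ⟨i, ν, rfl⟩)
    · exact h1 ζ ζ' f hf
    · by_cases e : ∀ ζ, ν ∉ (t i ζ).D
      · exact GenOn.of_eq (τ ζ).zero fun η _ => key0' i ν η e
      · push Not at e
        obtain ⟨ζ', e⟩ := e
        have e' := (h' i ζ' (max ζ ζ') (le_max_right _ _)).D e
        exact (GenOn.of_eq (hτ' i _ ▸ (t i (max ζ ζ')).hq ν) (key1 i _ ν e')).trans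
          (Iio_subset_Iio (hle _ _ (le_max_left _ _)).β) (h1 ζ _)
  have hthin : ∀ σ ∈ π.Λ, ∀ y : Set (OT l), #y ≤ σ →
      ∃ A : Set (OT l → B), #A ≤ σ ∧ ∀ f ∈ S, GenOn y A f := by
    intro σ hσ y hy
    have hθσ := π.Λθ σ hσ
    have hσ0 : ℵ₀ ≤ σ := π.θ0.trans hθσ
    choose A hA1 hA2 using fun ζ => (τ ζ).thin σ hσ y hy
    by_cases hc : ∃ ζ, ∀ η ∈ y, (∃ ζ', η < (τ ζ').β) → η < (τ ζ).β
    · obtain ⟨ζ, hζ⟩ := hc
      refine ⟨A ζ, hA1 ζ, fun f hf => ((hres ζ f hf).extend (y' := y) (fun η hη e => ?_)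
        fun a ha η _ e => (τ ζ).supp a ha η (not_lt.mp e)).trans subset_rfl (hA2 ζ)⟩
      exact hS0 f hf η fun ζ' => not_lt.mp fun e' => e (hζ η hη ⟨ζ', e'⟩)
    · push Not at hc
      let Y := {η : y // ∃ ζ', η.1 < (τ ζ').β}
      let z : Y → Z := fun η => η.2.choose
      have hz : ∀ ζ, ∃ η : Y, ζ ≤ z η := by
        intro ζ
        obtain ⟨η, a1, a2, a3⟩ := hc ζ
        exact ⟨⟨⟨η, a1⟩, a2⟩, le_of_not_gt fun e =>
          (a3.trans_lt a2.choose_spec).not_ge (hle _ _ e.le).β⟩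
      let E : I → Z → y → Set (OT l) := fun i ζ η =>
        {ν | ν ∈ (t i ζ).D ∧ (τ ζ).β ≤ η.1 ∧ F i ν η ≠ ⊥}
      have hE : ∀ i ζ η, #(E i ζ η) ≤ π.θ := fun i ζ η =>
        hB _ (fun ν : E i ζ η => F i ν η) (fun ν => ν.2.2.2) fun ν ν' e =>
          key2 i ζ ν ν.2.1 ν' ν'.2.1 (fun e' => e (Subtype.ext e')) η ν.2.2.1
      have hY : #Y ≤ σ := (mk_subtype_le _).trans hy
      refine ⟨⋃ η₀ : Y, (A (z η₀) ∪ ⋃ i, ⋃ η : y, F i '' E i (z η₀) η), ?_, ?_⟩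
      · refine (mk_iUnion_le _).trans ((mul_le_mul' hY (ciSup_le' fun η₀ => ?_)).trans
          (mul_eq_self hσ0).le)
        refine (mk_union_le _ _).trans ((add_le_add (hA1 _) ?_).trans (add_eq_self hσ0).le)
        refine (mk_iUnion_le _).trans ((mul_le_mul' (hI.trans hθσ) (ciSup_le' fun i => ?_)).trans
          (mul_eq_self hσ0).le)
        exact (mk_iUnion_le _).trans ((mul_le_mul' hy (ciSup_le' fun η =>
          mk_image_le.trans ((hE _ _ _).trans hθσ))).trans (mul_eq_self hσ0).le)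
      · have h1 : ∀ ζ, ∀ f ∈ (τ ζ).T, GenOn y
            (⋃ η₀ : Y, (A (z η₀) ∪ ⋃ i, ⋃ η : y, F i '' E i (z η₀) η)) f := by
          intro ζ f hf
          obtain ⟨η₀, e⟩ := hz ζ
          exact (hA2 _ f ((hle _ _ e).sub hf)).mono subset_rfl
            fun a ha => mem_iUnion.mpr ⟨η₀, Or.inl ha⟩
        rintro f (⟨ζ, hf⟩ | ⟨i, ν, rfl⟩)
        · exact h1 ζ f hf
        · by_cases e : ∀ ζ, ν ∉ (t i ζ).D
          · exact (h1 ζ₀ _ (τ ζ₀).zero).congr fun η _ => key0' i ν η e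
          · push Not at e
            obtain ⟨ζ, e⟩ := e
            obtain ⟨η₀, e'⟩ := hz ζ
            have hν := (h' i _ _ e').D e
            by_cases e2 : ∃ η, ν ∈ E i (z η₀) η
            · obtain ⟨η, e2⟩ := e2
              exact GenOn.of_mem (mem_iUnion.mpr ⟨η₀, Or.inr (mem_iUnion.mpr ⟨i,
                mem_iUnion.mpr ⟨η, ν, e2, rfl⟩⟩)⟩)
            · refine (h1 (z η₀) _ (hτ' i _ ▸ (t i (z η₀)).hq ν)).congr fun η hη => ?_
              rcases lt_or_ge η (τ (z η₀)).β with e3 | e3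
              · exact key1 i _ ν hν η e3
              · rw [(t i (z η₀)).q_supp ν (hτ' i _ ▸ e3)]
                by_contra e4
                exact e2 ⟨⟨η, hη⟩, hν, e3, e4⟩
  let σ : Tr B π := Tr.ofGen β S hβ1 (fun f hf η hη => hS0 f hf η fun ζ => (hβ2 ζ).le.trans hη)
    (Or.inl ⟨ζ₀, (τ ζ₀).zero⟩) hthin
  have hσ : ∀ ζ, σ.Le (τ ζ) := fun ζ => Tr.ofGen_le (hβ2 ζ).le (fun f hf => Or.inl ⟨ζ, hf⟩) (hres ζ)
  refine ⟨fun i => ⟨σ, ⋃ ζ, (t i ζ).D, F i, mk_iUnion_le_sum_mk.trans_lt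
    (sum_lt_of_isRegular π.μreg hZ fun ζ => (t i ζ).hD), fun ν hν => ?_,
    fun ν => GenOn.of_mem (Or.inr ⟨i, ν, rfl⟩),
    fun ν hν η => key0' i ν η fun ζ e => hν (mem_iUnion.mpr ⟨ζ, e⟩)⟩, fun _ _ => rfl,
    fun i ζ => ⟨hτ' i ζ ▸ hσ ζ, subset_iUnion (fun ζ => (t i ζ).D) ζ, fun ν hν η hη => ?_,
      fun ν hν ν' hν' e η hη => ?_⟩, fun _ => rfl, fun _ _ _ => rfl⟩
  · obtain ⟨ζ, e⟩ := mem_iUnion.mp hν
    exact (t i ζ).hDκ ν e
  · exact congrArg (⊤ ⊓ ·) (key1 i ζ ν hν η (hτ' i ζ ▸ hη))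
  · rw [top_inf_eq]
    exact key2 i ζ ν hν ν' hν' e η (hτ' i ζ ▸ hη)

variable [hl : Fact l.IsInaccessible]

variable (B π) in
noncomputable def top : Q B π where
  tr := Tr.ofGen (oc l 0) {fun _ => ⊥} (by rw [cd_oc hl.out.pos]; exact π.μreg.pos)
    (by rintro _ rfl _ _; rfl) rfl fun σ hσ y _ => ⟨{fun _ => ⊥}, by
      rw [mk_singleton]; exact one_le_aleph0.trans (π.θ0.trans (π.Λθ σ hσ)),
      fun _ hf => GenOn.of_mem hf⟩
  D := ∅
  q := fun _ _ => ⊥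
  hD := by simpa using π.μreg.pos
  hDκ := fun _ h => h.elim
  hq := fun _ => GenOn.of_mem rfl
  hq0 := fun _ _ _ => rfl

theorem le_top (b : B) (t : Q B π) : Le b t (top B π) := by
  have h0 : ∀ η : OT l, oc l 0 ≤ η := fun η => (oc_le hl.out.pos).mpr zero_le
  refine ⟨⟨h0 _, fun f hf => t.tr.gen f (GenOn.mono hf subset_rfl ?_), fun f _ =>
    GenOn.of_eq (top B π).tr.zero fun η hη => absurd hη (not_lt.mpr (h0 η))⟩,
    empty_subset _, fun _ h => h.elim, fun _ h => h.elim⟩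
  rintro _ rfl
  exact t.tr.zero

theorem card_le {ρ τ : Cardinal.{u}} (hρ : π.μ = Order.succ ρ) (hτ0 : π.μ ≤ τ)
    (hτ : 2 ^ (#B ^ π.μ) ≤ τ) {X : Set (OT l)} (hX : #X ≤ τ) :
    #{t : Q B π | t.D ⊆ X} ≤ τ ^ ρ := by
  have hτ1 : ℵ₀ ≤ τ := π.μreg.aleph0_le.trans hτ0
  have hρ0 : ℵ₀ ≤ ρ := Order.lt_succ_iff.mp (hρ ▸ π.θ0.trans_lt π.θμ)
  let F : Set (OT l → B) := {f | ∀ η, oc l π.μ ≤ η → f η = ⊥}
  have hF : #F ≤ #B ^ π.μ := by
    refine le_trans (mk_le_of_injective (f := fun (f : F) (η : Iio (oc l π.μ)) => f.1 η) ?_) ?_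
    · intro f g e
      refine Subtype.ext (funext fun η => ?_)
      rcases lt_or_ge η (oc l π.μ) with h | h
      · exact congrFun e ⟨η, h⟩
      · rw [f.2 η h, g.2 η h]
    · rw [← power_def, mk_Iio_oc π.μl]
  have hF' : #F ≤ τ := hF.trans ((cantor _).le.trans hτ)
  have hT : ∀ t : Q B π, t.tr.T ⊆ F := fun t f hf η hη =>
    t.tr.supp f hf η (((lt_oc π.μl).mpr t.tr.hβ).le.trans hη)
  refine le_trans (mk_le_of_injective (f := fun t : {t : Q B π | t.D ⊆ X} =>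
    ((⟨t.1.tr.β, (lt_oc π.μl).mpr t.1.tr.hβ⟩, ⟨t.1.tr.T, hT _⟩,
      ⟨(fun ν => (ν, t.1.q ν)) '' t.1.D, ?_, ?_⟩) : Iio (oc l π.μ) × 𝒫 F ×
        {Z : Set (OT l × (OT l → B)) // Z ⊆ X ×ˢ F ∧ #Z ≤ ρ})) ?_) ?_
  · rintro _ ⟨ν, hν, rfl⟩
    exact ⟨t.2 hν, hT _ (t.1.hq ν)⟩
  · exact mk_image_le.trans (Order.lt_succ_iff.mp (hρ ▸ t.1.hD))
  · intro s t e
    simp only [Prod.mk.injEq, Subtype.mk.injEq] at e
    obtain ⟨e1, e2, e3⟩ := e
    have e4 : s.1.D = t.1.D := by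
      have := congrArg (image Prod.fst) e3
      simpa [image_image] using this
    refine Subtype.ext (ext' (Tr.ext' e1 e2) e4 (funext fun ν => ?_))
    by_cases hν : ν ∈ s.1.D
    · obtain ⟨ν', -, h⟩ := e3 ▸ mem_image_of_mem (fun ν => (ν, s.1.q ν)) hν
      obtain ⟨rfl, h⟩ := Prod.ext_iff.mp h
      exact h.symm
    · exact funext fun η => (s.1.hq0 ν hν η).trans (t.1.hq0 ν (e4 ▸ hν) η).symm
  · have h1 : τ ≤ τ ^ ρ := self_le_power _ (one_le_aleph0.trans hρ0)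
    have h2 : ℵ₀ ≤ τ ^ ρ := hτ1.trans h1
    rw [mk_prod, mk_prod, lift_id, lift_id, lift_id, lift_id, mk_Iio_oc π.μl, mk_powerset]
    refine (mul_le_mul' (hτ0.trans h1) ((mul_le_mul' (((power_le_power_left two_ne_zero hF).trans
      hτ).trans h1) ((mk_bounded_subset_le _ _).trans (power_le_power_right (max_le ?_ hτ1)))).trans
      (mul_eq_self h2).le)).trans (mul_eq_self h2).le
    rw [mk_setProd]
    exact (mul_le_mul' hX hF').trans (mul_eq_self hτ1).le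

end Q

end Pool.Agent.Lib.MP_4847d9_lc
end

-- part Pool.Agent.Lib.MP_4847d9_lc.Cond
section

/-! A full support product of collapsing forcings. -/

namespace Pool.Agent.Lib.MP_4847d9_lc

open Pool.Agent.Shared.Forcing Cardinal Set

universe u v

variable {l : Cardinal.{u}}

/-- entries `(((z, γ), ξ), v)`: the collapsing map of `γ + 1` to `z` sends `ξ` to `v` -/
abbrev Ent (l : Cardinal.{u}) : Type u := ((OT l × OT l) × OT l) × OT l

structure Cond (Al : OT l × OT l → Prop) : Type u where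
  s : Set (Ent l)
  fn : ∀ k v v', (k, v) ∈ s → (k, v') ∈ s → v = v'
  ok : ∀ e ∈ s, Al e.1.1 ∧ e.1.2 < e.1.1.1 ∧ e.2 ≤ e.1.1.2
  sm : ∀ z, (cd z).IsRegular → #{e ∈ s | e.1.1.1 = z} < cd z

namespace Cond

variable {Al : OT l × OT l → Prop}

theorem ext' {g g' : Cond Al} (h : g.s = g'.s) : g = g' := by
  cases g; cases g'; congr

def empty : Cond Al where
  s := ∅
  fn := fun _ _ _ h => h.elim
  ok := fun _ h => h.elim
  sm := fun z hz => by simpa using hz.pos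

def restr (A : Set (OT l × OT l)) (g : Cond Al) : Cond Al where
  s := {e ∈ g.s | e.1.1 ∈ A}
  fn := fun k v v' h h' => g.fn k v v' h.1 h'.1
  ok := fun e h => g.ok e h.1
  sm := fun z hz => by
    refine lt_of_le_of_lt (mk_le_mk_of_subset fun e he => ?_) (g.sm z hz)
    exact ⟨he.1.1, he.2⟩

@[simp] theorem mem_restr {A : Set (OT l × OT l)} {g : Cond Al} {e : Ent l} :
    e ∈ (restr A g).s ↔ e ∈ g.s ∧ e.1.1 ∈ A := Iff.rfl

def union (g g' : Cond Al) (h : ∀ k v v', (k, v) ∈ g.s → (k, v') ∈ g'.s → v = v') : Cond Al where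
  s := g.s ∪ g'.s
  fn := by
    rintro k v v' (h1 | h1) (h2 | h2)
    exacts [g.fn k v v' h1 h2, h k v v' h1 h2, (h k v' v h2 h1).symm, g'.fn k v v' h1 h2]
  ok := fun e h => h.elim (g.ok e) (g'.ok e)
  sm := fun z hz => by
    refine lt_of_le_of_lt (mk_le_mk_of_subset fun e he => ?_)
      ((mk_union_le _ _).trans_lt (add_lt_of_lt hz.aleph0_le (g.sm z hz) (g'.sm z hz)))
    exact he.1.imp (fun h => ⟨h, he.2⟩) (fun h => ⟨h, he.2⟩)

def glue (A : Set (OT l × OT l)) (g g' : Cond Al) : Cond Al :=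
  union (restr A g) (restr Aᶜ g') fun _ _ _ h h' => absurd h.2 h'.2

@[simp] theorem mem_glue {A : Set (OT l × OT l)} {g g' : Cond Al} {e : Ent l} :
    e ∈ (glue A g g').s ↔ (e ∈ g.s ∧ e.1.1 ∈ A) ∨ (e ∈ g'.s ∧ e.1.1 ∉ A) := Iff.rfl

theorem glue_self (A : Set (OT l × OT l)) (g : Cond Al) : glue A g g = g :=
  ext' (Set.ext fun e => by rw [mem_glue]; tauto)

theorem restr_glue {A A' : Set (OT l × OT l)} (h : A' ⊆ A) (g g' : Cond Al) :
    restr A' (glue A g g') = restr A' g :=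
  ext' (Set.ext fun e => by
    simp only [mem_restr, mem_glue]
    exact ⟨fun ⟨h1, h2⟩ => h1.elim (fun h => ⟨h.1, h2⟩) fun h' => absurd (h h2) h'.2,
      fun ⟨h1, h2⟩ => ⟨Or.inl ⟨h1, h h2⟩, h2⟩⟩)

theorem restr_restr {A A' : Set (OT l × OT l)} (h : A' ⊆ A) (g : Cond Al) :
    restr A' (restr A g) = restr A' g :=
  ext' (Set.ext fun _ => ⟨fun ⟨h1, h2⟩ => ⟨h1.1, h2⟩, fun ⟨h1, h2⟩ => ⟨⟨h1, h h2⟩, h2⟩⟩)

theorem restr_univ (g : Cond Al) : restr univ g = g :=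
  ext' (Set.ext fun _ => ⟨fun h => h.1, fun h => ⟨h, trivial⟩⟩)

/-- `k` is not in the domain -/
def Free (g : Cond Al) (k : (OT l × OT l) × OT l) : Prop := ∀ v, (k, v) ∉ g.s

def single (e : Ent l) (h : Al e.1.1 ∧ e.1.2 < e.1.1.1 ∧ e.2 ≤ e.1.1.2) : Cond Al where
  s := {e}
  fn := fun _ _ _ h1 h2 => (Prod.ext_iff.mp (h1.trans h2.symm)).2
  ok := by rintro _ rfl; exact h
  sm := fun z hz => (mk_le_mk_of_subset (sep_subset _ _)).trans_lt
    (by rw [mk_singleton]; exact one_lt_aleph0.trans_le hz.aleph0_le)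

theorem exists_add (g : Cond Al) (e : Ent l) (h : Al e.1.1 ∧ e.1.2 < e.1.1.1 ∧ e.2 ≤ e.1.1.2)
    (hf : g.Free e.1) : ∃ g' : Cond Al, g'.s = insert e g.s :=
  ⟨union (single e h) g (fun k v v' h1 h2 => by
    obtain rfl : (k, v) = e := h1
    exact absurd h2 (hf v')), rfl⟩

theorem card_dom (g : Cond Al) {a : OT l × OT l} (ha : (cd a.1).IsRegular) :
    #{ξ | ¬ g.Free (a, ξ)} < cd a.1 := by
  refine lt_of_le_of_lt ?_ (mk_image_le.trans_lt (g.sm a.1 ha) :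
    #((fun e : Ent l => e.1.2) '' {e ∈ g.s | e.1.1.1 = a.1}) < _)
  refine mk_le_mk_of_subset fun ξ hξ => ?_
  simp only [Free, mem_setOf_eq, not_forall, not_not] at hξ
  obtain ⟨v, hv⟩ := hξ
  exact ⟨_, ⟨hv, rfl⟩, rfl⟩

theorem exists_free (g : Cond Al) {a : OT l × OT l} (ha : (cd a.1).IsRegular) :
    ∃ ξ < a.1, g.Free (a, ξ) := by
  by_contra hn
  push Not at hn
  exact (g.card_dom ha).not_ge (mk_le_mk_of_subset (s := Iio a.1) hn)

/-- the union of a small family of compatible conditions -/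
theorem exists_iUnion {Z : Type u} (f : Z → Cond Al)
    (h1 : ∀ i j k v v', (k, v) ∈ (f i).s → (k, v') ∈ (f j).s → v = v')
    (h2 : ∀ i, ∀ e ∈ (f i).s, #Z < cd e.1.1.1) : ∃ g : Cond Al, g.s = ⋃ i, (f i).s := by
  refine ⟨⟨⋃ i, (f i).s, fun k v v' a b => ?_, fun e he => ?_, fun z hz => ?_⟩, rfl⟩
  · obtain ⟨i, hi⟩ := mem_iUnion.mp a
    obtain ⟨j, hj⟩ := mem_iUnion.mp b
    exact h1 i j k v v' hi hj
  · obtain ⟨i, hi⟩ := mem_iUnion.mp he
    exact (f i).ok e hi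
  · by_cases h : #Z < cd z
    · have : {e ∈ ⋃ i, (f i).s | e.1.1.1 = z} = ⋃ i, {e ∈ (f i).s | e.1.1.1 = z} := by
        ext e; simp only [mem_setOf_eq, mem_iUnion]; tauto
      rw [this]
      exact mk_iUnion_le_sum_mk.trans_lt (sum_lt_of_isRegular hz h fun i => (f i).sm z hz)
    · have : {e ∈ ⋃ i, (f i).s | e.1.1.1 = z} = ∅ := by
        refine eq_empty_of_forall_notMem fun e he => h ?_
        obtain ⟨i, hi⟩ := mem_iUnion.mp he.1
        exact he.2 ▸ h2 i e hi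
      rw [this, mk_emptyCollection]
      exact hz.pos

/-- the union of the `A`-parts of a chain -/
theorem exists_lim {Z : Type u} [LinearOrder Z] {A : Set (OT l × OT l)}
    (hA : ∀ a ∈ A, #Z < cd a.1) (f : Z → Cond Al)
    (h : ∀ i j, i < j → (restr A (f i)).s ⊆ (f j).s) :
    ∃ g : Cond Al, ∀ e, e ∈ g.s ↔ e.1.1 ∈ A ∧ ∃ i, e ∈ (f i).s := by
  obtain ⟨g, hg⟩ := exists_iUnion (fun i => restr A (f i)) (by
    intro i j k v v' a b
    rcases lt_trichotomy i j with h' | rfl | h'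
    · exact (f j).fn k v v' (h i j h' a) b.1
    · exact (f i).fn k v v' a.1 b.1
    · exact (f i).fn k v v' a.1 (h j i h' b)) (fun i e he => hA _ he.2)
  refine ⟨g, fun e => ?_⟩
  rw [hg, mem_iUnion]
  exact ⟨fun ⟨i, hi⟩ => ⟨hi.2, i, hi.1⟩, fun ⟨h1, i, hi⟩ => ⟨i, hi, h1⟩⟩

variable [hl : Fact l.IsInaccessible]

theorem card_restr (hAl : ∀ a, Al a → (cd a.1).IsRegular) {σ : Cardinal.{u}} (hσ : ℵ₀ ≤ σ)
    (hσl : Order.succ σ < l) {A : Set (OT l × OT l)}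
    (h : ∀ a ∈ A, Al a → a.1 ≤ oc l σ ∨ a.1 = oc l (Order.succ σ)) (g : Cond Al) :
    #(restr A g).s ≤ σ := by
  have hσ' : σ < l := (Order.lt_succ σ).trans hσl
  have : (restr A g).s ⊆ ⋃ z : (insert (oc l (Order.succ σ)) (Iic (oc l σ)) : Set (OT l)),
      {e ∈ g.s | e.1.1.1 = z.1} := fun e he =>
    mem_iUnion.mpr ⟨⟨e.1.1.1, (h _ he.2 (g.ok e he.1).1).symm⟩, he.1, rfl⟩
  refine (mk_le_mk_of_subset this).trans ((mk_iUnion_le _).trans ?_)
  refine (mul_le_mul' ?_ (ciSup_le' fun z => ?_)).trans (mul_eq_self hσ).le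
  · refine mk_insert_le.trans ?_
    rw [mk_Iic, cd_oc hσ', add_one_eq hσ, add_one_eq hσ]
  · by_cases hz : (cd z.1).IsRegular
    · refine Order.lt_succ_iff.mp ((g.sm _ hz).trans_le ?_)
      rcases z.2 with e | e
      · rw [e, cd_oc hσl]
      · exact ((cd_mono e).trans (cd_oc hσ').le).trans (Order.le_succ σ)
    · have : {e ∈ g.s | e.1.1.1 = z.1} = ∅ :=
        eq_empty_of_forall_notMem fun e he => hz (he.2 ▸ hAl _ (g.ok e he.1).1)
      rw [this, mk_emptyCollection]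
      exact zero_le

theorem card_range_restr (hAl : ∀ a, Al a → (cd a.1).IsRegular) {σ τ : Cardinal.{u}} (hσ : ℵ₀ ≤ σ)
    (hστ : σ < τ) (hτ : τ < l) {A : Set (OT l × OT l)}
    (h : ∀ a ∈ A, Al a → a.1 ≤ oc l σ ∨ a.1 = oc l (Order.succ σ))
    (h' : ∀ a ∈ A, Al a → a.2 ≤ oc l τ) : #(range (restr A : Cond Al → Cond Al)) ≤ τ ^ σ := by
  have hσl : Order.succ σ < l := (Order.succ_le_of_lt hστ).trans_lt hτ
  have hτ0 : ℵ₀ ≤ τ := hσ.trans hστ.le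
  let I := Iic (oc l τ)
  have hI : #I = τ := by rw [mk_Iic, cd_oc hτ, add_one_eq hτ0]
  have hE : #(((I ×ˢ I) ×ˢ I) ×ˢ I : Set (Ent l)) = τ := by
    simp only [mk_setProd, hI, mul_eq_self hτ0]
  refine le_trans (mk_le_of_injective (f := fun g : range (restr A : Cond Al → Cond Al) =>
    (⟨g.1.s, ?_, ?_⟩ : {t : Set (Ent l) // t ⊆ ((I ×ˢ I) ×ˢ I) ×ˢ I ∧ #t ≤ σ})) ?_)
    ((mk_bounded_subset_le _ _).trans ?_)
  · obtain ⟨_, g, rfl⟩ := g
    intro e he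
    obtain ⟨a1, a2, a3⟩ := g.ok e he.1
    have b1 : e.1.1.1 ≤ oc l τ := by
      rcases h _ he.2 a1 with b | b
      · exact b.trans ((oc_le_oc (hστ.trans hτ) hτ).mpr hστ.le)
      · exact b.le.trans ((oc_le_oc hσl hτ).mpr (Order.succ_le_of_lt hστ))
    exact ⟨⟨⟨b1, h' _ he.2 a1⟩, a2.le.trans b1⟩, a3.trans (h' _ he.2 a1)⟩
  · obtain ⟨_, g, rfl⟩ := g
    exact card_restr hAl hσ hσl h g
  · exact fun g g' e => Subtype.ext (ext' (congrArg Subtype.val e))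
  · rw [hE, max_eq_left hτ0]

end Cond

end Pool.Agent.Lib.MP_4847d9_lc
end

-- part Pool.Agent.Lib.MP_4847d9_lc.Par
section

/-! The cardinal parameters of the construction. -/

namespace Pool.Agent.Lib.MP_4847d9_lc

open Pool.Agent.Shared.Forcing Cardinal Set

universe u

/-- beth numbers -/
def Bt (ρ : Cardinal.{u}) : Prop := ∃ o, ρ = beth o

theorem Bt.two_pow {ρ : Cardinal.{u}} (h : Bt ρ) : Bt (2 ^ ρ) := by
  obtain ⟨o, rfl⟩ := h
  exact ⟨o + 1, (beth_add_one o).symm⟩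

theorem Bt.le_of_lt {ρ ρ' : Cardinal.{u}} (h : Bt ρ) (h' : Bt ρ') (e : ρ < 2 ^ ρ') : ρ ≤ ρ' := by
  obtain ⟨o, rfl⟩ := h
  obtain ⟨o', rfl⟩ := h'
  rw [← beth_add_one, beth_lt_beth] at e
  exact beth_le_beth.mpr (Order.lt_add_one_iff.mp e)

theorem Bt.two_pow_le {ρ ρ' : Cardinal.{u}} (h : Bt ρ) (h' : Bt ρ') (e : ρ < ρ') : 2 ^ ρ ≤ ρ' :=
  le_of_not_gt fun e' => e.not_ge (h'.le_of_lt h e')

theorem exists_bt {σ : Cardinal.{u}} (h : ℵ₀ ≤ σ) : ∃ ρ, Bt ρ ∧ ρ ≤ σ ∧ σ < 2 ^ ρ := by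
  have hne : ∃ o, σ < beth o := ⟨(Order.succ σ).ord, Order.succ_le_iff.mp (le_beth_ord _)⟩
  obtain ⟨o, ho, hmin⟩ := (wellFounded_lt (α := Ordinal.{u})).has_min {o | σ < beth o} hne
  have hmin' : ∀ o' < o, beth o' ≤ σ := fun o' h => le_of_not_gt fun h' => hmin o' h' h
  rcases Ordinal.zero_or_succ_or_isSuccLimit o with rfl | ⟨o', rfl⟩ | hl
  · exact absurd ho (by simpa using h)
  · exact ⟨_, ⟨o', rfl⟩, hmin' o' (Order.lt_succ o'), by rw [← beth_succ]; exact ho⟩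
  · have : beth o ≤ σ := by
      rw [beth_limit hl]; exact ciSup_le' fun a => hmin' a.1 a.2
    exact absurd ho (not_lt.mpr this)

theorem Bt.cases {ρ : Cardinal.{u}} (h : Bt ρ) :
    IsStrongLimit ρ ∨ ∃ ρ', Bt ρ' ∧ ρ = 2 ^ ρ' := by
  obtain ⟨o, rfl⟩ := h
  by_cases e : Order.IsSuccPrelimit o
  · exact Or.inl (isStrongLimit_beth.mpr e)
  · obtain ⟨o', rfl⟩ := Order.not_isSuccPrelimit_iff_mem_range_succ.mp e
    exact Or.inr ⟨_, ⟨o', rfl⟩, beth_succ o'⟩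

theorem inacc_bt {c : Cardinal.{u}} (h : c.IsInaccessible) : Bt c := ⟨_, h.beth_ord.symm⟩

theorem pow_lt_of_strong {c a b : Cardinal.{u}} (h : IsStrongLimit c) (ha : a < c) (hb : b < c) :
    a ^ b < c := by
  refine lt_of_le_of_lt (power_le_power_right (cantor a).le) ?_
  rw [← power_mul]
  exact h.isStrongPrelimit (mul_lt_of_lt h.aleph0_le ha hb)

theorem succ_lt_of_strong {c a : Cardinal.{u}} (h : IsStrongLimit c) (ha : a < c) :
    Order.succ a < c := h.isSuccLimit.succ_lt ha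

theorem mk_small_subsets_le {c : Cardinal.{u}} (h : c.IsInaccessible) {α : Type u} (hα : #α ≤ c) :
    #{Z : Set α // #Z < c} ≤ c := by
  obtain ⟨e⟩ : Nonempty (α ↪ c.out) := by rw [← le_def, mk_out]; exact hα
  have h1 := mk_subset_mk_lt_cof (α := c.out) (by rw [mk_out]; exact h.isStrongPrelimit)
  rw [mk_out, h.isRegular.cof_ord] at h1
  refine le_trans (mk_le_of_injective (f := fun Z : {Z : Set α // #Z < c} =>
    (⟨e '' Z.1, mk_image_le.trans_lt Z.2⟩ : {Z : Set c.out // #Z < c})) ?_) h1.le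
  exact fun Z Z' e' => Subtype.ext (e.injective.image_injective (congrArg Subtype.val e'))

theorem inacc_pow {c σ : Cardinal.{u}} (h : c.IsInaccessible) (hσ : σ < c) : c ^ σ ≤ c := by
  have h1 := mk_small_subsets_le h (α := σ.out × c.out) (by
    rw [mk_prod, lift_id, lift_id, mk_out, mk_out]
    exact (mul_le_mul_left hσ.le c).trans (mul_eq_self h.aleph0_lt.le).le)
  refine le_trans ?_ h1
  conv_lhs => rw [← mk_out c, ← mk_out σ, power_def]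
  refine mk_le_of_injective (f := fun f : σ.out → c.out =>
    (⟨range fun x => (x, f x), mk_range_le.trans_lt (by rwa [mk_out])⟩ :
      {Z : Set (σ.out × c.out) // #Z < c})) fun f g e => funext fun x => ?_
  have e' : range (fun x => (x, f x)) = range fun x => (x, g x) := congrArg Subtype.val e
  obtain ⟨y, hy⟩ := e' ▸ mem_range_self (f := fun x => (x, f x)) x
  obtain ⟨rfl, h⟩ := Prod.ext_iff.mp hy
  exact h.symm

structure Par (l : Cardinal.{u}) where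
  θ : Cardinal.{u}
  κ : Cardinal.{u}
  m : ℕ
  hθ : θ.IsInaccessible
  hκ : κ.IsInaccessible
  θκ : θ < κ
  κl : κ < l
  noin : ∀ c, κ < c → c < l → ¬ c.IsInaccessible

namespace Par

variable {l : Cardinal.{u}} (π : Par l)

noncomputable def ρ : ℕ → Cardinal.{u}
  | 0 => π.θ
  | j + 1 => 2 ^ ρ j

noncomputable def μ : Cardinal.{u} := Order.succ (π.ρ π.m)

theorem θ0 : ℵ₀ < π.θ := π.hθ.aleph0_lt

theorem θl : π.θ < l := π.θκ.trans π.κl

theorem ρ_strictMono : StrictMono π.ρ := strictMono_nat_of_lt_succ fun _ => cantor _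

theorem θ_le_ρ (j : ℕ) : π.θ ≤ π.ρ j := π.ρ_strictMono.monotone (Nat.zero_le j)

theorem ρ0 (j : ℕ) : ℵ₀ ≤ π.ρ j := π.θ0.le.trans (π.θ_le_ρ j)

theorem ρκ : ∀ j, π.ρ j < π.κ
  | 0 => π.θκ
  | j + 1 => π.hκ.isStrongPrelimit (ρκ j)

theorem bt_ρ : ∀ j, Bt (π.ρ j)
  | 0 => inacc_bt π.hθ
  | j + 1 => (bt_ρ j).two_pow

theorem le_θ_of_strong {δ : Cardinal.{u}} (h : IsStrongLimit δ) : ∀ j, δ ≤ π.ρ j → δ ≤ π.θ
  | 0, e => e
  | j + 1, e => le_θ_of_strong h j (le_of_not_gt fun e' => (h.isStrongPrelimit e').not_ge e)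

theorem μκ : π.μ < π.κ := succ_lt_of_strong π.hκ.isStrongLimit (π.ρκ _)

theorem μl : π.μ < l := π.μκ.trans π.κl

theorem μreg : π.μ.IsRegular := isRegular_succ (π.ρ0 _)

theorem θμ : π.θ < π.μ := (π.θ_le_ρ _).trans_lt (Order.lt_succ _)

theorem succθ_le : Order.succ π.θ ≤ π.μ := Order.succ_le_of_lt π.θμ

noncomputable def qp : QP l where
  θ := π.θ
  μ := π.μ
  κ := π.κ
  Λ := Ici π.θ
  θ0 := π.θ0.le
  μreg := π.μreg
  μl := π.μl
  θμ := π.θμ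
  Λθ := fun _ h => h

/-- the cardinals `ρ` such that `2 ^ ρ` is collapsed to `ρ⁺` -/
def R (ρ : Cardinal.{u}) : Prop := Bt ρ ∧ ρ < l ∧ π.θ ≤ ρ ∧ (ρ ≤ π.ρ π.m ∨ π.κ ≤ ρ)

theorem R_θ : π.R π.θ := ⟨inacc_bt π.hθ, π.θl, le_rfl, Or.inl (π.θ_le_ρ _)⟩

theorem R_ρ {j : ℕ} (h : j ≤ π.m) : π.R (π.ρ j) :=
  ⟨π.bt_ρ j, (π.ρκ j).trans π.κl, π.θ_le_ρ j, Or.inl (π.ρ_strictMono.monotone h)⟩

variable [hl : Fact l.IsInaccessible]

/-- the allowed coordinates `(z, γ)` -/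
def Al (a : OT l × OT l) : Prop :=
  (a.1 = oc l ℵ₀ ∧ cd a.2 < π.θ) ∨ (a.1 = oc l π.μ ∧ cd a.2 < π.κ) ∨
    ∃ ρ, π.R ρ ∧ a.1 = oc l (Order.succ ρ) ∧ a.2 = oc l (2 ^ ρ)

theorem succ_lt_l {ρ : Cardinal.{u}} (h : ρ < l) : Order.succ ρ < l :=
  succ_lt_of_strong hl.out.isStrongLimit h

theorem two_pow_lt_l {ρ : Cardinal.{u}} (h : ρ < l) : 2 ^ ρ < l := hl.out.isStrongPrelimit h

variable {π}

theorem Al.reg (a : OT l × OT l) (h : π.Al a) : (cd a.1).IsRegular := by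
  rcases h with ⟨h, -⟩ | ⟨h, -⟩ | ⟨ρ, h1, h, -⟩ <;> rw [h]
  · rw [cd_oc aleph0_lt_l]; exact isRegular_aleph0
  · rw [cd_oc π.μl]; exact π.μreg
  · rw [cd_oc (succ_lt_l h1.2.1)]; exact isRegular_succ (π.θ0.le.trans h1.2.2.1)

theorem Al.zone {a : OT l × OT l} (h : π.Al a) {σ : Cardinal.{u}} (hσ : σ < l)
    (e : cd a.1 ≤ Order.succ σ) : a.1 ≤ oc l σ ∨ a.1 = oc l (Order.succ σ) := by
  have : a.1 = oc l (cd a.1) := by
    rcases h with ⟨h, -⟩ | ⟨h, -⟩ | ⟨ρ, h1, h, -⟩ <;> rw [h]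
    · rw [cd_oc aleph0_lt_l]
    · rw [cd_oc π.μl]
    · rw [cd_oc (succ_lt_l h1.2.1)]
  rcases e.lt_or_eq with e | e
  · exact Or.inl (this ▸ (oc_le_oc (cd_lt _) hσ).mpr (Order.lt_succ_iff.mp e))
  · exact Or.inr (e ▸ this)

theorem Al.of_le_θ {a : OT l × OT l} (h : π.Al a) (e : cd a.1 < Order.succ π.θ) :
    a.1 = oc l ℵ₀ ∧ cd a.2 < π.θ := by
  rcases h with h | ⟨h, -⟩ | ⟨ρ, h1, h, -⟩
  · exact h
  · rw [h, cd_oc π.μl] at e
    exact absurd e (not_lt.mpr π.succθ_le)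
  · rw [h, cd_oc (succ_lt_l h1.2.1)] at e
    exact absurd e (not_lt.mpr (Order.succ_le_succ h1.2.2.1))

theorem Al.of_le_κ {a : OT l × OT l} (h : π.Al a) (e : cd a.1 < Order.succ π.κ) :
    cd a.1 ≤ π.μ ∧ cd a.2 < π.κ ∧ (a.1 ≠ oc l π.μ → cd a.2 ≤ 2 ^ π.ρ π.m) := by
  rcases h with ⟨h, h'⟩ | ⟨h, h'⟩ | ⟨ρ, h1, h, h'⟩
  · refine ⟨?_, h'.trans π.θκ, fun _ => h'.le.trans ((π.θ_le_ρ _).trans (cantor _).le)⟩
    rw [h, cd_oc aleph0_lt_l]; exact π.μreg.aleph0_le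
  · exact ⟨by rw [h, cd_oc π.μl], h', fun e => absurd h e⟩
  · rw [h, cd_oc (succ_lt_l h1.2.1), Order.succ_lt_succ_iff] at e
    have e' : ρ ≤ π.ρ π.m := h1.2.2.2.resolve_right (not_le.mpr e)
    rw [h, h', cd_oc (succ_lt_l h1.2.1), cd_oc (two_pow_lt_l h1.2.1)]
    exact ⟨Order.succ_le_succ e', π.hκ.isStrongPrelimit e,
      fun _ => power_le_power_left two_ne_zero e'⟩

theorem Al.of_le_pow {a : OT l × OT l} (h : π.Al a) {ρ : Cardinal.{u}} (h1 : π.R ρ)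
    (h2 : π.R (2 ^ ρ)) (e : cd a.1 < Order.succ (2 ^ ρ)) :
    cd a.1 ≤ Order.succ ρ ∧ a.2 ≤ oc l (2 ^ ρ) := by
  rw [Order.lt_succ_iff] at e
  rcases h with ⟨h, h'⟩ | ⟨h, h'⟩ | ⟨ρ', h3, h, h'⟩
  · refine ⟨?_, ((lt_oc h2.2.1).mpr (h'.trans_le h2.2.2.1)).le⟩
    rw [h, cd_oc aleph0_lt_l]; exact π.θ0.le.trans (h1.2.2.1.trans (Order.le_succ _))
  · rw [h, cd_oc π.μl] at e ⊢
    have e1 : π.κ ≤ 2 ^ ρ := h2.2.2.2.resolve_left (not_le.mpr (Order.succ_le_iff.mp e))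
    have e2 : π.κ ≤ ρ := le_of_not_gt fun e' => (π.hκ.isStrongPrelimit e').not_ge e1
    exact ⟨π.μκ.le.trans (e2.trans (Order.le_succ _)), ((lt_oc h2.2.1).mpr (h'.trans_le e1)).le⟩
  · rw [h, cd_oc (succ_lt_l h3.2.1)] at e ⊢
    have e1 : ρ' ≤ ρ := h3.1.le_of_lt h1.1 (Order.succ_le_iff.mp e)
    exact ⟨Order.succ_le_succ e1, h' ▸ (oc_le_oc (two_pow_lt_l h3.2.1) h2.2.1).mpr
      (power_le_power_left two_ne_zero e1)⟩

end Par

end Pool.Agent.Lib.MP_4847d9_lc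
end

-- part Pool.Agent.Lib.MP_4847d9_lc.Poset
section

/-! The forcing poset and its decompositions. -/

namespace Pool.Agent.Lib.MP_4847d9_lc

open Pool.Agent.Shared.Forcing Cardinal Set Cond

universe u

variable {l : Cardinal.{u}} [hl : Fact l.IsInaccessible]

/-- coordinates of the zones below `d` -/
def Zl (l d : Cardinal.{u}) : Set (OT l × OT l) := {a | cd a.1 < d}

variable (π : Par l)

abbrev Z0 : Set (OT l × OT l) := Zl l (Order.succ π.θ)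

/-- conditions ordered by their part collapsing to `ω` -/
def P0 : Type u := Cond π.Al

instance : Preorder (P0 π) where
  le g' g := (restr (Z0 π) g).s ⊆ Cond.s g'
  le_refl _ _ h := h.1
  le_trans _ _ _ h1 h2 _ h := h1 ⟨h2 h, h.2⟩

abbrev B1 : Type u := RO (P0 π)

variable {π}

def pi (g : Cond π.Al) : B1 π := RO.io (P := P0 π) g

theorem pi_mono {g g' : Cond π.Al} (h : (restr (Z0 π) g).s ⊆ g'.s) : pi g' ≤ pi g :=
  RO.io_mono (P := P0 π) h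

theorem pi_mono' {g g' : Cond π.Al} (h : g.s ⊆ g'.s) : pi g' ≤ pi g :=
  pi_mono fun _ e => h e.1

theorem pi_congr {g g' : Cond π.Al} (h : restr (Z0 π) g = restr (Z0 π) g') : pi g = pi g' :=
  le_antisymm (pi_mono fun _ e => (h ▸ e : _ ∈ (restr (Z0 π) g).s).1)
    (pi_mono fun _ e => (h ▸ e : _ ∈ (restr (Z0 π) g').s).1)

theorem pi_glue {A : Set (OT l × OT l)} (h : Z0 π ⊆ A) (g g' : Cond π.Al) :
    pi (glue A g g') = pi g := pi_congr (restr_glue h g g')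

theorem pi_restr {A : Set (OT l × OT l)} (h : Z0 π ⊆ A) (g : Cond π.Al) :
    pi (restr A g) = pi g := pi_congr (restr_restr h g)

theorem pi_ne_bot (g : Cond π.Al) : pi g ≠ ⊥ := RO.io_ne_bot _

theorem subset_glue {A : Set (OT l × OT l)} {g g' : Cond π.Al} (h : (restr A g).s ⊆ g'.s) :
    g.s ⊆ (glue A g' g).s := fun e he => by
  by_cases h' : e.1.1 ∈ A
  · exact Or.inl ⟨h ⟨he, h'⟩, h'⟩
  · exact Or.inr ⟨he, h'⟩

theorem exists_pi_le {g : Cond π.Al} {b : B1 π} (h : b ⊓ pi g ≠ ⊥) :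
    ∃ g' : Cond π.Al, g.s ⊆ g'.s ∧ pi g' ≤ b := by
  obtain ⟨r, hr⟩ := RO.ne_bot_iff.mp h
  rw [RO.mem_inf] at hr
  obtain ⟨r', h1, h2⟩ := RO.mem_io.mp hr.2 r le_rfl
  refine ⟨glue (Z0 π) r' g, subset_glue h2, ?_⟩
  rw [pi_glue subset_rfl]
  exact RO.io_le.mpr (RO.mono hr.1 h1)

variable (π) in
/-- the forcing poset -/
structure PP : Type u where
  g : Cond π.Al
  t : Q (B1 π) π.qp

instance : Preorder (PP π) where
  le p' p := p.g.s ⊆ p'.g.s ∧ Q.Le (pi p'.g) p'.t p.t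
  le_refl _ := ⟨subset_rfl, Q.Le.refl _ _⟩
  le_trans _ _ _ h1 h2 := ⟨h2.1.trans h1.1, h1.2.trans (h2.2.mono (pi_mono' h1.1))⟩

namespace PP

theorem le_def {p p' : PP π} : p' ≤ p ↔ p.g.s ⊆ p'.g.s ∧ Q.Le (pi p'.g) p'.t p.t := Iff.rfl

theorem le_of_g (p : PP π) {g : Cond π.Al} (h : p.g.s ⊆ g.s) : (⟨g, p.t⟩ : PP π) ≤ p :=
  ⟨h, Q.Le.refl _ _⟩

theorem le_of_t (p : PP π) {t : Q (B1 π) π.qp} (h : Q.Le ⊤ t p.t) : (⟨p.g, t⟩ : PP π) ≤ p :=
  ⟨subset_rfl, h.mono le_top⟩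

noncomputable def res (A : Set (OT l × OT l)) (X : Set (OT l)) (p : PP π) : PP π :=
  ⟨restr A p.g, Q.res X p.t⟩

noncomputable def amal (A : Set (OT l × OT l)) (X : Set (OT l)) (r p : PP π) : PP π :=
  ⟨glue A r.g p.g, Q.amal X r.t p.t⟩

noncomputable def addDom (r p : PP π) : PP π := ⟨r.g, Q.addDom p.t.D p.t.hD p.t.hDκ r.t⟩

theorem addDom_le (r p : PP π) : addDom r p ≤ r := ⟨subset_rfl, Q.addDom_le _ _ p.t.hD p.t.hDκ _⟩

/-- the same common part -/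
def Com (A : Set (OT l × OT l)) (X : Set (OT l)) (p p' : PP π) : Prop :=
  res A X p = res A X p' ∧ p.t.D = p'.t.D

variable {A A' : Set (OT l × OT l)} {X X' : Set (OT l)}

theorem Com.refl (p : PP π) : Com A X p p := ⟨rfl, rfl⟩

theorem Com.symm {p p' : PP π} (h : Com A X p p') : Com A X p' p := ⟨h.1.symm, h.2.symm⟩

theorem Com.trans {p q r : PP π} (h : Com A X p q) (h' : Com A X q r) : Com A X p r :=
  ⟨h.1.trans h'.1, h.2.trans h'.2⟩

theorem Com.g {p p' : PP π} (h : Com A X p p') : restr A p.g = restr A p'.g := congrArg PP.g h.1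

theorem Com.t {p p' : PP π} (h : Com A X p p') : Q.res X p.t = Q.res X p'.t := congrArg PP.t h.1

theorem Com.mk' {p p' : PP π} (h1 : restr A p.g = restr A p'.g) (h2 : Q.res X p.t = Q.res X p'.t)
    (h3 : p.t.D = p'.t.D) : Com A X p p' := ⟨by rw [res, res, h1, h2], h3⟩

theorem res_res (hA : A' ⊆ A) (hX : X' ⊆ X) (p : PP π) : res A' X' (res A X p) = res A' X' p := by
  simp only [res, restr_restr hA, Q.res_res hX]

theorem Com.mono {p p' : PP π} (h : Com A X p p') (hA : A' ⊆ A) (hX : X' ⊆ X) : Com A' X' p p' :=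
  ⟨by rw [← res_res hA hX p, h.1, res_res hA hX], h.2⟩

theorem Com.pi {p p' : PP π} (h : Com A X p p') (hA : Z0 π ⊆ A) : pi p.g = pi p'.g := by
  rw [← pi_restr hA, h.g, pi_restr hA]

theorem le_res (p : PP π) : p ≤ res A X p := ⟨fun _ h => h.1, Q.le_res _ _ _⟩

theorem res_mono (hA : Z0 π ⊆ A) {p p' : PP π} (h : p' ≤ p) : res A X p' ≤ res A X p :=
  ⟨fun _ e => ⟨h.1 e.1, e.2⟩, by
    show Q.Le (pi (restr A p'.g)) _ _
    rw [pi_restr hA]; exact h.2.res X⟩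

theorem com_amal (r p : PP π) : Com A X (amal A X r p) r :=
  Com.mk' (restr_glue subset_rfl _ _) (Q.res_amal _ _ _) rfl

theorem amal_le (hA : Z0 π ⊆ A) {r p : PP π} (h : r ≤ res A X p) (hD : p.t.D ⊆ r.t.D) :
    amal A X r p ≤ p :=
  ⟨subset_glue h.1, by
    show Q.Le (pi (glue A r.g p.g)) _ _
    rw [pi_glue hA]; exact Q.amal_le h.2 hD⟩

theorem amal_le_of_com (hA : Z0 π ⊆ A) {r p p₀ : PP π} (hc : Com A X p p₀) (h : r ≤ p₀) :
    amal A X r p ≤ p :=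
  amal_le hA (hc.1 ▸ h.trans (le_res p₀)) (hc.2 ▸ h.2.D)

/-- conditions with the same common part are below the same conditions of the common part -/
theorem Com.le (hA : Z0 π ⊆ A) {p p' s : PP π} (hc : Com A X p p') (h : p ≤ res A X s) :
    p' ≤ res A X s := by
  have := res_mono (X := X) hA h
  rw [res_res subset_rfl subset_rfl, hc.1] at this
  exact (le_res p').trans this

theorem exists_amal (hA : Z0 π ⊆ A) {r p : PP π} (h : r ≤ res A X p) :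
    ∃ r' ≤ r, ∃ p' ≤ p, Com A X p' r' :=
  ⟨addDom r p, addDom_le r p, _, amal_le hA ((addDom_le r p).trans h) subset_union_right,
    com_amal _ _⟩

/-- lower order of the decomposition at a small cardinal -/
def LowS (d : Cardinal.{u}) (p' p : PP π) : Prop := (restr (Zl l d) p.g).s ⊆ p'.g.s

/-- upper order of the decomposition at a small cardinal -/
def UpS (d : Cardinal.{u}) (p' p : PP π) : Prop :=
  (restr (Zl l d)ᶜ p.g).s ⊆ p'.g.s ∧ Q.Le ⊤ p'.t p.t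

def combS (d : Cardinal.{u}) (a w : PP π) : PP π := ⟨glue (Zl l d) a.g w.g, w.t⟩

noncomputable def mix (h w : PP π) : PP π := ⟨h.g, Q.mix (pi h.g) h.t w.t⟩

variable {d : Cardinal.{u}}

theorem LowS.refl (p : PP π) : LowS d p p := fun _ h => h.1

theorem LowS.trans {a b c : PP π} (h : LowS d a b) (h' : LowS d b c) : LowS d a c :=
  fun _ e => h ⟨h' e, e.2⟩

theorem UpS.refl (p : PP π) : UpS d p p := ⟨fun _ h => h.1, Q.Le.refl _ _⟩

theorem UpS.trans {a b c : PP π} (h : UpS d a b) (h' : UpS d b c) : UpS d a c :=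
  ⟨fun _ e => h.1 ⟨h'.1 e, e.2⟩, h.2.trans h'.2⟩

theorem lowS_of_le {p q : PP π} (h : p ≤ q) : LowS d p q := fun _ e => h.1 e.1

theorem combS_mono {a a' w w' : PP π} (h : LowS d a' a) (h' : UpS d w' w) :
    combS d a' w' ≤ combS d a w :=
  ⟨fun _ e => e.imp (fun e => ⟨h e, e.2⟩) fun e => ⟨h'.1 e, e.2⟩, h'.2.mono le_top⟩

theorem lowS_of_le_comb {p a w : PP π} (h : p ≤ combS d a w) : LowS d p a :=
  fun _ e => h.1 (Or.inl e)

theorem upS_mix {p a w : PP π} (h : p ≤ combS d a w) : UpS d (mix p w) w :=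
  ⟨fun _ e => h.1 (Or.inr e), Q.mix_le_top h.2⟩

theorem combS_mix (p w : PP π) : combS d p (mix p w) ≤ p := by
  have : combS d p (mix p w) = mix p w := by
    simp only [combS, mix, glue_self]
  rw [this]
  exact ⟨subset_rfl, Q.mix_le _ _ _⟩

theorem combS_self (p : PP π) : combS d p p = p := by
  simp only [combS, glue_self]

theorem le_combS {r a w : PP π} (h : LowS d r a) (h1 : (restr (Zl l d)ᶜ w.g).s ⊆ r.g.s)
    (h2 : Q.Le (pi r.g) r.t w.t) : r ≤ combS d a w :=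
  ⟨fun _ e => e.elim (fun e => h e) fun e => h1 e, h2⟩

theorem le_combS_of_le {r a a' w : PP π} (h : LowS d r a) (h' : r ≤ combS d a' w) :
    r ≤ combS d a w := le_combS h (fun _ e => h'.1 (Or.inr e)) h'.2

theorem Com.combS {w w' : PP π} (h : Com A X w w') (a : PP π) :
    Com A X (combS d a w) (combS d a w') := by
  refine Com.mk' (Cond.ext' (Set.ext fun e => ?_)) h.t h.2
  have := Set.ext_iff.mp (congrArg Cond.s h.g) e
  simp only [PP.combS, mem_restr, mem_glue] at this ⊢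
  tauto

theorem Com.mix (hA : Z0 π ⊆ A) {h h' w w' : PP π} (h1 : Com A X h h') (h2 : Com A X w w') :
    Com A X (mix h w) (mix h' w') :=
  Com.mk' h1.g (by simp only [PP.mix, h1.pi hA]; exact Q.res_mix _ h1.t h1.2 h2.t) h1.2

theorem amal_up {r p p₀ : PP π} (hc : Com A X p p₀) (h : UpS d r p₀) :
    UpS d (amal A X r p) p := by
  refine ⟨fun e he => ?_, Q.amal_le (hc.t ▸ h.2.trans (Q.le_res _ _ _)) (hc.2 ▸ h.2.D)⟩
  by_cases h' : e.1.1 ∈ A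
  · have : e ∈ (restr A p₀.g).s := hc.g ▸ ⟨he.1, h'⟩
    exact Or.inl ⟨h.1 ⟨this.1, he.2⟩, h'⟩
  · exact Or.inr ⟨he.1, h'⟩

variable (π d) in
noncomputable def cutS : Cut (PP π) where
  Low := LowS d
  Up := UpS d
  comb := combS d
  low := fun a => ⟨restr (Zl l d) a.g, Q.top _ _⟩
  low_refl := LowS.refl
  low_trans := fun _ _ _ => LowS.trans
  up_refl := UpS.refl
  up_trans := fun _ _ _ => UpS.trans
  comb_mono := combS_mono
  low_of_le := lowS_of_le_comb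
  up_of_le := fun h => ⟨_, upS_mix h, combS_mix _ _⟩
  comb_self := fun p => (combS_self p).le
  comb_le_low := fun _ _ => ⟨fun _ e => Or.inl e, Q.le_top _ _⟩
  le_comb := fun h h' => le_combS_of_le h.1 h'

/-- lower order of the decomposition at a large cardinal -/
def LowB (d : Cardinal.{u}) (p' p : PP π) : Prop :=
  (restr (Zl l d) p.g).s ⊆ p'.g.s ∧ Q.Le (pi p'.g) p'.t p.t

theorem Z0_subset (hd : π.θ < d) : Z0 π ⊆ Zl l d :=
  fun _ h => lt_of_lt_of_le h (Order.succ_le_of_lt hd)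

theorem LowB.refl (p : PP π) : LowB d p p := ⟨fun _ h => h.1, Q.Le.refl _ _⟩

theorem LowB.trans (hd : π.θ < d) {a b c : PP π} (h : LowB d a b) (h' : LowB d b c) :
    LowB d a c :=
  ⟨fun _ e => h.1 ⟨h'.1 e, e.2⟩, h.2.trans (h'.2.mono (pi_mono fun _ e =>
    h.1 ⟨e.1, Z0_subset hd e.2⟩))⟩

theorem lowB_of_le {p q : PP π} (h : p ≤ q) : LowB d p q := ⟨fun _ e => h.1 e.1, h.2⟩

variable (π) in
noncomputable def cutB (d : Cardinal.{u}) (hd : π.θ < d) : Cut (PP π) where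
  Low := LowB d
  Up := fun p' p => (restr (Zl l d)ᶜ p.g).s ⊆ p'.g.s
  comb := fun a w => ⟨glue (Zl l d) a.g w.g, a.t⟩
  low := res (Zl l d) univ
  low_refl := LowB.refl
  low_trans := fun _ _ _ => LowB.trans hd
  up_refl := fun _ _ h => h.1
  up_trans := fun _ _ _ h h' _ e => h ⟨h' e, e.2⟩
  comb_mono := fun h h' => ⟨fun _ e => e.imp (fun e => ⟨h.1 e, e.2⟩) fun e => ⟨h' e, e.2⟩, by
    rw [pi_glue (Z0_subset hd)]; exact h.2⟩
  low_of_le := fun h => ⟨fun _ e => h.1 (Or.inl e), h.2⟩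
  up_of_le := fun {p _ _} h => ⟨p, fun _ e => h.1 (Or.inr e), by rw [glue_self]⟩
  comb_self := fun p => by rw [glue_self]
  comb_le_low := fun _ _ => ⟨fun _ e => Or.inl e, Q.le_res _ _ _⟩
  le_comb := fun h h' => ⟨fun _ e => e.elim (fun e => h.1 e) fun e => h'.1 (Or.inr e), by
    have := h.2
    simp only [res, Q.res_univ] at this
    exact this⟩

end PP

end Pool.Agent.Lib.MP_4847d9_lc
end
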